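import Pool.Agent.H41.BC.Prob2

/-! # Project BC: the random system has well distributed integers -/

set_option autoImplicit false

open MeasureTheory Filter Topology Set ProbabilityTheory

namespace Pool.Agent.H41.BC

/-- the grid -/
noncomputable def X (j : ℕ) : ℝ := ((j : ℝ) + 2) ^ 2

lemma X_succ (j : ℕ) : X (j + 1) = ((j : ℝ) + 3) ^ 2 := by unfold X; push_cast; ring

/-- the bound for the differences of the Riesz sum on the grid -/
theorem grid {α β : ℕ → ℝ} {ρ : ℕ → ℝ → ℝ} (H : Cells α β ρ) {W : ℕ → ℝ} (hW : ∀ n, W n ∈ Ioc (α n) (β n)) {κ : ℕ → ℕ}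
    (hκ : ∀ j, X (j + 1) < Real.exp (α (κ j))) {c : ℝ} {i : ℕ}
    (hc : ∃ C : ℝ, 0 ≤ C ∧ ∀ K : ℕ, |q1 α W K - c| ≤ C * Real.exp (-((1 - (1 / 2 + ep i)) * α K)))
    (hJ : ∃ C : ℝ, 0 ≤ C ∧ ∀ j : ℕ, JJ α (κ j) (1 / 2 + ep i) (ep i) (2 * (i + 1)) W ≤
      ENNReal.ofReal (C * ((j : ℝ) + 1) ^ 2)) :
    ∃ A : ℝ, 0 ≤ A ∧ ∀ j : ℕ, |(Rz (κ j) W (X (j + 1)) - Rz (κ j) W (X j)) / (X (j + 1) - X j) -
      c * (X j + X (j + 1)) / 2| ≤ A * X (j + 1) ^ (1 / 2 + 4 * ep i) := by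
  obtain ⟨C1, hC1, h1⟩ := hc
  obtain ⟨C2, hC2, h2⟩ := hJ
  set e := ep i with he
  have he0 : 0 < e := ep_pos i
  have he1 : e ≤ 1 / 4 := ep_le i
  set σ : ℝ := 1 / 2 + e with hσ
  set m : ℕ := 2 * (i + 1) with hm
  have hme : (m : ℝ) * (2 * e) = 1 := by
    rw [hm, he]; unfold ep; push_cast; field_simp; norm_num
  set Cw : ℝ := 2 / (1 - σ) * 2 ^ e with hCw
  have hCw0 : 0 ≤ Cw := by
    have : 0 < 1 - σ := by rw [hσ]; linarith
    positivity
  have hW0 : ∀ k, 0 < W k := fun k => by linarith [(hW k).1, H.four_le k]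
  refine ⟨C1 + Cw * 2 * (w0 e + C2), by have := w0_nonneg e; positivity, fun j => ?_⟩
  set x := X j with hx
  set y := X (j + 1) with hy
  have hxv : x = ((j : ℝ) + 2) ^ 2 := rfl
  have hyv : y = ((j : ℝ) + 3) ^ 2 := X_succ j
  have hj : (0:ℝ) ≤ j := Nat.cast_nonneg j
  have hx1 : 1 < x := by rw [hxv]; nlinarith
  have hh1 : 1 ≤ y - x := by rw [hxv, hyv]; nlinarith
  have hxy : x < y := by linarith
  have hy1 : 1 ≤ y := by linarith
  have hy0 : 0 < y := by linarith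
  set l : ℝ := ((j : ℝ) + 1) ^ (2 * e) with hl
  have hl0 : 0 < l := by positivity
  have hlm : l ^ (2 * m) = ((j : ℝ) + 1) ^ 2 := by
    rw [hl, ← Real.rpow_natCast, ← Real.rpow_mul (by positivity), ← Real.rpow_natCast]
    congr 1
    push_cast
    linarith
  have hE := E_bound H hW0 (K := κ j) (x := x) (y := y) (σ := σ) (δ := e) (l := l)
    (Γ := C2 * ((j : ℝ) + 1) ^ 2) hx1 hxy (hκ j) (by rw [hσ]; linarith) (by rw [hσ]; linarith) he0 (by linarith)
    hl0 (by positivity) (m := m) (by omega) (h2 j)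
  rw [hlm] at hE
  have hE2 : l * w0 e + l * (((j : ℝ) + 1) ^ 2)⁻¹ * (C2 * ((j : ℝ) + 1) ^ 2) = l * (w0 e + C2) := by
    have : ((j : ℝ) + 1) ^ 2 ≠ 0 := by positivity
    field_simp
  rw [hE2] at hE
  -- the size of the error
  have hly : l ≤ y ^ e := by
    rw [hl, hyv, ← Real.rpow_natCast, ← Real.rpow_mul (by positivity)]
    norm_num
    exact Real.rpow_le_rpow (by positivity) (by linarith) (by positivity)
  have hA0 : ((y - x) * y ^ σ) ^ (1 - e) * (2 * y ^ (σ + 1)) ^ e ≤ (y - x) * (2 * y ^ (σ + e)) := by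
    have hh0 : 0 < y - x := by linarith
    rw [Real.mul_rpow hh0.le (by positivity), Real.mul_rpow (by norm_num) (by positivity),
      ← Real.rpow_mul hy0.le, ← Real.rpow_mul hy0.le]
    have a1 : (y - x) ^ (1 - e) ≤ y - x := by
      have := Real.rpow_le_rpow_of_exponent_le hh1 (by linarith : 1 - e ≤ 1)
      rwa [Real.rpow_one] at this
    have a2 : (2:ℝ) ^ e ≤ 2 := by
      have := Real.rpow_le_rpow_of_exponent_le (by norm_num : (1:ℝ) ≤ 2) (by linarith : e ≤ 1)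
      rwa [Real.rpow_one] at this
    have a3 : y ^ (σ * (1 - e)) * y ^ ((σ + 1) * e) = y ^ (σ + e) := by
      rw [← Real.rpow_add hy0]; congr 1; ring
    calc (y - x) ^ (1 - e) * y ^ (σ * (1 - e)) * (2 ^ e * y ^ ((σ + 1) * e)) =
          (y - x) ^ (1 - e) * (2 ^ e * (y ^ (σ * (1 - e)) * y ^ ((σ + 1) * e))) := by ring
      _ = (y - x) ^ (1 - e) * (2 ^ e * y ^ (σ + e)) := by rw [a3]
      _ ≤ (y - x) * (2 * y ^ (σ + e)) :=
          mul_le_mul a1 (mul_le_mul_of_nonneg_right a2 (by positivity)) (by positivity) hh0.le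
  have hE3 : |Rz (κ j) W y - Rz (κ j) W x - q1 α W (κ j) * (y ^ 2 - x ^ 2) / 2| ≤
      (y - x) * (Cw * 2 * (w0 e + C2) * y ^ (1 / 2 + 4 * e)) := by
    refine hE.trans ?_
    have hw := w0_nonneg e
    calc Cw * (((y - x) * y ^ σ) ^ (1 - e) * (2 * y ^ (σ + 1)) ^ e) * (l * (w0 e + C2))
        ≤ Cw * ((y - x) * (2 * y ^ (σ + e))) * (y ^ e * (w0 e + C2)) := by
          refine mul_le_mul (mul_le_mul_of_nonneg_left hA0 hCw0) (mul_le_mul_of_nonneg_right hly (by positivity))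
            (by positivity) ?_
          have : 0 ≤ y - x := by linarith
          positivity
      _ = (y - x) * (Cw * 2 * (w0 e + C2) * (y ^ (σ + e) * y ^ e)) := by ring
      _ ≤ _ := by
          have : 0 ≤ y - x := by linarith
          refine mul_le_mul_of_nonneg_left (mul_le_mul_of_nonneg_left ?_ (by positivity)) this
          rw [← Real.rpow_add hy0]
          exact Real.rpow_le_rpow_of_exponent_le hy1 (by rw [hσ]; linarith)
  have hc3 : |q1 α W (κ j) - c| * ((x + y) / 2) ≤ C1 * y ^ (1 / 2 + 4 * e) := by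
    have a1 : Real.exp (-((1 - σ) * α (κ j))) ≤ y ^ (-(1 - σ)) := by
      have : Real.exp (-((1 - σ) * α (κ j))) = Real.exp (α (κ j)) ^ (-(1 - σ)) := by
        rw [← Real.exp_mul]; congr 1; ring
      rw [this]
      exact Real.rpow_le_rpow_of_nonpos hy0 (hκ j).le (by rw [hσ]; linarith)
    calc |q1 α W (κ j) - c| * ((x + y) / 2) ≤ (C1 * y ^ (-(1 - σ))) * y := by
          refine mul_le_mul ((h1 _).trans (mul_le_mul_of_nonneg_left a1 hC1)) (by linarith) (by linarith) (by positivity)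
      _ = C1 * y ^ σ := by
          rw [mul_assoc, ← Real.rpow_add_one hy0.ne']; congr 2; ring
      _ ≤ _ := mul_le_mul_of_nonneg_left (Real.rpow_le_rpow_of_exponent_le hy1 (by rw [hσ]; linarith)) hC1
  have hh0 : 0 < y - x := by linarith
  have key : (Rz (κ j) W y - Rz (κ j) W x) / (y - x) - c * (x + y) / 2 =
      (Rz (κ j) W y - Rz (κ j) W x - q1 α W (κ j) * (y ^ 2 - x ^ 2) / 2) / (y - x) +
        (q1 α W (κ j) - c) * ((x + y) / 2) := by
    field_simp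
    ring
  rw [key]
  refine (abs_add_le _ _).trans ?_
  rw [abs_div, abs_of_pos hh0, abs_mul, abs_of_pos (by linarith : 0 < (x + y) / 2)]
  have h5 : |Rz (κ j) W y - Rz (κ j) W x - q1 α W (κ j) * (y ^ 2 - x ^ 2) / 2| / (y - x) ≤
      Cw * 2 * (w0 e + C2) * y ^ (1 / 2 + 4 * e) := by
    rw [div_le_iff₀ hh0, mul_comm _ (y - x)]
    exact hE3
  linarith


theorem as_main {α β : ℕ → ℝ} {ρ : ℕ → ℝ → ℝ} (H : Cells α β ρ) : ∃ W : ℕ → ℝ, (∀ n, W n ∈ Ioc (α n) (β n)) ∧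
    ∃ c : ℝ, 0 < c ∧ ∀ ε : ℝ, 0 < ε → ∃ A : ℝ, ∀ x : ℝ, 1 ≤ x →
      |(NN W x : ℝ) - c * x| ≤ A * x ^ (1 / 2 + ε) := by
  have hex : ∀ j : ℕ, ∃ K : ℕ, X (j + 1) < Real.exp (α K) := by
    intro j
    have h1 : Tendsto (fun K => Real.exp (α K)) atTop atTop := Real.tendsto_exp_atTop.comp H.tendsto
    exact (h1.eventually_gt_atTop _).exists
  choose κ hκ using hex
  obtain ⟨W, hW, hJ⟩ := exists_good H κ
  obtain ⟨c, hc, hq⟩ := q_lim H hW
  have hW0 : ∀ k, 0 < W k := fun k => by linarith [(hW k).1, H.four_le k]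
  have hWT : Tendsto W atTop atTop := tendsto_atTop_mono (fun n => (hW n).1.le) H.tendsto
  refine ⟨W, hW, c, hc, fun ε hε => ?_⟩
  obtain ⟨i, hi⟩ := exists_nat_gt (1 / ε)
  set e := ep i with he
  have he0 : 0 < e := ep_pos i
  have he1 : e ≤ 1 / 4 := ep_le i
  have h4e : 4 * e ≤ ε := by
    rw [he]; unfold ep
    have h1 : 4 * (1 / (4 * ((i : ℝ) + 1))) = 1 / ((i : ℝ) + 1) := by field_simp
    rw [h1, div_le_iff₀ (by positivity)]
    rw [div_lt_iff₀ hε] at hi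
    nlinarith
  obtain ⟨A, hA, hD⟩ := grid H hW hκ (i := i) (c := c)
    (hq (1 / 2 + ep i) (by linarith) (by linarith)) (hJ i)
  -- counting
  have hcnt : ∀ j : ℕ, (NN W (X j) : ℝ) ≤ c * (X j + X (j + 1)) / 2 + A * X (j + 1) ^ (1 / 2 + 4 * e) ∧
      c * (X j + X (j + 1)) / 2 - A * X (j + 1) ^ (1 / 2 + 4 * e) ≤ NN W (X (j + 1)) := by
    intro j
    have hj : (0:ℝ) ≤ j := Nat.cast_nonneg j
    have hx0 : 0 < X j := by unfold X; positivity
    have hxy : X j < X (j + 1) := by rw [X_succ]; unfold X; nlinarith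
    have hc1 := cnt (W := W) (K := κ j) (x := X j) (y := X (j + 1)) hW0 hWT (fun k hk =>
      (hκ j).trans (Real.exp_lt_exp.2 (lt_of_le_of_lt (H.alpha_mono.monotone hk) (hW k).1))) hx0 hxy
    have hh : 0 < X (j + 1) - X j := by linarith
    have hd := abs_le.1 (hD j)
    have h1 : (NN W (X j) : ℝ) ≤ (Rz (κ j) W (X (j + 1)) - Rz (κ j) W (X j)) / (X (j + 1) - X j) := by
      rw [le_div_iff₀ hh, mul_comm]; exact hc1.1
    have h2 : (Rz (κ j) W (X (j + 1)) - Rz (κ j) W (X j)) / (X (j + 1) - X j) ≤ NN W (X (j + 1)) := by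
      rw [div_le_iff₀ hh, mul_comm]; exact hc1.2
    constructor <;> linarith [hd.1, hd.2]
  set p : ℝ := 1 / 2 + 4 * e with hp
  have hp0 : 0 < p := by linarith
  have hp2 : p ≤ 3 / 2 := by linarith
  set A1 : ℝ := 6 * c + 8 * A + NN W 9 + 9 * c with hA1
  have hN9 : (0:ℝ) ≤ NN W 9 := Nat.cast_nonneg _
  refine ⟨A1, fun x hx => ?_⟩
  have hx0 : 0 < x := by linarith
  have hxe : x ^ p ≤ x ^ (1 / 2 + ε) := Real.rpow_le_rpow_of_exponent_le hx (by rw [hp]; linarith)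
  have hA10 : 0 ≤ A1 := by positivity
  refine le_trans ?_ (mul_le_mul_of_nonneg_left hxe hA10)
  have hxp1 : 1 ≤ x ^ p := Real.one_le_rpow hx hp0.le
  rcases lt_or_ge x 9 with h9 | h9
  · have h1 : (NN W x : ℝ) ≤ NN W 9 := by exact_mod_cast NN_mono hW0 hWT h9.le
    have h2 : |(NN W x : ℝ) - c * x| ≤ NN W 9 + 9 * c := by
      rw [abs_le]
      constructor
      · have : (0:ℝ) ≤ NN W x := Nat.cast_nonneg _
        nlinarith
      · nlinarith
    refine h2.trans ?_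
    rw [hA1]
    nlinarith
  · -- the grid point
    have hs3 : 3 ≤ √x := by
      rw [show (3:ℝ) = √9 by rw [show (9:ℝ) = 3 ^ 2 by norm_num]; exact (Real.sqrt_sq (by norm_num)).symm]
      exact Real.sqrt_le_sqrt h9
    have hsq : √x ^ 2 = x := Real.sq_sqrt hx0.le
    have hs0 : 0 ≤ √x := Real.sqrt_nonneg x
    obtain ⟨j, hj⟩ : ∃ j : ℕ, ⌊√x⌋₊ = j + 3 := by
      have : 3 ≤ ⌊√x⌋₊ := Nat.le_floor (by exact_mod_cast hs3)
      exact ⟨⌊√x⌋₊ - 3, by omega⟩
    have hj1 : (j : ℝ) + 3 ≤ √x := by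
      have := Nat.floor_le hs0
      rw [hj] at this
      push_cast at this
      exact this
    have hj2 : √x < (j : ℝ) + 4 := by
      have := Nat.lt_floor_add_one (√x)
      rw [hj] at this
      push_cast at this
      linarith
    have hj0 : (0:ℝ) ≤ j := Nat.cast_nonneg j
    have e1 : X (j + 1) = ((j : ℝ) + 3) ^ 2 := X_succ j
    have e2 : X (j + 1 + 1) = ((j : ℝ) + 4) ^ 2 := by rw [X_succ]; push_cast; ring
    have e3 : X (j + 1 + 1 + 1) = ((j : ℝ) + 5) ^ 2 := by rw [X_succ]; push_cast; ring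
    have e0 : X j = ((j : ℝ) + 2) ^ 2 := rfl
    have hxa : X (j + 1) ≤ x := by rw [e1]; nlinarith
    have hxb : x ≤ X (j + 1 + 1) := by rw [e2]; nlinarith
    have hlow := (hcnt j).2
    have hup := (hcnt (j + 1 + 1)).1
    have hm1 : (NN W (X (j + 1)) : ℝ) ≤ NN W x := by exact_mod_cast NN_mono hW0 hWT hxa
    have hm2 : (NN W x : ℝ) ≤ NN W (X (j + 1 + 1)) := by exact_mod_cast NN_mono hW0 hWT hxb
    have hsp : √x ≤ x ^ p := by
      rw [Real.sqrt_eq_rpow]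
      exact Real.rpow_le_rpow_of_exponent_le hx (by rw [hp]; linarith)
    -- powers
    have hpw1 : X (j + 1) ^ p ≤ x ^ p := Real.rpow_le_rpow (by rw [e1]; positivity) hxa hp0.le
    have hpw2 : X (j + 1 + 1 + 1) ^ p ≤ 8 * x ^ p := by
      have h1 : X (j + 1 + 1 + 1) ≤ 4 * x := by rw [e3]; nlinarith
      calc X (j + 1 + 1 + 1) ^ p ≤ (4 * x) ^ p := Real.rpow_le_rpow (by rw [e3]; positivity) h1 hp0.le
        _ = 4 ^ p * x ^ p := Real.mul_rpow (by norm_num) hx0.le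
        _ ≤ 8 * x ^ p := by
            refine mul_le_mul_of_nonneg_right ?_ (by positivity)
            calc (4:ℝ) ^ p ≤ 4 ^ (3 / 2 : ℝ) := Real.rpow_le_rpow_of_exponent_le (by norm_num) hp2
              _ = 8 := by
                rw [show (4:ℝ) = 2 ^ (2:ℝ) by norm_num, ← Real.rpow_mul (by norm_num)]; norm_num
    have hcx1 : c * x - 6 * c * √x ≤ c * (X j + X (j + 1)) / 2 := by
      have a1 : (√x - 2) ^ 2 ≤ ((j : ℝ) + 2) ^ 2 := pow_le_pow_left₀ (by linarith) (by linarith) 2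
      have a2 : (√x - 1) ^ 2 ≤ ((j : ℝ) + 3) ^ 2 := pow_le_pow_left₀ (by linarith) (by linarith) 2
      have a3 : x - 6 * √x ≤ (X j + X (j + 1)) / 2 := by
        rw [e0, e1]
        have : (√x - 2) ^ 2 + (√x - 1) ^ 2 = 2 * x - 6 * √x + 5 := by
          have : (√x - 2) ^ 2 + (√x - 1) ^ 2 = 2 * √x ^ 2 - 6 * √x + 5 := by ring
          rw [this, hsq]
        linarith
      have a4 := mul_le_mul_of_nonneg_left a3 hc.le
      linarith
    have hcx2 : c * (X (j + 1 + 1) + X (j + 1 + 1 + 1)) / 2 ≤ c * x + 6 * c * √x := by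
      have a1 : ((j : ℝ) + 4) ^ 2 ≤ (√x + 1) ^ 2 := pow_le_pow_left₀ (by linarith) (by linarith) 2
      have a2 : ((j : ℝ) + 5) ^ 2 ≤ (√x + 2) ^ 2 := pow_le_pow_left₀ (by linarith) (by linarith) 2
      have a3 : (X (j + 1 + 1) + X (j + 1 + 1 + 1)) / 2 ≤ x + 6 * √x := by
        rw [e2, e3]
        have : (√x + 1) ^ 2 + (√x + 2) ^ 2 = 2 * x + 6 * √x + 5 := by
          have : (√x + 1) ^ 2 + (√x + 2) ^ 2 = 2 * √x ^ 2 + 6 * √x + 5 := by ring
          rw [this, hsq]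
        linarith
      have a4 := mul_le_mul_of_nonneg_left a3 hc.le
      linarith
    have hc6 : 6 * c * √x ≤ 6 * c * x ^ p := mul_le_mul_of_nonneg_left hsp (by positivity)
    have hA2 := mul_le_mul_of_nonneg_left hpw1 hA
    have hA3 := mul_le_mul_of_nonneg_left hpw2 hA
    have hxp0 : 0 ≤ x ^ p := by positivity
    have hAx : 0 ≤ A * x ^ p := by positivity
    have hr : A1 * x ^ p = 6 * c * x ^ p + 8 * (A * x ^ p) + (NN W 9 + 9 * c) * x ^ p := by rw [hA1]; ring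
    have hr2 : 0 ≤ (NN W 9 + 9 * c) * x ^ p := by positivity
    rw [abs_le, hr]
    constructor
    · linarith
    · linarith

end Pool.Agent.H41.BC
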