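import Pool.Agent.H41.BC.Defs2

/-! # Project BC, second version, stub BC2-R: the recursion (helper56) -/

set_option autoImplicit false

open MeasureTheory Filter Topology Set

namespace Pool.Agent.H41.BC

theorem GG_pos {h T : ℝ → ℝ} (H : Fit h T) (n : ℕ) : 1 ≤ GG h T n := by
  have h0 : T 0 ≤ T n := H.isT.mono.monotoneOn (by simp) (by simp) (Nat.cast_nonneg n)
  have h1 : 0 < T n := by linarith [H.isT.start]
  unfold GG
  rw [Nat.one_le_floor_iff, le_div_iff₀ h1, one_mul]
  have h2 := (H.size (Real.exp (T n)) (Real.exp_le_exp.mpr h0)).1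
  rwa [Real.log_exp] at h2

/-- `rr n = 2 * GG s - (n - s)` for the last special place `s < n` -/
theorem rr_pos {h T : ℝ → ℝ} (H : Fit h T) {n : ℕ} (hn : 0 < rr h T n) :
    ∃ s : ℕ, s < n ∧ rr h T s = 0 ∧ Sp T s ∧ n + rr h T n = s + 2 * GG h T s := by
  induction n with
  | zero =>
    simp only [rr, lt_self_iff_false] at hn
  | succ n ih =>
    rcases Nat.eq_zero_or_pos (rr h T n) with h0 | h0
    · by_cases hS : Sp T n
      · refine ⟨n, Nat.lt_succ_self n, h0, hS, ?_⟩
        have h1 : rr h T (n + 1) = 2 * GG h T n - 1 := by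
          simp only [rr]
          rw [if_neg (by omega), if_pos hS]
        have := GG_pos H n
        omega
      · exfalso
        have h1 : rr h T (n + 1) = 0 := by
          simp only [rr]
          rw [if_neg (by omega), if_neg hS]
        omega
    · obtain ⟨s, hs1, hs2, hs3, hs4⟩ := ih h0
      refine ⟨s, by omega, hs2, hs3, ?_⟩
      have h1 : rr h T (n + 1) = rr h T n - 1 := by
        simp only [rr]
        rw [if_pos h0]
      omega

theorem le_lo {h T : ℝ → ℝ} (n : ℕ) : (n : ℝ) ≤ lo h T n := by
  unfold lo
  split_ifs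
  · have : (0 : ℝ) ≤ rr h T n := Nat.cast_nonneg _
    linarith
  · have : (0 : ℝ) ≤ GG h T n := Nat.cast_nonneg _
    linarith
  · exact le_rfl

theorem lo_lt_hi {h T : ℝ → ℝ} (n : ℕ) : lo h T n < hi h T n ∧ hi h T n ≤ lo h T n + 1 := by
  unfold lo hi
  split_ifs
  · constructor <;> linarith
  · constructor <;> linarith
  · constructor <;> linarith

theorem hi_le_lo {h T : ℝ → ℝ} (H : Fit h T) (n : ℕ) : hi h T n ≤ lo h T (n + 1) := by
  have h5 := le_lo (h := h) (T := T) (n + 1)
  push_cast at h5
  rcases Nat.eq_zero_or_pos (rr h T n) with h0 | h0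
  · by_cases hS : Sp T n
    · have h1 : rr h T (n + 1) = 2 * GG h T n - 1 := by
        simp only [rr]
        rw [if_neg (by omega), if_pos hS]
      have h2 := GG_pos H n
      have h3 : hi h T n = n + GG h T n + 1 / 2 := by
        unfold hi
        rw [if_neg (by omega), if_pos hS]
      have h4 : lo h T (n + 1) = ((n + 1 : ℕ) : ℝ) + rr h T (n + 1) / 2 := by
        unfold lo
        rw [if_pos (by omega)]
      have h6 : (rr h T (n + 1) : ℝ) + 1 = 2 * GG h T n := by
        have : rr h T (n + 1) + 1 = 2 * GG h T n := by omega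
        exact_mod_cast this
      rw [h3, h4]
      push_cast
      linarith
    · have h3 : hi h T n = n + 1 := by
        unfold hi
        rw [if_neg (by omega), if_neg hS]
      rw [h3]
      exact h5
  · have h1 : rr h T (n + 1) = rr h T n - 1 := by
      simp only [rr]
      rw [if_pos h0]
    have h3 : hi h T n = n + rr h T n / 2 + 1 / 2 := by
      unfold hi
      rw [if_pos h0]
    have h6 : (rr h T (n + 1) : ℝ) + 1 = rr h T n := by
      have : rr h T (n + 1) + 1 = rr h T n := by omega
      exact_mod_cast this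
    rcases Nat.eq_zero_or_pos (rr h T (n + 1)) with h7 | h7
    · rw [h3]
      rw [h7] at h6
      push_cast at h6
      linarith
    · have h4 : lo h T (n + 1) = ((n + 1 : ℕ) : ℝ) + rr h T (n + 1) / 2 := by
        unfold lo
        rw [if_pos h7]
      rw [h3, h4]
      push_cast
      linarith

/-- before a special place the cells end at `T n` -/
theorem hi_of_rr_zero {h T : ℝ → ℝ} (H : Fit h T) {n : ℕ} (hn : rr h T (n + 1) = 0) :
    hi h T n = n + 1 := by
  rcases Nat.eq_zero_or_pos (rr h T n) with h0 | h0
  · by_cases hS : Sp T n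
    · exfalso
      have h1 : rr h T (n + 1) = 2 * GG h T n - 1 := by
        simp only [rr]
        rw [if_neg (by omega), if_pos hS]
      have h2 := GG_pos H n
      omega
    · unfold hi
      rw [if_neg (by omega), if_neg hS]
  · have h1 : rr h T (n + 1) = rr h T n - 1 := by
      simp only [rr]
      rw [if_pos h0]
    have h2 : (rr h T n : ℝ) = 1 := by
      have : rr h T n = 1 := by omega
      exact_mod_cast this
    unfold hi
    rw [if_pos h0, h2]
    ring

end Pool.Agent.H41.BC
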