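import Pool.Agent.H41.BC.Defs2

/-! # Project BC, second version, stub BC2-T: the mass coordinate (helper56) -/

set_option autoImplicit false

open MeasureTheory Filter Topology Set

namespace Pool.Agent.H41.BC

theorem f_cont : Continuous f := by
  unfold f
  refine Real.continuous_exp.div (continuous_id.max continuous_const) ?_
  intro v
  exact (lt_of_lt_of_le one_pos (le_max_right v 1)).ne'

theorem f_eq {v : ℝ} (hv : 1 ≤ v) : f v = Real.exp v / v := by
  unfold f
  rw [max_eq_left hv]

theorem one_le_f {v : ℝ} (hv : 1 ≤ v) : 1 ≤ f v := by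
  rw [f_eq hv, le_div_iff₀ (by linarith)]
  linarith [Real.add_one_le_exp v]

theorem f_int (a b : ℝ) : IntervalIntegrable f volume a b := f_cont.intervalIntegrable a b

theorem f_add (a b c : ℝ) : ∫ v in a..c, f v = (∫ v in a..b, f v) + ∫ v in b..c, f v :=
  (intervalIntegral.integral_add_adjacent_intervals (f_int a b) (f_int b c)).symm

theorem len_le_f {a b : ℝ} (ha : 1 ≤ a) (hab : a ≤ b) : b - a ≤ ∫ v in a..b, f v := by
  have h1 : ∫ v in a..b, (1 : ℝ) ≤ ∫ v in a..b, f v :=
    intervalIntegral.integral_mono_on hab (continuous_const.intervalIntegrable a b) (f_int a b)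
      fun v hv => one_le_f (ha.trans hv.1)
  simpa using h1

theorem f_bounds {a b : ℝ} (ha : 1 ≤ a) (hab : a ≤ b) :
    (Real.exp b - Real.exp a) / b ≤ ∫ v in a..b, f v ∧
      ∫ v in a..b, f v ≤ (Real.exp b - Real.exp a) / a := by
  have ha0 : 0 < a := by linarith
  have hb0 : 0 < b := by linarith
  constructor
  · have h1 : ∫ v in a..b, Real.exp v / b ≤ ∫ v in a..b, f v := by
      refine intervalIntegral.integral_mono_on hab
        (Continuous.intervalIntegrable (by fun_prop) _ _) (f_int a b) fun v hv => ?_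
      rw [f_eq (ha.trans hv.1)]
      exact div_le_div_of_nonneg_left (Real.exp_pos v).le (by linarith [hv.1]) hv.2
    rwa [intervalIntegral.integral_div, integral_exp] at h1
  · have h1 : ∫ v in a..b, f v ≤ ∫ v in a..b, Real.exp v / a := by
      refine intervalIntegral.integral_mono_on hab (f_int a b)
        (Continuous.intervalIntegrable (by fun_prop) _ _) fun v hv => ?_
      rw [f_eq (ha.trans hv.1)]
      exact div_le_div_of_nonneg_left (Real.exp_pos v).le ha0 hv.1
    rwa [intervalIntegral.integral_div, integral_exp] at h1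

/-- intermediate value theorem for `v ↦ ∫_a^v f`, `a` large -/
theorem exists_T (a : ℝ) : ∃ T : ℝ → ℝ, IsT T ∧ a ≤ T 0 := by
  obtain ⟨A, hA⟩ : ∃ A, A = max a 4 := ⟨_, rfl⟩
  have hA4 : 4 ≤ A := by rw [hA]; exact le_max_right _ _
  have hAa : a ≤ A := by rw [hA]; exact le_max_left _ _
  have hex : ∀ u : ℝ, ∃ v : ℝ, A ≤ v ∧ (0 ≤ u → ∫ w in A..v, f w = u) := by
    intro u
    rcases lt_or_ge u 0 with hu | hu
    · exact ⟨A, le_rfl, fun h => absurd h (not_le.mpr hu)⟩
    · have hc : ContinuousOn (fun b => ∫ v in A..b, f v) (Icc A (A + u)) :=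
        (intervalIntegral.continuous_primitive (fun x y => f_int x y) A).continuousOn
      have h1 : u ∈ Icc (∫ v in A..A, f v) (∫ v in A..(A + u), f v) := by
        constructor
        · simpa using hu
        · have := len_le_f (a := A) (b := A + u) (by linarith) (by linarith)
          linarith
      obtain ⟨b, hb, hb1⟩ := intermediate_value_Icc (by linarith) hc h1
      exact ⟨b, hb.1, fun _ => hb1⟩
  choose T hT1 hT2 using hex
  have hlt : ∀ b c : ℝ, A ≤ b → b < c → ∫ v in A..b, f v < ∫ v in A..c, f v := by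
    intro b c hb hbc
    have h1 := len_le_f (a := b) (b := c) (by linarith) hbc.le
    have h2 := f_add A b c
    linarith
  have hmono : ∀ b c : ℝ, A ≤ b → b ≤ c → ∫ v in A..b, f v ≤ ∫ v in A..c, f v := by
    intro b c hb hbc
    have h1 := len_le_f (a := b) (b := c) (by linarith) hbc
    have h2 := f_add A b c
    linarith
  have hinj : ∀ b c : ℝ, A ≤ b → A ≤ c → ∫ v in A..b, f v = ∫ v in A..c, f v → b = c := by
    intro b c hb hc he
    rcases lt_trichotomy b c with h | h | h
    · have := hlt b c hb h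
      linarith
    · exact h
    · have := hlt c b hc h
      linarith
  have hT0 : T 0 = A := by
    apply hinj _ _ (hT1 0) le_rfl
    rw [hT2 0 le_rfl]
    simp
  refine ⟨T, ⟨?_, ?_, ?_, ?_⟩, ?_⟩
  · rw [hT0]
    exact hA4
  · intro u hu w hw huw
    rw [mem_Ici] at hu hw
    by_contra hcon
    rw [not_lt] at hcon
    have h1 := hmono _ _ (hT1 w) hcon
    rw [hT2 w hw, hT2 u hu] at h1
    linarith
  · intro u w hu huw
    have h1 := f_add A (T u) (T w)
    rw [hT2 w (hu.trans huw), hT2 u hu] at h1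
    linarith
  · intro v hv
    rw [hT0] at hv
    have h0 : 0 ≤ ∫ w in A..v, f w := by
      have := len_le_f (a := A) (b := v) (by linarith) hv
      linarith
    refine ⟨∫ w in A..v, f w, h0, ?_⟩
    exact hinj _ _ (hT1 _) hv (hT2 _ h0)
  · rw [hT0]
    exact hAa

theorem T_le {T : ℝ → ℝ} (H : IsT T) {u w : ℝ} (hu : 0 ≤ u) (huw : u ≤ w) : T u ≤ T w :=
  H.mono.monotoneOn hu (hu.trans huw : (0 : ℝ) ≤ w) huw

theorem T_four {T : ℝ → ℝ} (H : IsT T) {u : ℝ} (hu : 0 ≤ u) : 4 ≤ T u :=
  H.start.trans (T_le H le_rfl hu)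

/-- `(e^w' - e^w) / w' ≤ ∫_w^w' e^v / v dv ≤ (e^w' - e^w) / w` -/
theorem T_len {T : ℝ → ℝ} (H : IsT T) {u w : ℝ} (hu : 0 ≤ u) (huw : u ≤ w) :
    (w - u) * T u ≤ Real.exp (T w) - Real.exp (T u) ∧ Real.exp (T w) - Real.exp (T u) ≤ (w - u) * T w := by
  have h4 := T_four H hu
  have h4' := T_four H (hu.trans huw)
  have h1 := f_bounds (by linarith : (1 : ℝ) ≤ T u) (T_le H hu huw)
  rw [H.mass u w hu huw, div_le_iff₀ (by linarith), le_div_iff₀ (by linarith)] at h1
  exact ⟨h1.2, h1.1⟩

theorem T_short {T : ℝ → ℝ} (H : IsT T) {u w : ℝ} (hu : 0 ≤ u) (huw : u ≤ w) : T w ≤ T u + (w - u) := by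
  have h1 := len_le_f (by linarith [T_four H hu] : (1 : ℝ) ≤ T u) (T_le H hu huw)
  rw [H.mass u w hu huw] at h1
  linarith

theorem T_tendsto {T : ℝ → ℝ} (H : IsT T) : Tendsto T atTop atTop := by
  rw [tendsto_atTop]
  intro M
  obtain ⟨u, hu, hTu⟩ := H.surj (max M (T 0)) (le_max_right _ _)
  filter_upwards [eventually_ge_atTop u] with w hw
  have := T_le H hu hw
  rw [hTu] at this
  exact (le_max_left _ _).trans this

end Pool.Agent.H41.BC
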