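import Pool.Agent.H41.BC.Sys
import Pool.Agent.H41.BC.Tm
import Pool.Agent.H41.BC.Rec

/-! # Project BC, stub BC2-CELLS (helper84) -/

set_option autoImplicit false

open MeasureTheory Filter Topology Set

namespace Pool.Agent.H41.BC

section
variable {h T : ℝ → ℝ}

lemma cellsA_f_pos (v : ℝ) : 0 < f v := div_pos (Real.exp_pos _) (lt_of_lt_of_le one_pos (le_max_right _ _))

lemma cellsA_f_le (v : ℝ) : f v ≤ Real.exp v :=
  div_le_self (Real.exp_pos _).le (le_max_right _ _)

lemma cellsA_g_le_f {v : ℝ} (hv : 1 ≤ v) : g v ≤ f v := by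
  rw [g_eq (by linarith), f_eq hv]
  exact div_le_div_of_nonneg_right (by linarith) (by linarith)

lemma cellsA_f_sub_g {v : ℝ} (hv : 1 ≤ v) : f v - g v ≤ 1 := by
  rw [g_eq (by linarith), f_eq hv, ← sub_div, div_le_one (by linarith)]
  linarith

lemma cellsA_f_int (a b : ℝ) : IntervalIntegrable f volume a b := f_cont.intervalIntegrable _ _

lemma cellsA_mono (H : IsT T) {u w : ℝ} (hu : 0 ≤ u) (huw : u ≤ w) : T u ≤ T w :=
  H.mono.monotoneOn hu (hu.trans huw) huw

lemma cellsA_four (H : IsT T) {u : ℝ} (hu : 0 ≤ u) : 4 ≤ T u :=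
  H.start.trans (cellsA_mono H le_rfl hu)

lemma cellsA_lo_nonneg (n : ℕ) : 0 ≤ lo h T n := (Nat.cast_nonneg n).trans (le_lo n)

lemma cellsA_hi_nonneg (n : ℕ) : 0 ≤ hi h T n := (cellsA_lo_nonneg n).trans (lo_lt_hi n).1.le

/-- special places -/
def sp (h T : ℝ → ℝ) (n : ℕ) : Prop := rr h T n = 0 ∧ Sp T n

/-- cells of mass one half -/
def half (h T : ℝ → ℝ) (n : ℕ) : Prop := 0 < rr h T n ∨ Sp T n

lemma cellsA_half {n : ℕ} (hn : half h T n) : hi h T n = lo h T n + 1 / 2 := by
  unfold hi lo
  rcases hn with hn | hn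
  · rw [if_pos hn, if_pos hn]
  · by_cases h1 : 0 < rr h T n
    · rw [if_pos h1, if_pos h1]
    · rw [if_neg h1, if_neg h1, if_pos hn, if_pos hn]

lemma cellsA_one {n : ℕ} (hn : ¬ half h T n) : lo h T n = n ∧ hi h T n = n + 1 := by
  unfold half at hn
  push Not at hn
  unfold hi lo
  rw [if_neg (by omega), if_neg hn.2, if_neg (by omega), if_neg hn.2]
  exact ⟨rfl, rfl⟩

lemma cellsA_mass_ge (n : ℕ) : 1 / 2 ≤ hi h T n - lo h T n := by
  by_cases hn : half h T n
  · rw [cellsA_half hn]; linarith
  · rw [(cellsA_one hn).1, (cellsA_one hn).2]; linarith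

open Classical in
lemma cellsA_skip (H : Fit h T) (n : ℕ) : (¬ sp h T (n + 1) ∧ lo h T (n + 1) = hi h T n) ∨
    (sp h T (n + 1) ∧ hi h T n = n + 1 ∧ lo h T (n + 1) = hi h T n + GG h T (n + 1)) := by
  by_cases h1 : 0 < rr h T (n + 1)
  · left
    refine ⟨fun h2 => by rw [h2.1] at h1; exact lt_irrefl _ h1, ?_⟩
    have hG := GG_pos H n
    have h2 : lo h T (n + 1) = (n + 1 : ℕ) + (rr h T (n + 1) : ℝ) / 2 := by
      unfold lo; rw [if_pos h1]
    rw [h2]
    by_cases h3 : 0 < rr h T n
    · have h4 : rr h T (n + 1) = rr h T n - 1 := by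
        rw [rr, if_pos h3]
      have h5 : (rr h T (n + 1) : ℝ) = rr h T n - 1 := by
        rw [h4, Nat.cast_sub h3]; simp
      unfold hi
      rw [if_pos h3, h5]
      push_cast
      ring
    · by_cases h4 : Sp T n
      · have h5 : rr h T (n + 1) = 2 * GG h T n - 1 := by
          rw [rr, if_neg h3, if_pos h4]
        have h6 : (rr h T (n + 1) : ℝ) = 2 * GG h T n - 1 := by
          rw [h5, Nat.cast_sub (by omega)]; push_cast; ring
        unfold hi
        rw [if_neg h3, if_pos h4, h6]
        push_cast
        ring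
      · exfalso
        rw [rr, if_neg h3, if_neg h4] at h1
        exact lt_irrefl _ h1
  · have h2 : rr h T (n + 1) = 0 := by omega
    have h3 := hi_of_rr_zero H h2
    by_cases h4 : Sp T (n + 1)
    · right
      refine ⟨⟨h2, h4⟩, h3, ?_⟩
      rw [h3]
      unfold lo
      rw [if_neg h1, if_pos h4]
      push_cast
      ring
    · left
      refine ⟨fun h5 => h4 h5.2, ?_⟩
      rw [h3]
      unfold lo
      rw [if_neg h1, if_neg h4]
      push_cast
      ring

lemma cellsA_prob (H : Fit h T) (n : ℕ) : ∫ v in al h T n..be h T n, rho h T n v = 1 := by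
  unfold rho al be
  rw [intervalIntegral.integral_const_mul, H.isT.mass _ _ (cellsA_lo_nonneg n) (lo_lt_hi n).1.le]
  exact inv_mul_cancel₀ (by linarith [cellsA_mass_ge (h := h) (T := T) n])

lemma cellsA_int_le {σ a b c : ℝ} (hσ : 0 ≤ σ) (hab : a ≤ b) {F G : ℝ → ℝ} (hF : Continuous F) (hG : Continuous G)
    (hF0 : ∀ v ∈ Icc a b, F v ≤ G v) (hG0 : ∀ v ∈ Icc a b, 0 ≤ G v) (hc : ∫ v in a..b, G v ≤ c) :
    ∫ v in a..b, F v * Real.exp (-(σ * v)) ≤ Real.exp (-(σ * a)) * c := by
  calc ∫ v in a..b, F v * Real.exp (-(σ * v)) ≤ ∫ v in a..b, Real.exp (-(σ * a)) * G v := by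
        refine intervalIntegral.integral_mono_on hab
          (Continuous.intervalIntegrable (by fun_prop) _ _)
          (Continuous.intervalIntegrable (by fun_prop) _ _) fun v hv => ?_
        rw [mul_comm]
        refine (mul_le_mul_of_nonneg_left (hF0 v hv) (Real.exp_pos _).le).trans ?_
        refine mul_le_mul_of_nonneg_right ?_ (hG0 v hv)
        apply Real.exp_le_exp.2
        have : σ * a ≤ σ * v := mul_le_mul_of_nonneg_left hv.1 hσ
        linarith
    _ = Real.exp (-(σ * a)) * ∫ v in a..b, G v := by rw [intervalIntegral.integral_const_mul]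
    _ ≤ _ := mul_le_mul_of_nonneg_left hc (Real.exp_pos _).le

open Classical in
lemma cellsA_sum_half (H : Fit h T) {σ : ℝ} (hσ : 0 < σ) (N : ℕ) :
    (∑ n ∈ Finset.range N, if half h T n then Real.exp (-(σ * T n)) else 0) +
      rr h T N * Real.exp (-(σ * T N)) ≤
    ∑ n ∈ Finset.range N, if sp h T n then 2 * GG h T n * Real.exp (-(σ * T n)) else 0 := by
  induction N with
  | zero => simp [rr]
  | succ N ih =>
    rw [Finset.sum_range_succ, Finset.sum_range_succ]
    have hT : T N ≤ T (N + 1 : ℕ) := cellsA_mono H.isT (Nat.cast_nonneg N) (by push_cast; linarith)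
    have hE : Real.exp (-(σ * T (N + 1 : ℕ))) ≤ Real.exp (-(σ * T N)) :=
      Real.exp_le_exp.2 (by nlinarith)
    have hG := GG_pos H N
    have hG' : (1 : ℝ) ≤ GG h T N := by exact_mod_cast hG
    by_cases h3 : 0 < rr h T N
    · have h4 : (rr h T (N + 1) : ℝ) = rr h T N - 1 := by
        rw [rr, if_pos h3, Nat.cast_sub h3]; simp
      have h5 : half h T N := Or.inl h3
      have h6 : ¬ sp h T N := fun h7 => by rw [h7.1] at h3; exact lt_irrefl _ h3
      have h7 : (1 : ℝ) ≤ rr h T N := by exact_mod_cast h3
      rw [if_pos h5, if_neg h6, h4]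
      nlinarith [mul_le_mul_of_nonneg_left hE (show (0 : ℝ) ≤ rr h T N - 1 by linarith)]
    · have h0 : rr h T N = 0 := by omega
      rw [h0] at ih
      simp only [Nat.cast_zero, zero_mul, add_zero] at ih
      by_cases h4 : Sp T N
      · have h5 : (rr h T (N + 1) : ℝ) = 2 * GG h T N - 1 := by
          rw [rr, if_neg h3, if_pos h4, Nat.cast_sub (by omega)]; push_cast; ring
        rw [if_pos (show half h T N from Or.inr h4), if_pos (show sp h T N from ⟨h0, h4⟩), h5]
        nlinarith [mul_le_mul_of_nonneg_left hE (show (0 : ℝ) ≤ 2 * GG h T N - 1 by linarith)]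
      · have h5 : rr h T (N + 1) = 0 := by rw [rr, if_neg h3, if_neg h4]
        rw [if_neg (show ¬ half h T N from fun h6 => by rcases h6 with h6 | h6; exact h3 h6; exact h4 h6),
          if_neg (show ¬ sp h T N from fun h6 => h4 h6.2), h5]
        simpa using ih

lemma cellsA_GG_le (H : Fit h T) (n : ℕ) : (GG h T n : ℝ) ≤ Real.exp (T n / 2) := by
  have h4 : 4 ≤ T n := cellsA_four H.isT (Nat.cast_nonneg n)
  have h1 := H.size (Real.exp (T n)) (Real.exp_le_exp.2 (cellsA_mono H.isT le_rfl (Nat.cast_nonneg n)))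
  rw [Real.log_exp] at h1
  have h2 : 0 ≤ h (Real.exp (T n)) / T n := div_nonneg (by linarith [h1.1]) (by linarith)
  calc (GG h T n : ℝ) ≤ h (Real.exp (T n)) / T n := Nat.floor_le h2
    _ ≤ h (Real.exp (T n)) := div_le_self (by linarith [h1.1]) (by linarith)
    _ ≤ √(Real.exp (T n)) := h1.2
    _ = Real.exp (T n / 2) := by rw [Real.exp_half]

open Classical in
lemma cellsA_sp_summable (H : Fit h T) {σ : ℝ} (hσ : 1 / 2 < σ) :
    Summable fun n => if sp h T n then 2 * (GG h T n : ℝ) * Real.exp (-(σ * T n)) else 0 := by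
  set c : ℝ := σ - 1 / 2 with hc
  have hc0 : 0 < c := by rw [hc]; linarith
  have hFs := summable_exp_sqrt hc0
  set F : ℕ → ℝ := fun n => 2 * (GG h T n : ℝ) * Real.exp (-(σ * T n)) with hF
  let S : Set ℕ := {n | sp h T n}
  have hS : ∀ n : S, ∃ j : ℕ, T (n : ℕ) < √(j : ℝ) ∧ √(j : ℝ) ≤ T ((n : ℕ) + 1) := fun n => n.2.2
  choose J hJ1 hJ2 using hS
  have hlt : ∀ a b : S, (a : ℕ) < b → J a ≠ J b := by
    intro a b hab he
    have h1 := hJ2 a
    have h2 := hJ1 b
    rw [he] at h1
    have h3 : T ((a : ℕ) + 1) ≤ T (b : ℕ) :=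
      cellsA_mono H.isT (by positivity) (by exact_mod_cast hab)
    linarith
  have hJinj : Function.Injective J := by
    intro a b hab
    by_contra hne
    have hne' : (a : ℕ) ≠ b := fun h => hne (Subtype.ext h)
    rcases lt_or_gt_of_ne hne' with hl | hl
    · exact hlt a b hl hab
    · exact hlt b a hl hab.symm
  have hsub : Summable fun n : S => F n := by
    refine Summable.of_nonneg_of_le (fun n => by positivity) (fun n => ?_)
      ((hFs.comp_injective hJinj).mul_left 2)
    have h1 := cellsA_GG_le H n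
    have h2 : T ((n : ℕ) + 1) ≤ T (n : ℕ) + 1 := by
      have := T_short H.isT (u := (n : ℕ)) (w := (n : ℕ) + 1) (by positivity) (by linarith)
      linarith
    calc F n = 2 * ((GG h T n : ℝ) * Real.exp (-(σ * T (n : ℕ)))) := by rw [hF]; ring
      _ ≤ 2 * (Real.exp (T (n : ℕ) / 2) * Real.exp (-(σ * T (n : ℕ)))) := by gcongr
      _ = 2 * Real.exp (-c * T (n : ℕ)) := by
          rw [← Real.exp_add]
          congr 2
          rw [hc]; ring
      _ ≤ 2 * Real.exp (-c * (√(J n : ℝ) - 1)) := by
          gcongr 2 * Real.exp ?_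
          have := hJ2 n
          nlinarith
  have hind : Summable (S.indicator F) := summable_subtype_iff_indicator.1 hsub
  refine hind.congr fun n => ?_
  by_cases hn : sp h T n
  · rw [indicator_of_mem (show n ∈ S from hn), if_pos hn]
  · rw [indicator_of_notMem (show n ∉ S from hn), if_neg hn]

lemma cellsA_exp_summable (H : Fit h T) {σ : ℝ} (hσ : 0 < σ) :
    Summable fun n : ℕ => ∫ v in T n..T (n + 1), Real.exp (-(σ * v)) := by
  have hmono : ∀ n : ℕ, T n ≤ T (n + 1) := fun n =>
    cellsA_mono H.isT (Nat.cast_nonneg n) (by linarith)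
  refine summable_of_sum_range_le (c := 1 / σ) (fun n => ?_) (fun N => ?_)
  · exact intervalIntegral.integral_nonneg (hmono n) fun v _ => (Real.exp_pos _).le
  · have h1 : ∑ n ∈ Finset.range N, ∫ v in T n..T (n + 1), Real.exp (-(σ * v)) =
        ∫ v in T (0 : ℕ)..T N, Real.exp (-(σ * v)) := by
      have := intervalIntegral.sum_integral_adjacent_intervals (a := fun n : ℕ => T n) (n := N)
        (f := fun v => Real.exp (-(σ * v))) (μ := volume)
        (fun k _ => Continuous.intervalIntegrable (by fun_prop) _ _)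
      simpa using this
    rw [h1]
    have h2 : ∫ v in T (0 : ℕ)..T N, Real.exp (-(σ * v)) =
        (Real.exp (-(σ * T (0 : ℕ))) - Real.exp (-(σ * T N))) / σ := by
      have h3 : ∀ v ∈ uIcc (T (0 : ℕ)) (T N),
          HasDerivAt (fun v => -(Real.exp (-(σ * v)) / σ)) (Real.exp (-(σ * v))) v := by
        intro v _
        have h4 : HasDerivAt (fun v : ℝ => -(σ * v)) (-(σ * 1)) v := ((hasDerivAt_id' v).const_mul σ).neg
        have h5 := (h4.exp.div_const σ).neg
        refine h5.congr_deriv ?_
        field_simp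
      rw [intervalIntegral.integral_eq_sub_of_hasDerivAt h3
        (Continuous.intervalIntegrable (by fun_prop) _ _)]
      field_simp
      ring
    rw [h2]
    refine div_le_div_of_nonneg_right ?_ hσ.le
    have h3 : Real.exp (-(σ * T (0 : ℕ))) ≤ 1 := by
      rw [Real.exp_le_one_iff]
      have := cellsA_four H.isT (u := ((0 : ℕ) : ℝ)) (by simp)
      nlinarith
    linarith [Real.exp_pos (-(σ * T N))]

end

/-- **BC2-CELLS** -/
theorem cells2 {h T : ℝ → ℝ} (H : Fit h T) : Cells (al h T) (be h T) (rho h T) := by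
  classical
  have hI := H.isT
  have hlt : ∀ n, al h T n < be h T n := fun n =>
    hI.mono (cellsA_lo_nonneg n) (cellsA_hi_nonneg n) (lo_lt_hi n).1
  have hle : ∀ n, be h T n ≤ al h T (n + 1) := fun n =>
    cellsA_mono hI (cellsA_hi_nonneg n) (hi_le_lo H n)
  have h4 : ∀ n, 4 ≤ al h T n := fun n => cellsA_four hI (cellsA_lo_nonneg n)
  have hrc : ∀ n, Continuous (rho h T n) := fun n => continuous_const.mul f_cont
  have hinv : ∀ n, 0 ≤ (hi h T n - lo h T n)⁻¹ ∧ (hi h T n - lo h T n)⁻¹ ≤ 2 := by
    intro n
    have h1 := cellsA_mass_ge (h := h) (T := T) n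
    refine ⟨inv_nonneg.2 (by linarith), ?_⟩
    rw [inv_le_comm₀ (by linarith) (by norm_num)]
    linarith
  have hr0 : ∀ n v, 0 ≤ rho h T n v := fun n v => mul_nonneg (hinv n).1 (cellsA_f_pos v).le
  refine ⟨h4 0, hlt, fun n => ?_, hle, hrc, fun n v _ => hr0 n v, fun n v _ => ?_, cellsA_prob H,
    fun σ hσ => ?_⟩
  · have h1 := T_short hI (cellsA_lo_nonneg (h := h) (T := T) n) (lo_lt_hi n).1.le
    have h2 := (lo_lt_hi (h := h) (T := T) n).2
    unfold al be
    linarith
  · exact mul_le_mul (hinv n).2 (cellsA_f_le v) (cellsA_f_pos v).le (by norm_num)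
  · have hσ0 : 0 < σ := by linarith
    have hS := cellsA_sp_summable H hσ
    have hB : Summable fun n : ℕ => if half h T n then Real.exp (-(σ * T n)) else 0 := by
      refine summable_of_sum_range_le (c := ∑' n, if sp h T n then 2 * (GG h T n : ℝ) * Real.exp (-(σ * T n)) else 0)
        (fun n => ?_) (fun N => ?_)
      · split_ifs
        · exact (Real.exp_pos _).le
        · exact le_rfl
      · have h1 := cellsA_sum_half H hσ0 N
        have h2 : 0 ≤ (rr h T N : ℝ) * Real.exp (-(σ * T N)) := by positivity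
        have h3 := hS.sum_le_tsum (Finset.range N) (fun n _ => by split_ifs <;> positivity)
        linarith
    have hD := (summable_nat_add_iff 1).2 hS
    have hA := cellsA_exp_summable H hσ0
    refine Summable.of_nonneg_of_le (fun n => ?_) (fun n => ?_) ((hA.add hB).add hD)
    · refine add_nonneg (intervalIntegral.integral_nonneg (hlt n).le fun v _ => ?_)
        (intervalIntegral.integral_nonneg (hle n) fun v hv => ?_)
      · exact mul_nonneg (abs_nonneg _) (Real.exp_pos _).le
      · refine mul_nonneg ?_ (Real.exp_pos _).le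
        linarith [one_le_g (v := v) (by linarith [hv.1, h4 n, hlt n])]
    · refine add_le_add ?_ ?_
      · -- the cell
        by_cases hn : half h T n
        · rw [if_pos hn]
          have h1 : ∫ v in al h T n..be h T n, |g v - rho h T n v| * Real.exp (-(σ * v)) ≤
              Real.exp (-(σ * al h T n)) * 1 := by
            refine cellsA_int_le hσ0.le (hlt n).le ((g_cont.sub (hrc n)).abs) (hrc n)
              (fun v hv => ?_) (fun v _ => hr0 n v) (cellsA_prob H n).le
            have hv1 : 1 ≤ v := by linarith [hv.1, h4 n]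
            have h2 := cellsA_g_le_f hv1
            have h3 : rho h T n v = 2 * f v := by
              unfold rho
              rw [cellsA_half hn]
              ring
            have h5 := one_le_g (v := v) (by linarith)
            rw [h3, abs_le]
            constructor <;> linarith [cellsA_f_pos v]
          have h2 : Real.exp (-(σ * al h T n)) ≤ Real.exp (-(σ * T n)) := by
            apply Real.exp_le_exp.2
            have : T n ≤ al h T n := cellsA_mono hI (Nat.cast_nonneg n) (le_lo n)
            nlinarith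
          have h3 : 0 ≤ ∫ v in T n..T (n + 1), Real.exp (-(σ * v)) :=
            intervalIntegral.integral_nonneg (cellsA_mono hI (Nat.cast_nonneg n) (by linarith))
              fun v _ => (Real.exp_pos _).le
          linarith
        · rw [if_neg hn, add_zero]
          obtain ⟨h1, h2⟩ := cellsA_one hn
          have ha : al h T n = T n := by unfold al; rw [h1]
          have hb : be h T n = T (n + 1) := by unfold be; rw [h2]
          rw [ha, hb]
          have h3 : T n ≤ T (n + 1) := cellsA_mono hI (Nat.cast_nonneg n) (by linarith)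
          refine intervalIntegral.integral_mono_on h3
            (Continuous.intervalIntegrable
              ((g_cont.sub (hrc n)).abs.mul (by fun_prop)) _ _)
            (Continuous.intervalIntegrable (by fun_prop) _ _) fun v hv => ?_
          have hv1 : 1 ≤ v := by linarith [hv.1, cellsA_four hI (Nat.cast_nonneg n)]
          have h5 : rho h T n v = f v := by
            unfold rho
            rw [h1, h2]
            ring
          rw [h5]
          have h6 := cellsA_g_le_f hv1
          have h7 := cellsA_f_sub_g hv1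
          have h8 : |g v - f v| ≤ 1 := by
            rw [abs_le]; constructor <;> linarith
          calc |g v - f v| * Real.exp (-(σ * v)) ≤ 1 * Real.exp (-(σ * v)) :=
                mul_le_mul_of_nonneg_right h8 (Real.exp_pos _).le
            _ = _ := one_mul _
      · -- the interval that is skipped
        rcases cellsA_skip H n with ⟨h1, h2⟩ | ⟨h1, h2, h3⟩
        · rw [if_neg h1]
          unfold al be
          rw [h2, intervalIntegral.integral_same]
        · rw [if_pos h1]
          have h5 : ∫ v in be h T n..al h T (n + 1), g v * Real.exp (-(σ * v)) ≤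
              Real.exp (-(σ * be h T n)) * GG h T (n + 1) := by
            refine cellsA_int_le hσ0.le (hle n) g_cont f_cont (fun v hv => ?_)
              (fun v _ => (cellsA_f_pos v).le) ?_
            · exact cellsA_g_le_f (by linarith [hv.1, h4 n, hlt n])
            · unfold be al
              rw [hI.mass _ _ (cellsA_hi_nonneg n) (hi_le_lo H n), h3]
              linarith
          have h6 : be h T n = T ((n + 1 : ℕ) : ℝ) := by
            unfold be
            rw [h2]
            push_cast
            rfl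
          refine h5.trans ?_
          rw [h6]
          have h7 : 0 ≤ Real.exp (-(σ * T ((n + 1 : ℕ) : ℝ))) * GG h T (n + 1) := by positivity
          nlinarith

end Pool.Agent.H41.BC
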