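import Pool.Agent.H41.BC.Defs

/-! # Project BC, stub CNT: the counting function of the generalised integers and Riesz sums -/

set_option autoImplicit false

open MeasureTheory Filter Topology Set

namespace Pool.Agent.H41.BC

lemma lg_eq {W : ℕ → ℝ} {K : ℕ} {a : ℕ →₀ ℕ} (h : a.support ⊆ Finset.range K) :
    lg W a = ∑ k ∈ Finset.range K, (a k : ℝ) * W k :=
  Finsupp.sum_of_support_subset a h (fun k e => (e : ℝ) * W k) (fun k _ => by simp)

lemma lg_ge {W : ℕ → ℝ} (hW : ∀ k, 0 < W k) (a : ℕ →₀ ℕ) (k : ℕ) : (a k : ℝ) * W k ≤ lg W a := by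
  by_cases hk : k ∈ a.support
  · unfold lg Finsupp.sum
    exact Finset.single_le_sum (f := fun k => ((a k : ℕ) : ℝ) * W k)
      (fun i _ => mul_nonneg (Nat.cast_nonneg _) (hW i).le) hk
  · rw [Finsupp.notMem_support_iff.1 hk]
    simp only [Nat.cast_zero, zero_mul]
    exact Finset.sum_nonneg (fun i _ => mul_nonneg (Nat.cast_nonneg _) (hW i).le)

lemma supp_sub {W : ℕ → ℝ} {K : ℕ} {y : ℝ} (hW : ∀ k, 0 < W k)
    (hK : ∀ k, K ≤ k → y < Real.exp (W k)) {a : ℕ →₀ ℕ} (ha : Real.exp (lg W a) ≤ y) :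
    a.support ⊆ Finset.range K := by
  intro k hk
  rw [Finset.mem_range]
  by_contra hKk
  have h1 := hK k (not_lt.1 hKk)
  have h2 := lg_ge hW a k
  have h3 : (1 : ℝ) ≤ a k := by
    have : 1 ≤ a k := Nat.one_le_iff_ne_zero.2 (Finsupp.mem_support_iff.1 hk)
    exact_mod_cast this
  have h4 : W k ≤ lg W a := by nlinarith [hW k]
  have h5 := Real.exp_le_exp.2 h4
  linarith

lemma fin_set {W : ℕ → ℝ} {K : ℕ} {y : ℝ} (hW : ∀ k, 0 < W k)
    (hK : ∀ k, K ≤ k → y < Real.exp (W k)) : {a : ℕ →₀ ℕ | Real.exp (lg W a) ≤ y}.Finite := by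
  classical
  apply Set.Finite.subset
    (((Finset.range K).finsupp (fun k => Finset.range (⌊Real.log y / W k⌋₊ + 1))).finite_toSet)
  intro a ha
  have hs := supp_sub hW hK ha
  rw [Finset.mem_coe, Finset.mem_finsupp_iff]
  refine ⟨hs, ?_⟩
  intro k _
  rw [Finset.mem_range, Nat.lt_add_one_iff]
  apply Nat.le_floor
  rw [le_div_iff₀ (hW k)]
  have h1 := lg_ge hW a k
  have h2 : lg W a ≤ Real.log y := by
    rw [Real.le_log_iff_exp_le]
    · exact ha
    · exact lt_of_lt_of_le (Real.exp_pos _) ha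
  linarith

lemma exists_K {W : ℕ → ℝ} (hT : Tendsto W atTop atTop) (y : ℝ) :
    ∃ K, ∀ k, K ≤ k → y < Real.exp (W k) :=
  eventually_atTop.1 ((Real.tendsto_exp_atTop.comp hT).eventually_gt_atTop y)

theorem NN_mono {W : ℕ → ℝ} (hW : ∀ k, 0 < W k) (hT : Tendsto W atTop atTop) {x y : ℝ} (hxy : x ≤ y) :
    NN W x ≤ NN W y := by
  obtain ⟨K, hK⟩ := exists_K hT y
  unfold NN
  apply Set.ncard_le_ncard _ (fin_set hW hK)
  intro a ha
  exact le_trans ha hxy

/-- extension by zero -/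
noncomputable def ez (K : ℕ) (a : Fin K → ℕ) : ℕ →₀ ℕ :=
  Finsupp.onFinset (Finset.range K) (fun n => if h : n < K then a ⟨n, h⟩ else 0) (by
    intro n hn
    rw [Finset.mem_range]
    by_contra h
    exact hn (dif_neg h))

lemma ez_apply {K : ℕ} (a : Fin K → ℕ) (n : ℕ) : ez K a n = if h : n < K then a ⟨n, h⟩ else 0 := rfl

lemma ez_inj (K : ℕ) : Function.Injective (ez K) := by
  intro a b h
  funext i
  have h1 := DFunLike.congr_fun h i.1
  rw [ez_apply, ez_apply, dif_pos i.2, dif_pos i.2] at h1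
  exact h1

lemma ez_supp {K : ℕ} (a : Fin K → ℕ) : (ez K a).support ⊆ Finset.range K :=
  Finsupp.support_onFinset_subset

lemma lg_ez (W : ℕ → ℝ) {K : ℕ} (a : Fin K → ℕ) : lg W (ez K a) = ∑ k, (a k : ℝ) * W k := by
  rw [lg_eq (ez_supp a), Finset.sum_range]
  apply Finset.sum_congr rfl
  intro i _
  rw [ez_apply, dif_pos i.2]

lemma image_ez {W : ℕ → ℝ} {K : ℕ} {x y : ℝ} (hW : ∀ k, 0 < W k)
    (hK : ∀ k, K ≤ k → y < Real.exp (W k)) (hxy : x ≤ y) :
    {a : ℕ →₀ ℕ | Real.exp (lg W a) ≤ x} =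
      ez K '' {a : Fin K → ℕ | Real.exp (∑ k, (a k : ℝ) * W k) ≤ x} := by
  ext b
  simp only [Set.mem_image, Set.mem_ofPred_eq]
  constructor
  · intro hb
    have hs := supp_sub hW hK (hb.trans hxy)
    have he : ez K (fun i => b i.1) = b := by
      ext n
      rw [ez_apply]
      split_ifs with h
      · rfl
      · by_contra hne
        exact h (Finset.mem_range.1 (hs (Finsupp.mem_support_iff.2 (fun h0 => hne h0.symm))))
    refine ⟨fun i => b i.1, ?_, he⟩
    rw [← lg_ez, he]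
    exact hb
  · rintro ⟨a, ha, rfl⟩
    rw [lg_ez]
    exact ha

theorem cnt {W : ℕ → ℝ} {K : ℕ} {x y : ℝ} (hW : ∀ k, 0 < W k) (hT : Tendsto W atTop atTop)
    (hK : ∀ k, K ≤ k → y < Real.exp (W k)) (hx : 0 < x) (hxy : x < y) :
    (y - x) * NN W x ≤ Rz K W y - Rz K W x ∧ Rz K W y - Rz K W x ≤ (y - x) * NN W y := by
  classical
  have hfy : {a : Fin K → ℕ | Real.exp (∑ k, (a k : ℝ) * W k) ≤ y}.Finite := by
    have h1 := fin_set hW hK
    rw [image_ez hW hK le_rfl] at h1
    exact h1.of_finite_image (ez_inj K).injOn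
  obtain ⟨F, hF⟩ : ∃ F : Finset (Fin K → ℕ), F = hfy.toFinset := ⟨_, rfl⟩
  have hmF : ∀ a, a ∈ F ↔ Real.exp (∑ k, (a k : ℝ) * W k) ≤ y := by
    intro a
    rw [hF, Set.Finite.mem_toFinset]
    rfl
  have hNy : NN W y = F.card := by
    unfold NN
    rw [image_ez hW hK le_rfl, Set.ncard_image_of_injective _ (ez_inj K), hF,
      Set.ncard_eq_toFinset_card _ hfy]
  have hNx : NN W x = (F.filter (fun a : Fin K → ℕ => Real.exp (∑ k, (a k : ℝ) * W k) ≤ x)).card := by
    unfold NN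
    rw [image_ez hW hK hxy.le, Set.ncard_image_of_injective _ (ez_inj K), ← Set.ncard_coe_finset]
    congr 1
    ext a
    simp only [Set.mem_ofPred_eq, Finset.coe_filter, hmF]
    constructor
    · intro h
      exact ⟨h.trans hxy.le, h⟩
    · exact fun h => h.2
  have hRz : ∀ z : ℝ, z ≤ y → Rz K W z = ∑ a ∈ F, max (z - Real.exp (∑ k, (a k : ℝ) * W k)) 0 := by
    intro z hz
    unfold Rz
    apply tsum_eq_sum
    intro a ha
    rw [hmF, not_le] at ha
    exact max_eq_right (by linarith)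
  rw [hRz y le_rfl, hRz x hxy.le, ← Finset.sum_sub_distrib, hNy, hNx]
  constructor
  · calc (y - x) * ((F.filter (fun a : Fin K → ℕ => Real.exp (∑ k, (a k : ℝ) * W k) ≤ x)).card : ℝ)
        = ∑ _a ∈ F.filter (fun a : Fin K → ℕ => Real.exp (∑ k, (a k : ℝ) * W k) ≤ x), (y - x) := by
          rw [Finset.sum_const, nsmul_eq_mul, mul_comm]
      _ ≤ ∑ a ∈ F.filter (fun a : Fin K → ℕ => Real.exp (∑ k, (a k : ℝ) * W k) ≤ x),
          (max (y - Real.exp (∑ k, (a k : ℝ) * W k)) 0 - max (x - Real.exp (∑ k, (a k : ℝ) * W k)) 0) := by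
          apply Finset.sum_le_sum
          intro a ha
          have h1 := (Finset.mem_filter.1 ha).2
          rw [max_eq_left (by linarith), max_eq_left (by linarith)]
          linarith
      _ ≤ _ := by
          apply Finset.sum_le_sum_of_subset_of_nonneg (Finset.filter_subset _ _)
          intro a _ _
          have : max (x - Real.exp (∑ k, (a k : ℝ) * W k)) 0 ≤
              max (y - Real.exp (∑ k, (a k : ℝ) * W k)) 0 := max_le_max (by linarith) le_rfl
          linarith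
  · calc ∑ a ∈ F, (max (y - Real.exp (∑ k, (a k : ℝ) * W k)) 0 -
          max (x - Real.exp (∑ k, (a k : ℝ) * W k)) 0) ≤ ∑ _a ∈ F, (y - x) := by
          apply Finset.sum_le_sum
          intro a _
          rcases le_total (Real.exp (∑ k, (a k : ℝ) * W k)) x with h | h
          · rw [max_eq_left (by linarith), max_eq_left (by linarith)]
            linarith
          · rw [max_eq_right (by linarith : x - Real.exp (∑ k, (a k : ℝ) * W k) ≤ 0), sub_zero]
            exact max_le (by linarith) (by linarith)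
      _ = (y - x) * (F.card : ℝ) := by rw [Finset.sum_const, nsmul_eq_mul, mul_comm]

end Pool.Agent.H41.BC
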