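import Pool.Agent.H41.BC.Line

/-! # Project BC: generalised primes with one random member in every cell of mass one

Definitions. The template is the measure with density `g v = ∫_0^1 e^(θ v) dθ = (e^v - 1) / v` on the logarithmic scale
(`u = e^v`: density `(1 - 1/u) / log u`), for which `exp (∫_0^∞ g v e^(-s v) dv) = s / (s - 1)`. -/

set_option autoImplicit false

open MeasureTheory Filter Topology Set

namespace Pool.Agent.H41.BC

/-- the density of the template on the logarithmic scale, `(e^v - 1) / v` -/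
noncomputable def g (v : ℝ) : ℝ := ∫ θ in (0 : ℝ)..1, Real.exp (θ * v)

/-- the transform of the template on `[a, b]` -/
noncomputable def tr (a b : ℝ) (s : ℂ) : ℂ := ∫ v in a..b, (g v : ℂ) * Complex.exp (-(s * v))

/-- the zeta function of finitely many generalised primes `exp (V k)`, `k < K` -/
noncomputable def Z (K : ℕ) (V : ℕ → ℝ) (s : ℂ) : ℂ :=
  ∏ k ∈ Finset.range K, (1 - Complex.exp (-(s * V k)))⁻¹

/-- divided by the zeta function of the template on `[0, Λ]` -/
noncomputable def Q (K : ℕ) (V : ℕ → ℝ) (Λ : ℝ) (s : ℂ) : ℂ := Z K V s * Complex.exp (-tr 0 Λ s)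

/-- the logarithm of the generalised integer with exponents `a` -/
noncomputable def lg (V : ℕ → ℝ) (a : ℕ →₀ ℕ) : ℝ := a.sum fun k e => e * V k

/-- the number of generalised integers `≤ x` -/
noncomputable def NN (V : ℕ → ℝ) (x : ℝ) : ℕ := {a : ℕ →₀ ℕ | Real.exp (lg V a) ≤ x}.ncard

/-- the Riesz sum `∑ (x - n)_+` over the generalised integers with prime factors `exp (V k)`, `k < K` -/
noncomputable def Rz (K : ℕ) (V : ℕ → ℝ) (x : ℝ) : ℝ :=
  ∑' a : Fin K → ℕ, max (x - Real.exp (∑ k, (a k : ℝ) * V k)) 0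

/-- cells of mass one, on the logarithmic scale -/
structure IsCells (α β : ℕ → ℝ) : Prop where
  start : 4 ≤ α 0
  lt : ∀ n, α n < β n
  le : ∀ n, β n ≤ α (n + 1)
  mass : ∀ n, ∫ v in α n..β n, g v = 1
  skip : ∀ σ : ℝ, 1 / 2 < σ → Summable fun n => ∫ v in β n..α (n + 1), g v * Real.exp (-(σ * v))

/-- a number `√j` (that is, `e^√j` on the multiplicative scale) lies in the cell of mass one which begins at `b` -/
def Cross (b : ℝ) : Prop := ∃ j : ℕ, b < √(j : ℝ) ∧ ∫ v in b..√(j : ℝ), g v ≤ 1

/-- cells of mass one; after the cell which ends at `e^b` an interval of length `h (e^b)` is skipped if `Cross b` -/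
structure Sys (h : ℝ → ℝ) (α β : ℕ → ℝ) : Prop where
  start : 4 ≤ α 0
  lt : ∀ n, α n < β n
  mass : ∀ n, ∫ v in α n..β n, g v = 1
  size : ∀ n, β n ≤ h (Real.exp (β n)) ∧ h (Real.exp (β n)) ≤ √(Real.exp (β n))
  next : ∀ n, (α (n + 1) = β n ∧ ¬ Cross (β n)) ∨
    (Real.exp (α (n + 1)) = Real.exp (β n) + h (Real.exp (β n)) ∧ Cross (β n))

/-- the law of the member of the `n`-th cell -/
noncomputable def law (α β : ℕ → ℝ) (n : ℕ) : Measure ℝ :=
  (volume.restrict (Ioc (α n) (β n))).withDensity fun v => ENNReal.ofReal (g v)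

/-- the law of the random system -/
noncomputable def PP (α β : ℕ → ℝ) : Measure (ℕ → ℝ) := Measure.infinitePi (law α β)

end Pool.Agent.H41.BC
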