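import Pool.Agent.H41.BC.Defs

/-! # Project BC, second version: error term `h(x) / log x` in the prime number theorem

The template is now the logarithmic integral, density `f v = e^v / v` on the logarithmic scale. `T u` is the point at which
the mass (counted from `T 0`) is `u`. Cell `n` is `(T (lo n), T (hi n)]`, of mass one or one half, with one member. At a
special place `n` (`rr n = 0` and `Sp T n`) an interval of mass `GG n` is skipped; then `2 * GG n` cells of mass one half
follow; `rr n` is the number of these which are still to come. -/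

set_option autoImplicit false

open MeasureTheory Filter Topology Set

namespace Pool.Agent.H41.BC

/-- the density of the logarithmic integral on the logarithmic scale (`max` only for continuity) -/
noncomputable def f (v : ℝ) : ℝ := Real.exp v / max v 1

/-- cells with probability densities -/
structure Cells (α β : ℕ → ℝ) (ρ : ℕ → ℝ → ℝ) : Prop where
  start : 4 ≤ α 0
  lt : ∀ n, α n < β n
  short : ∀ n, β n ≤ α n + 1
  le : ∀ n, β n ≤ α (n + 1)
  cont : ∀ n, Continuous (ρ n)
  nonneg : ∀ n, ∀ v ∈ Icc (α n) (β n), 0 ≤ ρ n v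
  upper : ∀ n, ∀ v ∈ Icc (α n) (β n), ρ n v ≤ 2 * Real.exp v
  prob : ∀ n, ∫ v in α n..β n, ρ n v = 1
  dev : ∀ σ : ℝ, 1 / 2 < σ → Summable fun n => (∫ v in α n..β n, |g v - ρ n v| * Real.exp (-(σ * v))) +
    ∫ v in β n..α (n + 1), g v * Real.exp (-(σ * v))

/-- `T u` is the point at which the mass is `u` -/
structure IsT (T : ℝ → ℝ) : Prop where
  start : 4 ≤ T 0
  mono : StrictMonoOn T (Ici 0)
  mass : ∀ u w : ℝ, 0 ≤ u → u ≤ w → ∫ v in T u..T w, f v = w - u
  surj : ∀ v : ℝ, T 0 ≤ v → ∃ u : ℝ, 0 ≤ u ∧ T u = v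

/-- a number `√j` lies between `T n` and `T (n + 1)` -/
def Sp (T : ℝ → ℝ) (n : ℕ) : Prop := ∃ j : ℕ, T n < √(j : ℝ) ∧ √(j : ℝ) ≤ T (n + 1)

/-- the mass which is skipped -/
noncomputable def GG (h T : ℝ → ℝ) (n : ℕ) : ℕ := ⌊h (Real.exp (T n)) / T n⌋₊

open Classical in
/-- the number of cells of mass one half which are still to come -/
noncomputable def rr (h T : ℝ → ℝ) : ℕ → ℕ
  | 0 => 0
  | n + 1 => if 0 < rr h T n then rr h T n - 1 else if Sp T n then 2 * GG h T n - 1 else 0

open Classical in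
/-- the cell `n` begins at `T (lo n)` -/
noncomputable def lo (h T : ℝ → ℝ) (n : ℕ) : ℝ :=
  if 0 < rr h T n then n + rr h T n / 2 else if Sp T n then n + GG h T n else n

open Classical in
/-- the cell `n` ends at `T (hi n)` -/
noncomputable def hi (h T : ℝ → ℝ) (n : ℕ) : ℝ :=
  if 0 < rr h T n then n + rr h T n / 2 + 1 / 2 else if Sp T n then n + GG h T n + 1 / 2 else n + 1

/-- the beginning of the cell `n` -/
noncomputable def al (h T : ℝ → ℝ) (n : ℕ) : ℝ := T (lo h T n)

/-- the end of the cell `n` -/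
noncomputable def be (h T : ℝ → ℝ) (n : ℕ) : ℝ := T (hi h T n)

/-- the density of the member of the cell `n` -/
noncomputable def rho (h T : ℝ → ℝ) (n : ℕ) (v : ℝ) : ℝ := (hi h T n - lo h T n)⁻¹ * f v

/-- `log x ≤ h x ≤ √x` from `exp (T 0)` on -/
structure Fit (h T : ℝ → ℝ) : Prop where
  isT : IsT T
  size : ∀ x : ℝ, Real.exp (T 0) ≤ x → Real.log x ≤ h x ∧ h x ≤ √x

end Pool.Agent.H41.BC
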