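import Pool.Agent.H41.BC.Defs

/-! # Project BC: three explicit line integrals -/

set_option autoImplicit false

open MeasureTheory Filter Topology Set Complex

namespace Pool.Agent.H41.BC

/-- inversion of the Mellin transform, in the notation `LI` -/
theorem inv_line {f : ℝ → ℂ} {F : ℂ → ℂ} {σ : ℝ} (hF : ∀ s : ℂ, s.re = σ → HasMellin f s (F s))
    (hint : Integrable fun y : ℝ => F (σ + y * I)) {t : ℝ} (ht : 0 < t) (hc : ContinuousAt f t) :
    LI σ (fun s => (t : ℂ) ^ (-s) * F s) = f t := by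
  have e : ∀ y : ℝ, mellin f (σ + y * I) = F (σ + y * I) := fun y => (hF _ (by simp)).2
  have h1 : VerticalIntegrable (mellin f) σ := by
    unfold VerticalIntegrable
    simp only [e]
    exact hint
  have h2 := mellinInv_mellin_eq σ f ht (hF σ (by simp)).1 h1 hc
  rw [← h2]
  unfold LI mellinInv
  simp only [e, smul_eq_mul, Complex.real_smul]
  push_cast
  rw [one_div]

theorem norm_sub_ge {σ a : ℝ} {s : ℂ} (hs : s.re = σ) :
    (min |σ - a| 1 / 2) * (1 + |s.im|) ≤ ‖s - a‖ := by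
  have h1 : |(s - a).re| ≤ ‖s - a‖ := Complex.abs_re_le_norm _
  have h2 : |(s - a).im| ≤ ‖s - a‖ := Complex.abs_im_le_norm _
  simp only [Complex.sub_re, Complex.sub_im, Complex.ofReal_re, Complex.ofReal_im, sub_zero, hs] at h1 h2
  have h3 : min |σ - a| 1 ≤ |σ - a| := min_le_left _ _
  have h4 : min |σ - a| 1 ≤ 1 := min_le_right _ _
  have h5 : 0 ≤ |s.im| := abs_nonneg _
  nlinarith

/-- the kernel is integrable -/
theorem int_ker {σ a b : ℝ} (ha : σ ≠ a) (hb : σ ≠ b) :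
    Integrable fun y : ℝ => 1 / (((σ + y * I : ℂ) - a) * ((σ + y * I : ℂ) - b)) := by
  have hda : 0 < min |σ - a| 1 / 2 := by
    have : 0 < |σ - a| := abs_pos.2 (sub_ne_zero.2 ha)
    positivity
  have hdb : 0 < min |σ - b| 1 / 2 := by
    have : 0 < |σ - b| := abs_pos.2 (sub_ne_zero.2 hb)
    positivity
  refine line_int (H := fun s : ℂ => 1 / ((s - a) * (s - b))) (a := σ)
    (B := 1 / ((min |σ - a| 1 / 2) * (min |σ - b| 1 / 2))) (p := 2) (by norm_num) (fun s hs => ?_) fun s hs => ?_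
  · have h1 : s - a ≠ 0 := fun h => ha (by rw [← hs, sub_eq_zero.1 h]; simp)
    have h2 : s - b ≠ 0 := fun h => hb (by rw [← hs, sub_eq_zero.1 h]; simp)
    exact ContinuousAt.div continuousAt_const (by fun_prop) (mul_ne_zero h1 h2)
  · have h1 := norm_sub_ge (a := a) hs
    have h2 := norm_sub_ge (a := b) hs
    have hp : 0 < 1 + |s.im| := by positivity
    rw [norm_div, norm_mul, norm_one, Real.rpow_neg hp.le, Real.rpow_two]
    have e : 1 / ((min |σ - a| 1 / 2) * (min |σ - b| 1 / 2)) * ((1 + |s.im|) ^ 2)⁻¹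
        = 1 / (((min |σ - a| 1 / 2) * (1 + |s.im|)) * ((min |σ - b| 1 / 2) * (1 + |s.im|))) := by
      field_simp
    rw [e]
    exact one_div_le_one_div_of_le (by positivity) (mul_le_mul h1 h2 (by positivity) (norm_nonneg _))

theorem hasMellin_Ioc (a : ℝ) {s : ℂ} (hs : 0 < s.re + a) :
    HasMellin (indicator (Ioc 0 1) (fun t => ((t ^ a : ℝ) : ℂ))) s (1 / (s + a)) := by
  have h := hasMellin_cpow_Ioc (a : ℂ) (s := s) (by simpa using hs)
  have e : (indicator (Ioc (0 : ℝ) 1) fun t : ℝ => (t : ℂ) ^ (a : ℂ)) = indicator (Ioc 0 1) (fun t => ((t ^ a : ℝ) : ℂ)) := by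
    apply indicator_congr
    intro t ht
    dsimp only
    rw [Complex.ofReal_cpow ht.1.le]
  rwa [e] at h

theorem hasMellin_Ioi (a : ℝ) {s : ℂ} (hs : s.re + a < 0) :
    HasMellin (indicator (Ioi 1) (fun t => ((t ^ a : ℝ) : ℂ))) s (-1 / (s + a)) := by
  have h1 : (s + a - 1).re < -1 := by
    simp only [Complex.sub_re, Complex.add_re, Complex.ofReal_re, Complex.one_re]
    linarith
  have hs0 : s + a ≠ 0 := fun h => by
    have := congrArg Complex.re h
    simp only [Complex.add_re, Complex.ofReal_re, Complex.zero_re] at this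
    linarith
  have e : ∀ t ∈ Ioi (0 : ℝ), (t : ℂ) ^ (s - 1) • indicator (Ioi 1) (fun t : ℝ => ((t ^ a : ℝ) : ℂ)) t
      = indicator (Ioi 1) (fun t : ℝ => (t : ℂ) ^ (s + a - 1)) t := by
    intro t ht
    by_cases h : t ∈ Ioi (1 : ℝ)
    · rw [indicator_of_mem h, indicator_of_mem h, smul_eq_mul, Complex.ofReal_cpow (le_of_lt ht),
        ← Complex.cpow_add _ _ (by exact_mod_cast (ne_of_gt ht))]
      congr 1
      ring
    · rw [indicator_of_notMem h, indicator_of_notMem h, smul_zero]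
  have hsub : Ioi (1 : ℝ) ⊆ Ioi 0 := Ioi_subset_Ioi zero_le_one
  constructor
  · unfold MellinConvergent
    rw [integrableOn_congr_fun e measurableSet_Ioi, IntegrableOn, integrable_indicator_iff measurableSet_Ioi,
      IntegrableOn, Measure.restrict_restrict_of_subset hsub]
    exact integrableOn_Ioi_cpow_of_lt h1 one_pos
  · unfold mellin
    rw [setIntegral_congr_fun measurableSet_Ioi e, integral_indicator measurableSet_Ioi,
      Measure.restrict_restrict_of_subset hsub, integral_Ioi_cpow_of_lt h1 one_pos]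
    simp

theorem mel1 {x l σ : ℝ} (hx : 0 < x) (hσ : 0 < σ) :
    LI σ (fun s => (x : ℂ) ^ (s + 1) * Complex.exp (-(s * l)) / (s * (s + 1))) =
      ((max (x - Real.exp l) 0 : ℝ) : ℂ) := by
  have hxc : (x : ℂ) ≠ 0 := by exact_mod_cast hx.ne'
  set t := Real.exp l / x with ht
  have ht0 : 0 < t := by positivity
  set f : ℝ → ℂ := fun t => indicator (Ioc 0 1) (fun t => ((t ^ (0 : ℝ) : ℝ) : ℂ)) t
    - indicator (Ioc 0 1) (fun t => ((t ^ (1 : ℝ) : ℝ) : ℂ)) t with hf
  have hfm : ∀ u : ℝ, 0 < u → f u = ((max (1 - u) 0 : ℝ) : ℂ) := by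
    intro u hu
    simp only [hf]
    by_cases h : u ∈ Ioc (0 : ℝ) 1
    · rw [indicator_of_mem h, indicator_of_mem h, Real.rpow_zero, Real.rpow_one, max_eq_left (by linarith [h.2])]
      push_cast
      ring
    · have h1 : 1 < u := by
        by_contra hcon
        exact h ⟨hu, not_lt.1 hcon⟩
      rw [indicator_of_notMem h, indicator_of_notMem h, max_eq_right (by linarith)]
      simp
  have hM : ∀ s : ℂ, s.re = σ → HasMellin f s (1 / ((s - (0 : ℝ)) * (s - (-1 : ℝ)))) := by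
    intro s hs
    have h1 := hasMellin_Ioc 0 (s := s) (by rw [hs]; linarith)
    have h2 := hasMellin_Ioc 1 (s := s) (by rw [hs]; linarith)
    have h3 := hasMellin_sub h1.1 h2.1
    rw [h1.2, h2.2] at h3
    convert h3 using 1
    have hs0 : s ≠ 0 := fun h => by rw [h] at hs; simp at hs; linarith
    have hs1 : s + 1 ≠ 0 := fun h => by
      have := congrArg Complex.re h
      simp only [Complex.add_re, Complex.one_re, Complex.zero_re, hs] at this
      linarith
    push_cast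
    rw [add_zero, sub_zero, sub_neg_eq_add]
    field_simp
    ring
  have hc : ContinuousAt f t := by
    have h1 : ContinuousAt (fun u : ℝ => ((max (1 - u) 0 : ℝ) : ℂ)) t := by fun_prop
    refine h1.congr ?_
    filter_upwards [lt_mem_nhds ht0] with u hu
    exact (hfm u hu).symm
  have key := inv_line hM (int_ker hσ.ne' (by linarith)) ht0 hc
  rw [hfm t ht0] at key
  have e1 : (fun s : ℂ => (x : ℂ) ^ (s + 1) * Complex.exp (-(s * l)) / (s * (s + 1)))
      = fun s => (x : ℂ) * ((t : ℂ) ^ (-s) * (1 / ((s - (0 : ℝ)) * (s - (-1 : ℝ))))) := by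
    funext s
    have e2 : (x : ℂ) ^ (s + 1) * Complex.exp (-(s * l)) = x * (t : ℂ) ^ (-s) := by
      rw [Complex.cpow_add _ _ hxc, Complex.cpow_one, Complex.cpow_def_of_ne_zero hxc,
        Complex.cpow_def_of_ne_zero (by exact_mod_cast ht0.ne'), ← Complex.ofReal_log ht0.le, ← Complex.ofReal_log hx.le,
        ht, Real.log_div (Real.exp_pos _).ne' hx.ne', Real.log_exp, mul_comm (Complex.exp _) (x : ℂ), mul_assoc, ← Complex.exp_add]
      congr 2
      push_cast
      ring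
    rw [e2]
    push_cast
    rw [sub_zero, sub_neg_eq_add]
    ring
  rw [e1]
  have e3 : LI σ (fun s => (x : ℂ) * ((t : ℂ) ^ (-s) * (1 / ((s - (0 : ℝ)) * (s - (-1 : ℝ))))))
      = x * LI σ (fun s => ((t : ℂ) ^ (-s) * (1 / ((s - (0 : ℝ)) * (s - (-1 : ℝ)))))) := by
    unfold LI
    rw [integral_const_mul]
    ring
  rw [e3, key, ← Complex.ofReal_mul]
  congr 1
  rw [mul_max_of_nonneg _ _ hx.le, ht, mul_zero, mul_sub, mul_one, mul_div_cancel₀ _ hx.ne']

theorem mel_core {x σ : ℝ} (hx : 1 < x) {f : ℝ → ℂ} {c : ℝ} (hσ1 : σ ≠ 1) (hσ2 : σ ≠ -1)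
    (hM : ∀ s : ℂ, s.re = σ → HasMellin f s (1 / ((s - (1 : ℝ)) * (s - (-1 : ℝ)))))
    (hc : ContinuousAt f x⁻¹) (hv : (x : ℂ) * f x⁻¹ = (c : ℂ)) :
    LI σ (fun s => (x : ℂ) ^ (s + 1) / ((s - 1) * (s + 1))) = (c : ℂ) := by
  have hx0 : 0 < x := by linarith
  have hxc : (x : ℂ) ≠ 0 := by exact_mod_cast hx0.ne'
  have key := inv_line hM (int_ker hσ1 hσ2) (inv_pos.2 hx0) hc
  have e1 : (fun s : ℂ => (x : ℂ) ^ (s + 1) / ((s - 1) * (s + 1)))
      = fun s => (x : ℂ) * (((x⁻¹ : ℝ) : ℂ) ^ (-s) * (1 / ((s - (1 : ℝ)) * (s - (-1 : ℝ))))) := by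
    funext s
    have e2 : (x : ℂ) ^ (s + 1) = x * ((x⁻¹ : ℝ) : ℂ) ^ (-s) := by
      rw [Complex.cpow_add _ _ hxc, Complex.cpow_one, Complex.cpow_def_of_ne_zero hxc,
        Complex.cpow_def_of_ne_zero (by exact_mod_cast (inv_pos.2 hx0).ne'), ← Complex.ofReal_log (inv_pos.2 hx0).le,
        ← Complex.ofReal_log hx0.le, Real.log_inv, mul_comm (Complex.exp _) (x : ℂ)]
      congr 2
      push_cast
      ring
    rw [e2]
    push_cast
    rw [sub_neg_eq_add]
    ring
  rw [e1]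
  have e3 : LI σ (fun s => (x : ℂ) * (((x⁻¹ : ℝ) : ℂ) ^ (-s) * (1 / ((s - (1 : ℝ)) * (s - (-1 : ℝ))))))
      = x * LI σ (fun s => (((x⁻¹ : ℝ) : ℂ) ^ (-s) * (1 / ((s - (1 : ℝ)) * (s - (-1 : ℝ)))))) := by
    unfold LI
    rw [integral_const_mul]
    ring
  rw [e3, key, hv]

theorem mel2 {x σ : ℝ} (hx : 1 < x) (hσ : 1 < σ) :
    LI σ (fun s => (x : ℂ) ^ (s + 1) / ((s - 1) * (s + 1))) = (((x ^ 2 - 1) / 2 : ℝ) : ℂ) := by
  have hx0 : 0 < x := by linarith
  have hxi : x⁻¹ < 1 := inv_lt_one_of_one_lt₀ hx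
  have hxi0 : 0 < x⁻¹ := inv_pos.2 hx0
  set f : ℝ → ℂ := fun t => (1 / 2 : ℂ) • (indicator (Ioc 0 1) (fun t => ((t ^ (-1 : ℝ) : ℝ) : ℂ)) t
    - indicator (Ioc 0 1) (fun t => ((t ^ (1 : ℝ) : ℝ) : ℂ)) t) with hf
  have hfm : ∀ u : ℝ, 0 < u → u < 1 → f u = (1 / 2 : ℂ) * ((u⁻¹ - u : ℝ) : ℂ) := by
    intro u hu hu1
    have h : u ∈ Ioc (0 : ℝ) 1 := ⟨hu, hu1.le⟩
    simp only [hf]
    rw [indicator_of_mem h, indicator_of_mem h, Real.rpow_neg_one, Real.rpow_one, smul_eq_mul]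
    push_cast
    ring
  refine mel_core hx hσ.ne' (by linarith) (f := f) (fun s hs => ?_) ?_ ?_
  · have h1 := hasMellin_Ioc (-1) (s := s) (by rw [hs]; linarith)
    have h2 := hasMellin_Ioc 1 (s := s) (by rw [hs]; linarith)
    have h3 := hasMellin_sub h1.1 h2.1
    have h4 := hasMellin_const_smul h3.1 (1 / 2 : ℂ)
    rw [h3.2, h1.2, h2.2] at h4
    convert h4 using 1
    have hs0 : s - 1 ≠ 0 := fun h => by
      have := congrArg Complex.re h
      simp only [Complex.sub_re, Complex.one_re, Complex.zero_re, hs] at this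
      linarith
    have hs1 : s + 1 ≠ 0 := fun h => by
      have := congrArg Complex.re h
      simp only [Complex.add_re, Complex.one_re, Complex.zero_re, hs] at this
      linarith
    push_cast
    rw [sub_neg_eq_add, ← sub_eq_add_neg, smul_eq_mul]
    field_simp
    ring
  · have h1 : ContinuousAt (fun u : ℝ => (1 / 2 : ℂ) * ((u⁻¹ - u : ℝ) : ℂ)) x⁻¹ := by
      have : ContinuousAt (fun u : ℝ => u⁻¹ - u) x⁻¹ := (continuousAt_inv₀ hxi0.ne').sub continuousAt_id
      exact continuousAt_const.mul (Complex.continuous_ofReal.continuousAt.comp this)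
    refine h1.congr ?_
    filter_upwards [lt_mem_nhds hxi0, gt_mem_nhds hxi] with u hu hu1
    exact (hfm u hu hu1).symm
  · rw [hfm _ hxi0 hxi]
    have hxc : (x : ℂ) ≠ 0 := by exact_mod_cast hx0.ne'
    push_cast
    field_simp

theorem mel3 {x σ : ℝ} (hx : 1 < x) (hσ : 0 < σ) (hσ1 : σ < 1) :
    LI σ (fun s => (x : ℂ) ^ (s + 1) / ((s - 1) * (s + 1))) = ((-1 / 2 : ℝ) : ℂ) := by
  have hx0 : 0 < x := by linarith
  have hxi : x⁻¹ < 1 := inv_lt_one_of_one_lt₀ hx
  have hxi0 : 0 < x⁻¹ := inv_pos.2 hx0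
  set f : ℝ → ℂ := fun t => (-1 / 2 : ℂ) • (indicator (Ioc 0 1) (fun t => ((t ^ (1 : ℝ) : ℝ) : ℂ)) t
    + indicator (Ioi 1) (fun t => ((t ^ (-1 : ℝ) : ℝ) : ℂ)) t) with hf
  have hfm : ∀ u : ℝ, 0 < u → u < 1 → f u = (-1 / 2 : ℂ) * (u : ℂ) := by
    intro u hu hu1
    have h : u ∈ Ioc (0 : ℝ) 1 := ⟨hu, hu1.le⟩
    have h' : u ∉ Ioi (1 : ℝ) := fun h => absurd h (not_lt.2 hu1.le)
    simp only [hf]
    rw [indicator_of_mem h, indicator_of_notMem h', Real.rpow_one, smul_eq_mul, add_zero]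
  refine mel_core hx hσ1.ne (by linarith) (f := f) (fun s hs => ?_) ?_ ?_
  · have h1 := hasMellin_Ioc 1 (s := s) (by rw [hs]; linarith)
    have h2 := hasMellin_Ioi (-1) (s := s) (by rw [hs]; linarith)
    have h3 := hasMellin_add h1.1 h2.1
    have h4 := hasMellin_const_smul h3.1 (-1 / 2 : ℂ)
    rw [h3.2, h1.2, h2.2] at h4
    convert h4 using 1
    have hs0 : s - 1 ≠ 0 := fun h => by
      have := congrArg Complex.re h
      simp only [Complex.sub_re, Complex.one_re, Complex.zero_re, hs] at this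
      linarith
    have hs1 : s + 1 ≠ 0 := fun h => by
      have := congrArg Complex.re h
      simp only [Complex.add_re, Complex.one_re, Complex.zero_re, hs] at this
      linarith
    push_cast
    rw [sub_neg_eq_add, ← sub_eq_add_neg, smul_eq_mul]
    field_simp
    ring
  · have h1 : ContinuousAt (fun u : ℝ => (-1 / 2 : ℂ) * (u : ℂ)) x⁻¹ := by fun_prop
    refine h1.congr ?_
    filter_upwards [lt_mem_nhds hxi0, gt_mem_nhds hxi] with u hu hu1
    exact (hfm u hu hu1).symm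
  · rw [hfm _ hxi0 hxi]
    have hxc : (x : ℂ) ≠ 0 := by exact_mod_cast hx0.ne'
    push_cast
    field_simp

end Pool.Agent.H41.BC
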