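import Pool.Agent.H41.BC.Defs
import Pool.Agent.H41.BC.Mel

/-! # Project BC: the Euler product of finitely many generalised primes and the Riesz sum as a line integral -/

set_option autoImplicit false

open MeasureTheory Filter Topology Set

namespace Pool.Agent.H41.BC

lemma mulsum {ι κ : Type*} {f : ι → ℂ} {g : κ → ℂ} {a b : ℂ} (hf : HasSum f a) (hg : HasSum g b) :
    HasSum (fun p : ι × κ => f p.1 * g p.2) (a * b) := by
  have h1 : Summable (fun i => ‖f i‖) := hf.summable.norm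
  have h2 : Summable (fun i => ‖g i‖) := hg.summable.norm
  have h3 := summable_mul_of_summable_norm h1 h2
  exact hf.mul hg h3

theorem eul (K : ℕ) (W : ℕ → ℝ) (hW : ∀ k, 0 < W k) {s : ℂ} (hs : 0 < s.re) :
    HasSum (fun a : Fin K → ℕ => Complex.exp (-(s * ∑ k, (a k : ℂ) * W k))) (Z K W s) := by
  induction K with
  | zero =>
    simp [Z]
  | succ K ih =>
    have hgeo : HasSum (fun e : ℕ => Complex.exp (-(s * W K)) ^ e)
        (1 - Complex.exp (-(s * W K)))⁻¹ := by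
      apply hasSum_geometric_of_norm_lt_one
      rw [Complex.norm_exp]
      rw [Real.exp_lt_one_iff]
      simp only [Complex.neg_re, Complex.mul_re, Complex.ofReal_re, Complex.ofReal_im, mul_zero, sub_zero]
      have := mul_pos hs (hW K)
      linarith
    have hmul := mulsum hgeo ih
    have hZ : Z (K + 1) W s = (1 - Complex.exp (-(s * W K)))⁻¹ * Z K W s := by
      rw [Z, Z, Finset.prod_range_succ, mul_comm]
    rw [hZ]
    have he := (Fin.snocEquiv (fun _ : Fin (K + 1) => ℕ)).hasSum_iff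
      (f := fun a : Fin (K + 1) → ℕ => Complex.exp (-(s * ∑ k, (a k : ℂ) * W k)))
      (a := (1 - Complex.exp (-(s * W K)))⁻¹ * Z K W s)
    rw [← he]
    convert hmul using 1
    funext p
    simp only [Function.comp_apply, Fin.snocEquiv_apply, Fin.sum_univ_castSucc, Fin.snoc_castSucc,
      Fin.snoc_last, Fin.val_castSucc, Fin.val_last]
    rw [← Complex.exp_nat_mul, ← Complex.exp_add]
    congr 1
    ring

/-- the integrand has an integrable majorant -/
lemma inv_bound {σ : ℝ} (hσ : 0 < σ) (t : ℝ) :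
    ‖((((σ : ℂ) + t * Complex.I) * ((σ : ℂ) + t * Complex.I + 1)))⁻¹‖ ≤
      (σ⁻¹ + 1) ^ 2 * 2 ^ 2 * (1 + |t|) ^ (-(2 : ℝ)) := by
  set z : ℂ := (σ : ℂ) + t * Complex.I with hz
  have hre : z.re = σ := by simp [hz]
  have him : z.im = t := by simp [hz]
  have h1 : σ ≤ ‖z‖ := by
    have := Complex.abs_re_le_norm z
    rw [hre, abs_of_pos hσ] at this
    exact this
  have h2 : |t| ≤ ‖z‖ := by
    have := Complex.abs_im_le_norm z
    rwa [him] at this
  have hz0 : 0 < ‖z‖ := hσ.trans_le h1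
  have hre1 : (z + 1).re = σ + 1 := by simp [hre]
  have him1 : (z + 1).im = t := by simp [him]
  have h1' : σ ≤ ‖z + 1‖ := by
    have := Complex.abs_re_le_norm (z + 1)
    rw [hre1, abs_of_pos (by linarith)] at this
    linarith
  have h2' : |t| ≤ ‖z + 1‖ := by
    have := Complex.abs_im_le_norm (z + 1)
    rwa [him1] at this
  have hz1 : 0 < ‖z + 1‖ := hσ.trans_le h1'
  have key : ∀ w : ℂ, σ ≤ ‖w‖ → |t| ≤ ‖w‖ → ‖w‖⁻¹ ≤ (σ⁻¹ + 1) * (1 + |t|)⁻¹ := by
    intro w hw1 hw2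
    have hw : 0 < ‖w‖ := hσ.trans_le hw1
    rw [← div_eq_mul_inv, inv_eq_one_div, div_le_div_iff₀ hw (by positivity)]
    have : 1 ≤ σ⁻¹ * ‖w‖ := by
      rw [inv_mul_eq_div, le_div_iff₀ hσ]
      linarith
    nlinarith
  have hr : (1 + |t|) ^ (-(2 : ℝ)) = (1 + |t|)⁻¹ * (1 + |t|)⁻¹ := by
    rw [Real.rpow_neg (by positivity), show (2 : ℝ) = ((2 : ℕ) : ℝ) by norm_num, Real.rpow_natCast, pow_two,
      mul_inv]
  rw [norm_inv, norm_mul, mul_inv, hr]
  have k1 := key z h1 h2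
  have k2 := key (z + 1) h1' h2'
  calc ‖z‖⁻¹ * ‖z + 1‖⁻¹ ≤ ((σ⁻¹ + 1) * (1 + |t|)⁻¹) * ((σ⁻¹ + 1) * (1 + |t|)⁻¹) :=
        mul_le_mul k1 k2 (by positivity) (by positivity)
    _ ≤ (σ⁻¹ + 1) ^ 2 * 2 ^ 2 * ((1 + |t|)⁻¹ * (1 + |t|)⁻¹) := by
        have : 0 ≤ (σ⁻¹ + 1) ^ 2 * ((1 + |t|)⁻¹ * (1 + |t|)⁻¹) := by positivity
        nlinarith

/-- from `mel1` and `eul` by exchanging sum and integral -/
theorem riesz_line (K : ℕ) (W : ℕ → ℝ) (hW : ∀ k, 0 < W k) {x σ : ℝ} (hx : 0 < x) (hσ : 0 < σ) :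
    (Rz K W x : ℂ) = LI σ (fun s => (x : ℂ) ^ (s + 1) * Z K W s / (s * (s + 1))) := by
  set L : (Fin K → ℕ) → ℝ := fun a => ∑ k, (a k : ℝ) * W k with hL
  have hLc : ∀ a : Fin K → ℕ, ((L a : ℝ) : ℂ) = ∑ k, (a k : ℂ) * W k := by
    intro a
    simp [hL]
  set F : (Fin K → ℕ) → ℝ → ℂ := fun a t => (x : ℂ) ^ (((σ : ℂ) + t * Complex.I) + 1) *
    Complex.exp (-(((σ : ℂ) + t * Complex.I) * L a)) /
      (((σ : ℂ) + t * Complex.I) * (((σ : ℂ) + t * Complex.I) + 1)) with hF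
  have hne : ∀ t : ℝ, ((σ : ℂ) + t * Complex.I) ≠ 0 := by
    intro t h
    have := congrArg Complex.re h
    simp at this
    linarith
  have hne1 : ∀ t : ℝ, ((σ : ℂ) + t * Complex.I) + 1 ≠ 0 := by
    intro t h
    have := congrArg Complex.re h
    simp at this
    linarith
  have hx0 : (x : ℂ) ≠ 0 := by exact_mod_cast hx.ne'
  -- norm of the summands
  have hnorm : ∀ a t, ‖F a t‖ = x ^ (σ + 1) * Real.exp (-(σ * L a)) *
      ‖((((σ : ℂ) + t * Complex.I) * ((σ : ℂ) + t * Complex.I + 1)))⁻¹‖ := by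
    intro a t
    simp only [hF]
    rw [div_eq_mul_inv, norm_mul, norm_mul, Complex.norm_cpow_eq_rpow_re_of_pos hx, Complex.norm_exp]
    congr 2
    · simp
    · simp
  have hcont : ∀ a, Continuous (F a) := by
    intro a
    have c1 : Continuous (fun t : ℝ => ((σ : ℂ) + t * Complex.I) + 1) := by fun_prop
    have c2 : Continuous (fun t : ℝ => (x : ℂ) ^ (((σ : ℂ) + t * Complex.I) + 1)) :=
      Continuous.const_cpow c1 (Or.inl hx0)
    have c3 : Continuous (fun t : ℝ => Complex.exp (-(((σ : ℂ) + t * Complex.I) * L a))) := by fun_prop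
    have c4 : Continuous (fun t : ℝ => (((σ : ℂ) + t * Complex.I) * (((σ : ℂ) + t * Complex.I) + 1))) := by
      fun_prop
    exact (c2.mul c3).div c4 (fun t => mul_ne_zero (hne t) (hne1 t))
  have hinvc : Continuous (fun t : ℝ => ‖((((σ : ℂ) + t * Complex.I) *
      ((σ : ℂ) + t * Complex.I + 1)))⁻¹‖) := by
    have c4 : Continuous (fun t : ℝ => (((σ : ℂ) + t * Complex.I) * (((σ : ℂ) + t * Complex.I) + 1))) := by
      fun_prop
    exact (c4.inv₀ (fun t => mul_ne_zero (hne t) (hne1 t))).norm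
  have hinvi : Integrable (fun t : ℝ => ‖((((σ : ℂ) + t * Complex.I) *
      ((σ : ℂ) + t * Complex.I + 1)))⁻¹‖) := by
    have hd := decay_int (p := 2) (by norm_num)
    have hd2 : Integrable (fun t : ℝ => (σ⁻¹ + 1) ^ 2 * 2 ^ 2 * (1 + |t|) ^ (-(2 : ℝ))) :=
      hd.const_mul ((σ⁻¹ + 1) ^ 2 * 2 ^ 2)
    have hb : ∀ t : ℝ, ‖‖((((σ : ℂ) + t * Complex.I) * ((σ : ℂ) + t * Complex.I + 1)))⁻¹‖‖ ≤
        (σ⁻¹ + 1) ^ 2 * 2 ^ 2 * (1 + |t|) ^ (-(2 : ℝ)) := by
      intro t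
      rw [norm_norm]
      exact inv_bound hσ t
    exact hd2.mono' hinvc.aestronglyMeasurable (Eventually.of_forall hb)
  have hint : ∀ a, Integrable (F a) := by
    intro a
    have h1 := hinvi.const_mul (x ^ (σ + 1) * Real.exp (-(σ * L a)))
    have hb : ∀ t : ℝ, ‖F a t‖ ≤ x ^ (σ + 1) * Real.exp (-(σ * L a)) *
        ‖((((σ : ℂ) + t * Complex.I) * ((σ : ℂ) + t * Complex.I + 1)))⁻¹‖ := fun t => (hnorm a t).le
    exact h1.mono' (hcont a).aestronglyMeasurable (Eventually.of_forall hb)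
  have hexp : Summable (fun a : Fin K → ℕ => Real.exp (-(σ * L a))) := by
    have h := (eul K W hW (s := (σ : ℂ)) (by simpa using hσ)).summable.norm
    have he : ∀ a : Fin K → ℕ, ‖Complex.exp (-((σ : ℂ) * ∑ k, (a k : ℂ) * W k))‖ =
        Real.exp (-(σ * L a)) := by
      intro a
      rw [Complex.norm_exp, ← hLc]
      simp
    exact (summable_congr he).mp h
  have hsum : Summable fun a => ∫ t : ℝ, ‖F a t‖ := by
    have : (fun a => ∫ t : ℝ, ‖F a t‖) = fun a => Real.exp (-(σ * L a)) *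
        (x ^ (σ + 1) * ∫ t : ℝ, ‖((((σ : ℂ) + t * Complex.I) * ((σ : ℂ) + t * Complex.I + 1)))⁻¹‖) := by
      funext a
      simp only [hnorm]
      rw [integral_const_mul]
      ring
    rw [this]
    exact hexp.mul_right _
  have hmain := hasSum_integral_of_summable_integral_norm hint hsum
  -- the sum under the integral
  have hpt : ∀ t : ℝ, ∑' a, F a t = (x : ℂ) ^ (((σ : ℂ) + t * Complex.I) + 1) *
      Z K W ((σ : ℂ) + t * Complex.I) /
        (((σ : ℂ) + t * Complex.I) * (((σ : ℂ) + t * Complex.I) + 1)) := by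
    intro t
    have h := eul K W hW (s := (σ : ℂ) + t * Complex.I) (by simpa using hσ)
    have h2 := (h.mul_left ((x : ℂ) ^ (((σ : ℂ) + t * Complex.I) + 1))).div_const
      (((σ : ℂ) + t * Complex.I) * (((σ : ℂ) + t * Complex.I) + 1))
    rw [← h2.tsum_eq]
    have he : ∀ a, F a t = (x : ℂ) ^ (((σ : ℂ) + t * Complex.I) + 1) *
        Complex.exp (-(((σ : ℂ) + t * Complex.I) * ∑ k, (a k : ℂ) * W k)) /
        (((σ : ℂ) + t * Complex.I) * (((σ : ℂ) + t * Complex.I) + 1)) := by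
      intro a
      simp only [hF, hLc]
    exact tsum_congr he
  simp only [hpt] at hmain
  have hm2 := hmain.mul_left ((((2 * Real.pi)⁻¹ : ℝ)) : ℂ)
  have hval : ∀ a : Fin K → ℕ, ((((2 * Real.pi)⁻¹ : ℝ)) : ℂ) * ∫ t : ℝ, F a t =
      ((max (x - Real.exp (L a)) 0 : ℝ) : ℂ) := by
    intro a
    exact mel1 hx hσ
  simp only [hval] at hm2
  have h3 : HasSum (fun a : Fin K → ℕ => ((max (x - Real.exp (L a)) 0 : ℝ) : ℂ)) ((Rz K W x : ℝ) : ℂ) := by
    rw [Rz]
    have hs : Summable (fun a : Fin K → ℕ => max (x - Real.exp (L a)) 0) := by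
      have := hm2.summable
      exact Complex.summable_ofReal.mp this
    have := hs.hasSum
    exact Complex.hasSum_ofReal.mpr this
  exact h3.unique hm2

end Pool.Agent.H41.BC
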