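import Pool.Agent.H41.BC.Fru
import Pool.Agent.H41.BC.Eul
import Pool.Agent.H41.BC.Mel

/-! # Project BC: the explicit formula for the Riesz sum -/

set_option autoImplicit false

open MeasureTheory Filter Topology Set

namespace Pool.Agent.H41.BC

theorem one_sub_exp_ge {w r : ℝ} (hw : 0 < w) (hr : 0 < r) {s : ℂ} (hs : r ≤ s.re) :
    1 - Real.exp (-(r * w)) ≤ ‖1 - Complex.exp (-(s * w))‖ := by
  have h1 : ‖Complex.exp (-(s * w))‖ ≤ Real.exp (-(r * w)) := by
    rw [Complex.norm_exp]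
    apply Real.exp_le_exp.2
    simp only [Complex.neg_re, Complex.mul_re, Complex.ofReal_re, Complex.ofReal_im, mul_zero, sub_zero]
    nlinarith
  have h2 := norm_sub_norm_le (1 : ℂ) (Complex.exp (-(s * w)))
  rw [norm_one] at h2
  linarith

theorem exp_lt_one' {w r : ℝ} (hw : 0 < w) (hr : 0 < r) : 0 < 1 - Real.exp (-(r * w)) := by
  have : Real.exp (-(r * w)) < 1 := Real.exp_lt_one_iff.2 (by nlinarith [mul_pos hr hw])
  linarith

theorem one_sub_exp_ne {w : ℝ} (hw : 0 < w) {s : ℂ} (hs : 0 < s.re) : 1 - Complex.exp (-(s * w)) ≠ 0 := by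
  have h := one_sub_exp_ge hw hs (le_refl s.re)
  have h2 := exp_lt_one' hw hs
  exact norm_pos_iff.1 (h2.trans_le h)

theorem Z_diff (K : ℕ) {W : ℕ → ℝ} (hW : ∀ k, 0 < W k) {s : ℂ} (hs : 0 < s.re) : DifferentiableAt ℂ (Z K W) s := by
  unfold Z
  apply DifferentiableAt.fun_finsetProd
  intro k _
  apply DifferentiableAt.fun_inv
  · fun_prop
  · exact one_sub_exp_ne (hW k) hs

theorem Z_norm (K : ℕ) {W : ℕ → ℝ} (hW : ∀ k, 0 < W k) {r : ℝ} (hr : 0 < r) {s : ℂ} (hs : r ≤ s.re) :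
    ‖Z K W s‖ ≤ ∏ k ∈ Finset.range K, (1 - Real.exp (-(r * W k)))⁻¹ := by
  unfold Z
  rw [norm_prod]
  apply Finset.prod_le_prod (fun k _ => norm_nonneg _)
  intro k _
  rw [norm_inv]
  exact inv_anti₀ (exp_lt_one' (hW k) hr) (one_sub_exp_ge (hW k) hr hs)

theorem tr_bound {Λ : ℝ} (hΛ : 0 ≤ Λ) {s : ℂ} (hs : 0 ≤ s.re) : ‖tr 0 Λ s‖ ≤ ∫ v in (0 : ℝ)..Λ, |g v| := by
  refine (tr_norm hΛ s).trans ?_
  have hg : Continuous fun v => |g v| := g_cont.abs
  apply intervalIntegral.integral_mono_on hΛ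
  · exact (hg.mul (by fun_prop)).intervalIntegrable _ _
  · exact hg.intervalIntegrable _ _
  · intro v hv
    have h1 : Real.exp (-(s.re * v)) ≤ 1 := Real.exp_le_one_iff.2 (by nlinarith [mul_nonneg hs hv.1])
    exact mul_le_of_le_one_right (abs_nonneg _) h1

theorem Q_diff (K : ℕ) {W : ℕ → ℝ} (hW : ∀ k, 0 < W k) (Λ : ℝ) {s : ℂ} (hs : 0 < s.re) : DifferentiableAt ℂ (Q K W Λ) s := by
  unfold Q
  exact (Z_diff K hW hs).fun_mul ((tr_diff 0 Λ s).fun_neg.cexp)

theorem exists_Q_bound (K : ℕ) {W : ℕ → ℝ} (hW : ∀ k, 0 < W k) {Λ : ℝ} (hΛ : 0 ≤ Λ) {r : ℝ} (hr : 0 < r) :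
    ∃ B : ℝ, 0 < B ∧ ∀ s : ℂ, r ≤ s.re → ‖Q K W Λ s‖ ≤ B := by
  refine ⟨(∏ k ∈ Finset.range K, (1 - Real.exp (-(r * W k)))⁻¹) * Real.exp (∫ v in (0 : ℝ)..Λ, |g v|), ?_, fun s hs => ?_⟩
  · have : 0 < ∏ k ∈ Finset.range K, (1 - Real.exp (-(r * W k)))⁻¹ :=
      Finset.prod_pos fun k _ => inv_pos.2 (exp_lt_one' (hW k) hr)
    positivity
  · unfold Q
    rw [norm_mul]
    have h1 := Z_norm K hW hr hs
    have h2 : ‖Complex.exp (-tr 0 Λ s)‖ ≤ Real.exp (∫ v in (0 : ℝ)..Λ, |g v|) := by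
      refine (Complex.norm_exp_le_exp_norm _).trans ?_
      rw [norm_neg]
      exact Real.exp_le_exp.2 (tr_bound hΛ (hr.le.trans hs))
    exact mul_le_mul h1 h2 (norm_nonneg _) ((norm_nonneg _).trans h1)

theorem norm_sub_one_ge {s : ℂ} : |s.im| ≤ ‖s - 1‖ := by
  have := Complex.abs_im_le_norm (s - 1)
  simpa using this

theorem norm_add_one_ge {s : ℂ} (hs : 0 ≤ s.re) : (1 + |s.im|) / 2 ≤ ‖s + 1‖ := by
  have h1 := Complex.abs_im_le_norm (s + 1)
  have h2 := Complex.re_le_norm (s + 1)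
  simp only [Complex.add_im, Complex.one_im, add_zero, Complex.add_re, Complex.one_re] at h1 h2
  linarith

theorem norm_sub_one_ge' {s : ℂ} (hs : 2 ≤ s.re) : (1 + |s.im|) / 2 ≤ ‖s - 1‖ := by
  have h1 := Complex.abs_im_le_norm (s - 1)
  have h2 := Complex.re_le_norm (s - 1)
  simp only [Complex.sub_im, Complex.one_im, sub_zero, Complex.sub_re, Complex.one_re] at h1 h2
  linarith

theorem LI_add {c : ℝ} {H H' : ℂ → ℂ} (h : Integrable fun t : ℝ => H (c + t * Complex.I))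
    (h' : Integrable fun t : ℝ => H' (c + t * Complex.I)) : LI c (fun s => H s + H' s) = LI c H + LI c H' := by
  unfold LI
  rw [integral_add h h', mul_add]

theorem LI_const_mul (c : ℝ) (a : ℂ) (H : ℂ → ℂ) : LI c (fun s => a * H s) = a * LI c H := by
  unfold LI
  rw [integral_const_mul]
  ring

theorem norm_cpow_x {x : ℝ} (hx : 0 < x) (s : ℂ) : ‖(x : ℂ) ^ (s + 1)‖ = x ^ (s.re + 1) := by
  rw [Complex.norm_cpow_eq_rpow_re_of_pos hx]
  simp

theorem cpow_diff {x : ℝ} (hx : 0 < x) (s : ℂ) : DifferentiableAt ℂ (fun s : ℂ => (x : ℂ) ^ (s + 1)) s := by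
  have hx' : (x : ℂ) ≠ 0 := by exact_mod_cast hx.ne'
  exact DifferentiableAt.const_cpow (by fun_prop) (Or.inl hx')

/-- the right half plane -/
theorem det_right (K : ℕ) (W : ℕ → ℝ) (hW : ∀ k, 0 < W k) {x Λ : ℝ} (hx : 1 < x) (hxΛ : x < Real.exp Λ) :
    (Rz K W x : ℂ) = LI 2 (fun s => (x : ℂ) ^ (s + 1) * Q K W Λ s / ((s - 1) * (s + 1))) := by
  have hx0 : 0 < x := by linarith
  have hΛ : 0 < Λ := by
    by_contra hcon
    have := Real.exp_le_one_iff.2 (not_lt.1 hcon)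
    linarith
  obtain ⟨B, hB, hQ⟩ := exists_Q_bound K hW hΛ.le (r := 2) two_pos
  -- the difference
  set E : ℂ → ℂ := fun s => (x : ℂ) ^ (s + 1) * Q K W Λ s / ((s - 1) * (s + 1)) * ((s - 1) / s * Complex.exp (tr 0 Λ s) - 1) with hE
  have hne : ∀ s : ℂ, 2 ≤ s.re → s ≠ 0 ∧ s - 1 ≠ 0 ∧ s + 1 ≠ 0 := by
    intro s hs
    refine ⟨fun h => ?_, fun h => ?_, fun h => ?_⟩
    · rw [h] at hs; simp at hs; linarith
    · have := congrArg Complex.re h
      simp only [Complex.sub_re, Complex.one_re, Complex.zero_re] at this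
      linarith
    · have := congrArg Complex.re h
      simp only [Complex.add_re, Complex.one_re, Complex.zero_re] at this
      linarith
  have hEd : ∀ s : ℂ, 2 ≤ s.re → DifferentiableAt ℂ E s := by
    intro s hs
    obtain ⟨n1, n2, n3⟩ := hne s hs
    refine DifferentiableAt.fun_mul (DifferentiableAt.fun_div ((cpow_diff hx0 s).fun_mul (Q_diff K hW Λ (by linarith)))
      (by fun_prop) (mul_ne_zero n2 n3)) (DifferentiableAt.fun_sub (DifferentiableAt.fun_mul (DifferentiableAt.fun_div (by fun_prop) (by fun_prop) n1)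
      (tr_diff 0 Λ s).cexp) (by fun_prop))
  have hEb : ∀ s : ℂ, 2 ≤ s.re → ‖E s‖ ≤ x ^ (s.re + 1) * B * 4 * (3 * Real.exp (-((s.re - 1) * Λ))) * (1 + |s.im|) ^ (-(2 : ℝ)) := by
    intro s hs
    have k1 := norm_sub_one_ge' hs
    have k2 := norm_add_one_ge (s := s) (by linarith)
    have k3 := fru hs hΛ.le
    rw [norm_sub_rev] at k3
    have hp : 0 < 1 + |s.im| := by positivity
    simp only [hE]
    rw [norm_mul, norm_div, norm_mul, norm_mul, norm_cpow_x hx0, Real.rpow_neg hp.le, Real.rpow_two]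
    have k4 : x ^ (s.re + 1) * ‖Q K W Λ s‖ / (‖s - 1‖ * ‖s + 1‖) ≤ x ^ (s.re + 1) * B / (((1 + |s.im|) / 2) * ((1 + |s.im|) / 2)) := by
      have := hQ s hs
      gcongr
    have k5 : 0 ≤ x ^ (s.re + 1) * B / (((1 + |s.im|) / 2) * ((1 + |s.im|) / 2)) := by positivity
    refine (mul_le_mul k4 k3 (norm_nonneg _) k5).trans (le_of_eq ?_)
    field_simp
    ring
  have hE0 : LI 2 E = 0 := by
    -- shift to the right
    have hshift : ∀ c : ℝ, 2 ≤ c → LI 2 E = LI c E := by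
      intro c hc
      refine shift (B := x ^ (c + 1) * B * 4 * 3) (p := 2) (by norm_num) hc (fun s hs _ => hEd s hs) fun s hs hs' => ?_
      refine (hEb s hs).trans ?_
      have j1 : x ^ (s.re + 1) ≤ x ^ (c + 1) := Real.rpow_le_rpow_of_exponent_le hx.le (by linarith)
      have j2 : Real.exp (-((s.re - 1) * Λ)) ≤ 1 := Real.exp_le_one_iff.2 (by nlinarith)
      have j3 : 0 ≤ (1 + |s.im|) ^ (-(2 : ℝ)) := by positivity
      refine mul_le_mul_of_nonneg_right ?_ j3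
      calc x ^ (s.re + 1) * B * 4 * (3 * Real.exp (-((s.re - 1) * Λ))) ≤ x ^ (c + 1) * B * 4 * (3 * 1) := by gcongr
        _ = x ^ (c + 1) * B * 4 * 3 := by ring
    have hbd : ∀ c : ℝ, 2 ≤ c → ‖LI c E‖ ≤ (2 * Real.pi)⁻¹ * ((12 * B * x * Real.exp Λ * (∫ t : ℝ, (1 + |t|) ^ (-(2 : ℝ)))) * (x * Real.exp (-Λ)) ^ c) := by
      intro c hc
      have h1 := norm_LI_le (H := E) (c := c) (g := fun t : ℝ => (x ^ (c + 1) * B * 4 * (3 * Real.exp (-((c - 1) * Λ)))) * (1 + |t|) ^ (-(2 : ℝ)))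
        ((decay_int (p := 2) (by norm_num)).const_mul _) (fun t => by
          have := hEb (c + t * Complex.I) (by simpa using hc)
          simpa using this)
      refine h1.trans (le_of_eq ?_)
      rw [integral_const_mul]
      congr 1
      have e1 : x ^ (c + 1) = x * x ^ c := by rw [Real.rpow_add hx0, Real.rpow_one]; ring
      have e2 : Real.exp (-((c - 1) * Λ)) = Real.exp Λ * Real.exp (-Λ) ^ c := by
        rw [← Real.exp_mul, ← Real.exp_add]
        congr 1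
        ring
      rw [e1, e2, Real.mul_rpow hx0.le (Real.exp_pos _).le]
      ring
    have hlim : Tendsto (fun c : ℝ => (2 * Real.pi)⁻¹ * ((12 * B * x * Real.exp Λ * (∫ t : ℝ, (1 + |t|) ^ (-(2 : ℝ)))) * (x * Real.exp (-Λ)) ^ c)) atTop (𝓝 0) := by
      have hy : x * Real.exp (-Λ) < 1 := by
        rw [Real.exp_neg, ← div_eq_mul_inv, div_lt_one (Real.exp_pos _)]
        exact hxΛ
      have h1 := tendsto_rpow_atTop_of_base_lt_one (x * Real.exp (-Λ)) (by have : 0 < x * Real.exp (-Λ) := by positivity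
                                                                           linarith) hy
      have h2 := (h1.const_mul (12 * B * x * Real.exp Λ * (∫ t : ℝ, (1 + |t|) ^ (-(2 : ℝ))))).const_mul ((2 * Real.pi)⁻¹)
      simpa using h2
    have h3 : ‖LI 2 E‖ ≤ 0 := by
      refine ge_of_tendsto hlim ?_
      filter_upwards [eventually_ge_atTop 2] with c hc
      rw [hshift c hc]
      exact hbd c hc
    exact norm_le_zero_iff.1 h3
  have hmain : ∀ s : ℂ, 2 ≤ s.re → (x : ℂ) ^ (s + 1) * Z K W s / (s * (s + 1))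
      = (x : ℂ) ^ (s + 1) * Q K W Λ s / ((s - 1) * (s + 1)) + E s := by
    intro s hs
    obtain ⟨n1, n2, n3⟩ := hne s hs
    have e1 : Z K W s = Q K W Λ s * Complex.exp (tr 0 Λ s) := by
      unfold Q
      rw [mul_assoc, ← Complex.exp_add]
      simp
    simp only [hE, e1]
    field_simp
    ring
  rw [riesz_line K W hW hx0 two_pos]
  have e2 : LI 2 (fun s => (x : ℂ) ^ (s + 1) * Z K W s / (s * (s + 1)))
      = LI 2 (fun s => (x : ℂ) ^ (s + 1) * Q K W Λ s / ((s - 1) * (s + 1)) + E s) := by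
    unfold LI
    congr 1
    apply integral_congr_ae
    filter_upwards with t
    exact hmain _ (by simp)
  have i1 : Integrable fun t : ℝ => (fun s : ℂ => (x : ℂ) ^ (s + 1) * Q K W Λ s / ((s - 1) * (s + 1))) ((2 : ℝ) + t * Complex.I) := by
    refine line_int (H := fun s : ℂ => (x : ℂ) ^ (s + 1) * Q K W Λ s / ((s - 1) * (s + 1))) (a := 2) (B := x ^ (3 : ℝ) * B * 4) (p := 2) (by norm_num) (fun s hs => ?_) fun s hs => ?_
    · obtain ⟨n1, n2, n3⟩ := hne s hs.ge
      have j1 : DifferentiableAt ℂ (fun s : ℂ => (s - 1) * (s + 1)) s := by fun_prop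
      have j2 : DifferentiableAt ℂ (fun s : ℂ => (x : ℂ) ^ (s + 1) * Q K W Λ s) s :=
        (cpow_diff hx0 s).fun_mul (Q_diff K hW Λ (by linarith))
      exact (j2.fun_div j1 (mul_ne_zero n2 n3)).continuousAt
    · have k1 := norm_sub_one_ge' hs.ge
      have k2 := norm_add_one_ge (s := s) (by linarith)
      have hp : 0 < 1 + |s.im| := by positivity
      rw [norm_div, norm_mul, norm_mul, norm_cpow_x hx0, Real.rpow_neg hp.le, Real.rpow_two, hs]
      have e3 : (2 : ℝ) + 1 = 3 := by norm_num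
      rw [e3]
      have k4 : x ^ (3 : ℝ) * ‖Q K W Λ s‖ / (‖s - 1‖ * ‖s + 1‖) ≤ x ^ (3 : ℝ) * B / (((1 + |s.im|) / 2) * ((1 + |s.im|) / 2)) := by
        have := hQ s hs.ge
        gcongr
      refine k4.trans (le_of_eq ?_)
      field_simp
      ring
  have i2 : Integrable fun t : ℝ => E ((2 : ℝ) + t * Complex.I) := by
    refine line_int (a := 2) (B := x ^ (3 : ℝ) * B * 4 * (3 * Real.exp (-((2 - 1) * Λ)))) (p := 2) (by norm_num)
      (fun s hs => (hEd s hs.ge).continuousAt) fun s hs => ?_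
    have := hEb s hs.ge
    rw [hs] at this
    have e3 : (2 : ℝ) + 1 = 3 := by norm_num
    rw [e3] at this
    exact this
  rw [e2, LI_add i1 i2, hE0, add_zero]

theorem det (K : ℕ) (W : ℕ → ℝ) (hW : ∀ k, 0 < W k) {x Λ σ : ℝ} (hx : 1 < x) (hxΛ : x < Real.exp Λ)
    (hσ : 0 < σ) (hσ1 : σ < 1) :
    (Rz K W x : ℂ) = Q K W Λ 1 * (x : ℂ) ^ 2 / 2 +
      LI σ (fun s => (x : ℂ) ^ (s + 1) * Q K W Λ s / ((s - 1) * (s + 1))) := by
  have hx0 : 0 < x := by linarith
  have hΛ : 0 < Λ := by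
    by_contra hcon
    have := Real.exp_le_one_iff.2 (not_lt.1 hcon)
    linarith
  rw [det_right K W hW hx hxΛ]
  obtain ⟨B, hB, hQ⟩ := exists_Q_bound K hW hΛ.le hσ
  set q := Q K W Λ 1 with hq
  set D : ℂ → ℂ := dslope (Q K W Λ) 1 with hD
  have hDs : ∀ s : ℂ, s ≠ 1 → D s = (Q K W Λ s - q) / (s - 1) := by
    intro s hs
    simp only [hD]
    rw [dslope_of_ne _ hs, slope_def_field]
  have hDd : ∀ s : ℂ, 0 < s.re → DifferentiableAt ℂ D s := by
    have hopen : IsOpen {s : ℂ | 0 < s.re} := isOpen_lt continuous_const Complex.continuous_re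
    have h1 : DifferentiableOn ℂ (Q K W Λ) {s : ℂ | 0 < s.re} := fun s hs => (Q_diff K hW Λ hs).differentiableWithinAt
    have h2 : DifferentiableOn ℂ D {s : ℂ | 0 < s.re} :=
      (Complex.differentiableOn_dslope (hopen.mem_nhds (by simp))).2 h1
    exact fun s hs => (h2 s hs).differentiableAt (hopen.mem_nhds hs)
  -- a bound for `D` in the strip
  obtain ⟨C, hC0, hC⟩ : ∃ C : ℝ, 0 ≤ C ∧ ∀ s : ℂ, σ ≤ s.re → s.re ≤ 2 → ‖D s‖ ≤ C * (1 + |s.im|)⁻¹ := by
    have hcomp : IsCompact (Icc σ 2 ×ℂ Icc (-1 : ℝ) 1) := isCompact_Icc.reProdIm isCompact_Icc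
    have hcont : ContinuousOn D (Icc σ 2 ×ℂ Icc (-1 : ℝ) 1) := fun s hs => by
      have : 0 < s.re := hσ.trans_le (Complex.mem_reProdIm.1 hs).1.1
      exact (hDd s this).continuousAt.continuousWithinAt
    obtain ⟨C, hC⟩ := hcomp.exists_bound_of_continuousOn hcont
    refine ⟨2 * max C 0 + 4 * B, by positivity, fun s h1 h2 => ?_⟩
    have hp : 0 < 1 + |s.im| := by positivity
    rw [← div_eq_mul_inv, le_div_iff₀ hp]
    by_cases him : |s.im| ≤ 1
    · have h3 := hC s (Complex.mem_reProdIm.2 ⟨⟨h1, h2⟩, abs_le.1 him⟩)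
      have h4 : C ≤ max C 0 := le_max_left _ _
      have h5 : 0 ≤ max C 0 := le_max_right _ _
      calc ‖D s‖ * (1 + |s.im|) ≤ max C 0 * (1 + 1) := by gcongr; exact h3.trans h4
        _ ≤ 2 * max C 0 + 4 * B := by linarith
    · push Not at him
      have hs1 : s ≠ 1 := fun h => by rw [h] at him; simp at him; linarith
      rw [hDs s hs1, norm_div]
      have h3 : |s.im| ≤ ‖s - 1‖ := norm_sub_one_ge
      have h4 : ‖Q K W Λ s - q‖ ≤ B + B := (norm_sub_le _ _).trans (add_le_add (hQ s h1) (hQ 1 (by simpa using hσ1.le)))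
      have h5 : 0 < ‖s - 1‖ := by linarith
      rw [div_mul_eq_mul_div, div_le_iff₀ h5]
      have h6 : 0 ≤ max C 0 := le_max_right _ _
      calc ‖Q K W Λ s - q‖ * (1 + |s.im|) ≤ (B + B) * (‖s - 1‖ + ‖s - 1‖) := by gcongr; linarith
        _ ≤ (2 * max C 0 + 4 * B) * ‖s - 1‖ := by nlinarith
  set H : ℂ → ℂ := fun s => (x : ℂ) ^ (s + 1) * D s / (s + 1) with hH
  have hn1 : ∀ s : ℂ, 0 < s.re → s + 1 ≠ 0 := fun s hs h => by
    have := congrArg Complex.re h
    simp only [Complex.add_re, Complex.one_re, Complex.zero_re] at this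
    linarith
  have hHd : ∀ s : ℂ, 0 < s.re → DifferentiableAt ℂ H s := fun s hs =>
    DifferentiableAt.fun_div ((cpow_diff hx0 s).fun_mul (hDd s hs)) (by fun_prop) (hn1 s hs)
  have hHb : ∀ s : ℂ, σ ≤ s.re → s.re ≤ 2 → ‖H s‖ ≤ x ^ (3 : ℝ) * C * 2 * (1 + |s.im|) ^ (-(2 : ℝ)) := by
    intro s h1 h2
    have k2 := norm_add_one_ge (s := s) (by linarith)
    have k3 := hC s h1 h2
    have hp : 0 < 1 + |s.im| := by positivity
    simp only [hH]
    rw [norm_div, norm_mul, norm_cpow_x hx0, Real.rpow_neg hp.le, Real.rpow_two]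
    have j1 : x ^ (s.re + 1) ≤ x ^ (3 : ℝ) := Real.rpow_le_rpow_of_exponent_le hx.le (by linarith)
    calc x ^ (s.re + 1) * ‖D s‖ / ‖s + 1‖ ≤ x ^ (3 : ℝ) * (C * (1 + |s.im|)⁻¹) / ((1 + |s.im|) / 2) := by gcongr
      _ = x ^ (3 : ℝ) * C * 2 * ((1 + |s.im|) ^ 2)⁻¹ := by field_simp
  have hsh : LI σ H = LI 2 H := shift (B := x ^ (3 : ℝ) * C * 2) (p := 2) (by norm_num) (by linarith)
    (fun s h1 _ => hHd s (by linarith)) hHb
  -- splitting on a line
  have hint : ∀ c : ℝ, σ ≤ c → c ≤ 2 → Integrable fun t : ℝ => H (c + t * Complex.I) := by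
    intro c h1 h2
    exact line_int (a := c) (B := x ^ (3 : ℝ) * C * 2) (p := 2) (by norm_num) (fun s hs => (hHd s (by linarith)).continuousAt)
      fun s hs => hHb s (by linarith) (by linarith)
  have hker : ∀ c : ℝ, 0 < c → c ≠ 1 → Integrable fun t : ℝ => (fun s : ℂ => q * ((x : ℂ) ^ (s + 1) / ((s - 1) * (s + 1)))) (c + t * Complex.I) := by
    intro c h0 h1
    have h2 := int_ker (σ := c) (a := 1) (b := -1) h1 (by linarith)
    have h3 : Integrable fun t : ℝ => (x : ℂ) ^ ((c + t * Complex.I : ℂ) + 1) * (1 / (((c + t * Complex.I : ℂ) - (1 : ℝ)) * ((c + t * Complex.I : ℂ) - (-1 : ℝ)))) := by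
      refine h2.bdd_mul (c := x ^ (c + 1)) ?_ ?_
      · have : Continuous fun t : ℝ => (x : ℂ) ^ ((c + t * Complex.I : ℂ) + 1) := by
          have hx' : (x : ℂ) ≠ 0 := by exact_mod_cast hx0.ne'
          exact Continuous.const_cpow (by fun_prop) (Or.inl hx')
        exact this.aestronglyMeasurable
      · filter_upwards with t
        rw [norm_cpow_x hx0]
        simp
    have h4 := h3.const_mul q
    refine h4.congr (Filter.Eventually.of_forall fun t => ?_)
    dsimp only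
    push_cast
    rw [sub_neg_eq_add]
    ring
  have hsplit : ∀ c : ℝ, σ ≤ c → c ≤ 2 → c ≠ 1 → LI c (fun s => (x : ℂ) ^ (s + 1) * Q K W Λ s / ((s - 1) * (s + 1)))
      = LI c H + q * LI c (fun s => (x : ℂ) ^ (s + 1) / ((s - 1) * (s + 1))) := by
    intro c h1 h2 h3
    rw [← LI_const_mul, ← LI_add (hint c h1 h2) (hker c (by linarith) h3)]
    unfold LI
    congr 1
    apply integral_congr_ae
    filter_upwards with t
    have hre : ((c : ℂ) + t * Complex.I).re = c := by simp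
    have hs1 : (c : ℂ) + t * Complex.I ≠ 1 := fun h => h3 (by rw [← hre, h]; simp)
    have n1 := hn1 ((c : ℂ) + t * Complex.I) (by rw [hre]; linarith)
    have n2 : (c : ℂ) + t * Complex.I - 1 ≠ 0 := sub_ne_zero.2 hs1
    simp only [hH]
    rw [hDs _ hs1]
    field_simp
    ring
  have m2 := mel2 hx (σ := 2) (by norm_num)
  have m3 := mel3 hx hσ hσ1
  rw [hsplit 2 (by linarith) le_rfl (by norm_num), hsplit σ le_rfl (by linarith) hσ1.ne, m2, m3, hsh]
  push_cast
  ring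

end Pool.Agent.H41.BC
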