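import Pool.Agent.H41.BC.Qlim2
import Pool.Agent.H41.BC.Det
import Pool.Agent.H41.BC.Cnt

/-! # Project BC: the error term on the line `Re s = σ` -/

set_option autoImplicit false

open MeasureTheory Filter Topology Set ProbabilityTheory

namespace Pool.Agent.H41.BC

lemma Z_ne {W : ℝ} (hW : 0 < W) {s : ℂ} (hs : 0 < s.re) : ‖Complex.exp (-(s * W))‖ < 1 := by
  rw [Complex.norm_exp]
  have : (-(s * (W : ℂ))).re = -(s.re * W) := by simp
  rw [this, Real.exp_lt_one_iff]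
  have := mul_pos hs hW
  linarith

lemma Q_bdd (K : ℕ) {W : ℕ → ℝ} (hW : ∀ k, 0 < W k) {Λ : ℝ} (hΛ : 0 ≤ Λ) {σ : ℝ} (hσ : 0 < σ) :
    ∃ M : ℝ, 0 ≤ M ∧ ∀ s : ℂ, s.re = σ → ‖Q K W Λ s‖ ≤ M := by
  refine ⟨(∏ k ∈ Finset.range K, (1 - Real.exp (-(σ * W k)))⁻¹) *
    Real.exp (∫ v in (0:ℝ)..Λ, |g v| * Real.exp (-(σ * v))), ?_, fun s hs => ?_⟩
  · refine mul_nonneg (Finset.prod_nonneg fun k _ => inv_nonneg.2 ?_) (Real.exp_pos _).le
    have : Real.exp (-(σ * W k)) ≤ 1 := Real.exp_le_one_iff.2 (by have := mul_pos hσ (hW k); linarith)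
    linarith
  · rw [Q, norm_mul, Z, norm_prod]
    refine mul_le_mul (Finset.prod_le_prod (fun k _ => norm_nonneg _) fun k _ => ?_) ?_ (norm_nonneg _) ?_
    · rw [norm_inv]
      have h1 : ‖Complex.exp (-(s * W k))‖ = Real.exp (-(σ * W k)) := by
        rw [Complex.norm_exp]; congr 1; simp [hs]
      have h2 : Real.exp (-(σ * W k)) < 1 := Real.exp_lt_one_iff.2 (by have := mul_pos hσ (hW k); linarith)
      refine inv_anti₀ (by linarith) ?_
      have h3 := norm_sub_norm_le (1 : ℂ) (Complex.exp (-(s * W k)))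
      rw [norm_one, h1] at h3
      exact h3
    · rw [Complex.norm_exp]
      refine Real.exp_le_exp.2 ((Complex.re_le_norm _).trans ?_)
      rw [norm_neg, ← hs]
      exact tr_norm hΛ s
    · refine Finset.prod_nonneg fun k _ => inv_nonneg.2 ?_
      have : Real.exp (-(σ * W k)) ≤ 1 := Real.exp_le_one_iff.2 (by have := mul_pos hσ (hW k); linarith)
      linarith

lemma Q_cont (K : ℕ) {W : ℕ → ℝ} (hW : ∀ k, 0 < W k) (Λ : ℝ) {s : ℂ} (hs : 0 < s.re) :
    ContinuousAt (Q K W Λ) s := by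
  have h1 : ContinuousAt (Z K W) s := by
    have : Z K W = fun s => ∏ k ∈ Finset.range K, (1 - Complex.exp (-(s * W k)))⁻¹ := rfl
    rw [this]
    refine tendsto_finsetProd _ fun k _ => ?_
    refine Tendsto.inv₀ ?_ ?_
    · exact (by fun_prop : Continuous fun s : ℂ => 1 - Complex.exp (-(s * W k))).continuousAt
    · intro h0
      have h2 := Z_ne (hW k) hs
      have h3 : Complex.exp (-(s * W k)) = 1 := by linear_combination -h0
      rw [h3, norm_one] at h2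
      exact lt_irrefl _ h2
  exact h1.mul (((tr_diff 0 Λ).continuous.neg.cexp).continuousAt)

/-- the two bounds, interpolated -/
lemma cp_bound {x y : ℝ} (hx : 0 < x) (hxy : x ≤ y) {σ : ℝ} (hσ : 0 < σ) {δ : ℝ} (hδ : 0 ≤ δ) (hδ1 : δ ≤ 1)
    {s : ℂ} (hs : s.re = σ) :
    ‖((y : ℂ) ^ (s + 1) - (x : ℂ) ^ (s + 1)) / (s + 1)‖ ≤
      ((y - x) * y ^ σ) ^ (1 - δ) * (2 * y ^ (σ + 1) / ‖s + 1‖) ^ δ := by
  have hy : 0 < y := hx.trans_le hxy
  have hs1 : s + 1 ≠ 0 := by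
    intro h
    have := congrArg Complex.re h
    simp [hs] at this
    linarith
  set u := ‖((y : ℂ) ^ (s + 1) - (x : ℂ) ^ (s + 1)) / (s + 1)‖ with hu
  have h1 : u ≤ (y - x) * y ^ σ := by
    have e : ((y : ℂ) ^ (s + 1) - (x : ℂ) ^ (s + 1)) / (s + 1) = ∫ v in x..y, (v : ℂ) ^ s := by
      rw [integral_cpow]
      left
      rw [hs]; linarith
    rw [hu, e]
    have := intervalIntegral.norm_integral_le_of_norm_le_const (a := x) (b := y) (C := y ^ σ)
      (f := fun v : ℝ => (v : ℂ) ^ s) ?_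
    · rw [abs_of_nonneg (by linarith)] at this
      linarith
    · intro v hv
      rw [uIoc_of_le hxy] at hv
      rw [Complex.norm_cpow_eq_rpow_re_of_pos (hx.trans hv.1), hs]
      exact Real.rpow_le_rpow (hx.trans hv.1).le hv.2 hσ.le
  have h2 : u ≤ 2 * y ^ (σ + 1) / ‖s + 1‖ := by
    rw [hu, norm_div]
    refine div_le_div_of_nonneg_right ?_ (norm_nonneg _)
    refine (norm_sub_le _ _).trans ?_
    rw [Complex.norm_cpow_eq_rpow_re_of_pos hy, Complex.norm_cpow_eq_rpow_re_of_pos hx]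
    simp only [Complex.add_re, Complex.one_re, hs]
    have := Real.rpow_le_rpow hx.le hxy (by linarith : 0 ≤ σ + 1)
    linarith
  have hu0 : 0 ≤ u := norm_nonneg _
  rcases hu0.eq_or_lt with h0 | h0
  · rw [← h0]
    have : 0 ≤ (y - x) * y ^ σ := hu0.trans h1
    positivity
  · calc u = u ^ (1 - δ) * u ^ δ := by rw [← Real.rpow_add h0]; simp
      _ ≤ _ := mul_le_mul (Real.rpow_le_rpow hu0 h1 (by linarith)) (Real.rpow_le_rpow hu0 h2 hδ)
          (Real.rpow_nonneg hu0 _) (Real.rpow_nonneg (hu0.trans h1) _)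

lemma w_bound {σ δ : ℝ} (hσ : 0 < σ) (hσ1 : σ < 1) (hδ : 0 ≤ δ) (t : ℝ) :
    1 / (‖((σ : ℂ) + t * Complex.I) - 1‖ * ‖((σ : ℂ) + t * Complex.I) + 1‖ ^ δ) ≤
      2 / (1 - σ) * 2 ^ δ * (1 + |t|) ^ (-(1 + δ)) := by
  have h1 : (1 - σ) / 2 * (1 + |t|) ≤ ‖((σ : ℂ) + t * Complex.I) - 1‖ := by
    have ha := Complex.abs_re_le_norm (((σ : ℂ) + t * Complex.I) - 1)
    have hb := Complex.abs_im_le_norm (((σ : ℂ) + t * Complex.I) - 1)
    simp at ha hb
    rw [abs_sub_comm, abs_of_pos (by linarith)] at ha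
    nlinarith [abs_nonneg t]
  have h2 : (1 + |t|) / 2 ≤ ‖((σ : ℂ) + t * Complex.I) + 1‖ := by
    have ha := Complex.abs_re_le_norm (((σ : ℂ) + t * Complex.I) + 1)
    have hb := Complex.abs_im_le_norm (((σ : ℂ) + t * Complex.I) + 1)
    simp at ha hb
    rw [abs_of_pos (by linarith)] at ha
    linarith
  have ht : 0 < 1 + |t| := by positivity
  have h3 : ((1 + |t|) / 2) ^ δ ≤ ‖((σ : ℂ) + t * Complex.I) + 1‖ ^ δ := Real.rpow_le_rpow (by positivity) h2 hδ
  have h4 : 0 < (1 - σ) / 2 * (1 + |t|) := by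
    have : 0 < 1 - σ := by linarith
    positivity
  calc 1 / (‖((σ : ℂ) + t * Complex.I) - 1‖ * ‖((σ : ℂ) + t * Complex.I) + 1‖ ^ δ)
      ≤ 1 / (((1 - σ) / 2 * (1 + |t|)) * ((1 + |t|) / 2) ^ δ) := by
        refine one_div_le_one_div_of_le (by positivity) (mul_le_mul h1 h3 (by positivity) (norm_nonneg _))
    _ = 2 / (1 - σ) * 2 ^ δ * (1 + |t|) ^ (-(1 + δ)) := by
        rw [Real.div_rpow ht.le (by norm_num), Real.rpow_neg ht.le, Real.rpow_add ht, Real.rpow_one]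
        have : (1 - σ) ≠ 0 := by linarith
        field_simp


lemma split_pow {a l : ℝ} (ha : 0 ≤ a) (hl : 0 < l) {m : ℕ} (hm : 1 ≤ m) :
    a ≤ l + l * (l ^ (2 * m))⁻¹ * a ^ (2 * m) := by
  rcases le_or_gt a l with h | h
  · have : 0 ≤ l * (l ^ (2 * m))⁻¹ * a ^ (2 * m) := by positivity
    linarith
  · have h1 : 1 ≤ a / l := by rw [one_le_div hl]; exact h.le
    have h2 : a / l ≤ (a / l) ^ (2 * m) := le_self_pow₀ h1 (by omega)
    have h3 : l * (a / l) ≤ l * (a / l) ^ (2 * m) := mul_le_mul_of_nonneg_left h2 hl.le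
    rw [mul_div_cancel₀ _ hl.ne', div_pow] at h3
    have h4 : l * (a ^ (2 * m) / l ^ (2 * m)) = l * (l ^ (2 * m))⁻¹ * a ^ (2 * m) := by
      rw [div_eq_mul_inv]; ring
    linarith

/-- the total mass of the weight -/
noncomputable def w0 (δ : ℝ) : ℝ := ∫ t : ℝ, (1 + |t|) ^ (-(1 + δ))

lemma w0_nonneg (δ : ℝ) : 0 ≤ w0 δ := integral_nonneg fun t => by positivity

theorem E_bound {α β : ℕ → ℝ} {ρ : ℕ → ℝ → ℝ} (H : Cells α β ρ) {W : ℕ → ℝ} (hW : ∀ k, 0 < W k) {K : ℕ}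
    {x y σ δ l Γ : ℝ} (hx : 1 < x) (hxy : x < y) (hy : y < Real.exp (α K)) (hσ : 0 < σ) (hσ1 : σ < 1)
    (hδ : 0 < δ) (hδ1 : δ ≤ 1) (hl : 0 < l) (hΓ : 0 ≤ Γ) {m : ℕ} (hm : 1 ≤ m)
    (hJ : ∫⁻ t : ℝ, ENNReal.ofReal ((1 + |t|) ^ (-(1 + δ)) * ‖Q K W (α K) (σ + t * Complex.I)‖ ^ (2 * m)) ≤
      ENNReal.ofReal Γ) :
    |Rz K W y - Rz K W x - q1 α W K * (y ^ 2 - x ^ 2) / 2| ≤
      (2 / (1 - σ) * 2 ^ δ) * (((y - x) * y ^ σ) ^ (1 - δ) * (2 * y ^ (σ + 1)) ^ δ) *
        (l * w0 δ + l * (l ^ (2 * m))⁻¹ * Γ) := by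
  have hα : 0 ≤ α K := by linarith [H.four_le K]
  obtain ⟨M, hM0, hM⟩ := Q_bdd K hW hα hσ
  have hy1 : 1 < y := hx.trans hxy
  -- integrability
  have hH : ∀ z : ℝ, 1 < z → Integrable (fun t : ℝ => (z : ℂ) ^ ((σ + t * Complex.I : ℂ) + 1) *
      Q K W (α K) (σ + t * Complex.I) / (((σ + t * Complex.I : ℂ) - 1) * ((σ + t * Complex.I : ℂ) + 1))) := by
    intro z hz
    refine line_int (H := fun s => (z : ℂ) ^ (s + 1) * Q K W (α K) s / ((s - 1) * (s + 1))) (a := σ)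
      (p := 1 + 1) (B := z ^ (σ + 1) * M * (2 / (1 - σ) * 2 ^ (1:ℝ))) (by norm_num) ?_ ?_
    · intro s hs
      have h1 : s - 1 ≠ 0 := by
        intro h; have := congrArg Complex.re h; simp [hs] at this; linarith
      have h2 : s + 1 ≠ 0 := by
        intro h; have := congrArg Complex.re h; simp [hs] at this; linarith
      refine ContinuousAt.div (ContinuousAt.mul ?_ (Q_cont K hW (α K) (by rw [hs]; exact hσ))) (by fun_prop)
        (mul_ne_zero h1 h2)
      exact ContinuousAt.const_cpow (by fun_prop) (Or.inl (by exact_mod_cast (by linarith : z ≠ 0)))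
    · intro s hs
      have hse : s = (σ : ℂ) + s.im * Complex.I := by
        apply Complex.ext <;> simp [hs]
      have hw := w_bound hσ hσ1 (zero_le_one) s.im
      rw [← hse, Real.rpow_one] at hw
      rw [norm_div, norm_mul, norm_mul, Complex.norm_cpow_eq_rpow_re_of_pos (by linarith : 0 < z)]
      simp only [Complex.add_re, Complex.one_re, hs]
      calc z ^ (σ + 1) * ‖Q K W (α K) s‖ / (‖s - 1‖ * ‖s + 1‖) =
            (z ^ (σ + 1) * ‖Q K W (α K) s‖) * (1 / (‖s - 1‖ * ‖s + 1‖)) := by ring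
        _ ≤ (z ^ (σ + 1) * M) * (2 / (1 - σ) * 2 ^ (1:ℝ) * (1 + |s.im|) ^ (-(1 + 1 : ℝ))) := by
            refine mul_le_mul (mul_le_mul_of_nonneg_left (hM s hs) (by positivity)) hw (by positivity) (by positivity)
        _ = _ := by ring
  -- the majorant
  set w : ℝ → ℝ := fun t => (1 + |t|) ^ (-(1 + δ)) with hw
  have hwi : Integrable w := decay_int (by linarith)
  have hw0 : ∀ t, 0 ≤ w t := fun t => by simp only [hw]; positivity
  set F : ℝ → ℝ := fun t => w t * ‖Q K W (α K) (σ + t * Complex.I)‖ ^ (2 * m) with hF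
  have hQc : Continuous fun t : ℝ => Q K W (α K) (σ + t * Complex.I) :=
    line_cont (a := σ) fun s hs => Q_cont K hW (α K) (by rw [hs]; exact hσ)
  have hwc : Continuous w := by
    simp only [hw]
    exact (by fun_prop : Continuous fun t : ℝ => 1 + |t|).rpow_const fun t => Or.inl (by positivity)
  have hFi : Integrable F := by
    refine Integrable.mono' (hwi.mul_const (M ^ (2 * m))) (hwc.mul (hQc.norm.pow _)).aestronglyMeasurable
      (ae_of_all _ fun t => ?_)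
    simp only [hF]
    rw [Real.norm_eq_abs, abs_of_nonneg (mul_nonneg (hw0 t) (by positivity))]
    exact mul_le_mul_of_nonneg_left (pow_le_pow_left₀ (norm_nonneg _) (hM _ (by simp)) _) (hw0 t)
  have hF0 : ∀ t, 0 ≤ F t := fun t => mul_nonneg (hw0 t) (by positivity)
  have hFΓ : ∫ t, F t ≤ Γ := by
    have h1 := ofReal_integral_eq_lintegral_ofReal hFi (ae_of_all _ hF0)
    rw [← ENNReal.ofReal_le_ofReal_iff hΓ, h1]
    exact hJ
  -- the explicit formulas
  set A0 : ℝ := ((y - x) * y ^ σ) ^ (1 - δ) * (2 * y ^ (σ + 1)) ^ δ with hA0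
  have hA00 : 0 ≤ A0 := by
    have : 0 ≤ y - x := by linarith
    positivity
  set Cw : ℝ := 2 / (1 - σ) * 2 ^ δ with hCw
  have hCw0 : 0 ≤ Cw := by
    have : 0 < 1 - σ := by linarith
    positivity
  have d1 := det K W hW (x := y) (Λ := α K) (σ := σ) hy1 hy hσ hσ1
  have d2 := det K W hW (x := x) (Λ := α K) (σ := σ) hx (hxy.trans hy) hσ hσ1
  rw [Q_one] at d1 d2
  have e1 : ((Rz K W y - Rz K W x - q1 α W K * (y ^ 2 - x ^ 2) / 2 : ℝ) : ℂ) =
      LI σ (fun s => (y : ℂ) ^ (s + 1) * Q K W (α K) s / ((s - 1) * (s + 1))) -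
      LI σ (fun s => (x : ℂ) ^ (s + 1) * Q K W (α K) s / ((s - 1) * (s + 1))) := by
    push_cast
    rw [d1, d2]
    ring
  have e2 : LI σ (fun s => (y : ℂ) ^ (s + 1) * Q K W (α K) s / ((s - 1) * (s + 1))) -
      LI σ (fun s => (x : ℂ) ^ (s + 1) * Q K W (α K) s / ((s - 1) * (s + 1))) =
      LI σ (fun s => ((y : ℂ) ^ (s + 1) - (x : ℂ) ^ (s + 1)) / (s + 1) * Q K W (α K) s / (s - 1)) := by
    unfold LI
    rw [← mul_sub, ← integral_sub (hH y hy1) (hH x hx)]
    congr 1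
    refine integral_congr_ae (ae_of_all _ fun t => ?_)
    simp only []
    have h1 : ((σ : ℂ) + t * Complex.I) - 1 ≠ 0 := by
      intro h; have := congrArg Complex.re h; simp at this; linarith
    have h2 : ((σ : ℂ) + t * Complex.I) + 1 ≠ 0 := by
      intro h; have := congrArg Complex.re h; simp at this; linarith
    field_simp
  rw [← Real.norm_eq_abs, ← Complex.norm_real, e1, e2]
  set G : ℝ → ℝ := fun t => A0 * Cw * (l * w t + l * (l ^ (2 * m))⁻¹ * F t) with hG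
  have hGi : Integrable G := ((hwi.const_mul _).add (hFi.const_mul _)).const_mul _
  refine (norm_LI_le hGi fun t => ?_).trans ?_
  · have hcp := cp_bound (by linarith : 0 < x) hxy.le hσ hδ.le hδ1 (s := σ + t * Complex.I) (by simp)
    have hwb := w_bound hσ hσ1 hδ.le t
    rw [norm_div, norm_mul]
    set s : ℂ := (σ : ℂ) + t * Complex.I with hs
    have hsn : 0 < ‖s + 1‖ := by
      refine norm_pos_iff.2 ?_
      intro h; have := congrArg Complex.re h; simp [hs] at this; linarith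
    have e3 : ((y - x) * y ^ σ) ^ (1 - δ) * (2 * y ^ (σ + 1) / ‖s + 1‖) ^ δ = A0 / ‖s + 1‖ ^ δ := by
      rw [Real.div_rpow (by positivity) hsn.le, hA0]; ring
    rw [e3] at hcp
    calc ‖((y : ℂ) ^ (s + 1) - (x : ℂ) ^ (s + 1)) / (s + 1)‖ * ‖Q K W (α K) s‖ / ‖s - 1‖
        ≤ (A0 / ‖s + 1‖ ^ δ) * ‖Q K W (α K) s‖ / ‖s - 1‖ :=
          div_le_div_of_nonneg_right (mul_le_mul_of_nonneg_right hcp (norm_nonneg _)) (norm_nonneg _)
      _ = A0 * ‖Q K W (α K) s‖ * (1 / (‖s - 1‖ * ‖s + 1‖ ^ δ)) := by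
          rw [one_div, mul_inv]; ring
      _ ≤ A0 * ‖Q K W (α K) s‖ * (Cw * w t) := mul_le_mul_of_nonneg_left hwb (by positivity)
      _ = A0 * Cw * (w t * ‖Q K W (α K) s‖) := by ring
      _ ≤ G t := by
          simp only [hG]
          refine mul_le_mul_of_nonneg_left ?_ (by positivity)
          have h5 := mul_le_mul_of_nonneg_left (split_pow (norm_nonneg (Q K W (α K) s)) hl hm) (hw0 t)
          simp only [hF]
          linarith
  · have e4 : ∫ t, G t = A0 * Cw * (l * w0 δ + l * (l ^ (2 * m))⁻¹ * ∫ t, F t) := by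
      simp only [hG]
      rw [integral_const_mul, integral_add (hwi.const_mul _) (hFi.const_mul _), integral_const_mul,
        integral_const_mul]
      rfl
    rw [e4]
    have h6 : 0 ≤ l * w0 δ := mul_nonneg hl.le (w0_nonneg δ)
    have h7 : l * (l ^ (2 * m))⁻¹ * ∫ t, F t ≤ l * (l ^ (2 * m))⁻¹ * Γ :=
      mul_le_mul_of_nonneg_left hFΓ (by positivity)
    have h8 : 0 ≤ ∫ t, F t := integral_nonneg hF0
    have h9 : (2 * Real.pi)⁻¹ ≤ 1 := inv_le_one_of_one_le₀ (by linarith [Real.pi_gt_three])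
    have h10 : 0 ≤ l * (l ^ (2 * m))⁻¹ * ∫ t, F t := by positivity
    calc (2 * Real.pi)⁻¹ * (A0 * Cw * (l * w0 δ + l * (l ^ (2 * m))⁻¹ * ∫ t, F t))
        ≤ 1 * (A0 * Cw * (l * w0 δ + l * (l ^ (2 * m))⁻¹ * Γ)) := by
          refine mul_le_mul h9 (mul_le_mul_of_nonneg_left (by linarith) (by positivity)) (by positivity) zero_le_one
      _ = _ := by ring

end Pool.Agent.H41.BC
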