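import Pool.Agent.H41.BC.G

/-! # Project BC, stub BC-FRU: the transform of the template (helper82) -/

set_option autoImplicit false

open MeasureTheory Filter Topology Set

namespace Pool.Agent.H41.BC

lemma tr_cont (s : ℂ) : Continuous fun v : ℝ => (g v : ℂ) * Complex.exp (-(s * v)) :=
  (Complex.continuous_ofReal.comp g_cont).mul (by fun_prop)

theorem tr_diff (a b : ℝ) : Differentiable ℂ (tr a b) := by
  intro s
  unfold tr
  have key := intervalIntegral.hasDerivAt_integral_of_dominated_loc_of_deriv_le (𝕜 := ℂ) (μ := volume)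
    (a := a) (b := b) (x₀ := s) (s := Metric.ball s 1)
    (F := fun s v => (g v : ℂ) * Complex.exp (-(s * v)))
    (F' := fun s v => (g v : ℂ) * (Complex.exp (-(s * v)) * (-v)))
    (bound := fun v => |g v| * (Real.exp ((|s.re| + 1) * |v|) * |v|))
    (Metric.ball_mem_nhds s one_pos)
    (Eventually.of_forall fun s => (tr_cont s).aestronglyMeasurable)
    ((tr_cont s).intervalIntegrable _ _)
    (Continuous.aestronglyMeasurable
      ((Complex.continuous_ofReal.comp g_cont).mul (by fun_prop)))
    (Eventually.of_forall fun v _ x hx => by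
      rw [norm_mul, norm_mul, Complex.norm_exp, norm_neg, Complex.norm_real, Complex.norm_real,
        Real.norm_eq_abs, Real.norm_eq_abs]
      refine mul_le_mul_of_nonneg_left (mul_le_mul_of_nonneg_right ?_ (abs_nonneg _)) (abs_nonneg _)
      apply Real.exp_le_exp.2
      have h1 : (-(x * (v : ℂ))).re = -(x.re * v) := by simp
      rw [h1]
      have h2 : |x.re| ≤ |s.re| + 1 := by
        have h3 : |x.re - s.re| ≤ ‖x - s‖ := by
          rw [← Complex.sub_re]; exact Complex.abs_re_le_norm _
        have h4 : ‖x - s‖ < 1 := by rwa [Metric.mem_ball, dist_eq_norm] at hx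
        have h5 : |x.re| ≤ |x.re - s.re| + |s.re| := by
          have := abs_add_le (x.re - s.re) s.re
          simpa using this
        linarith
      calc -(x.re * v) ≤ |x.re * v| := neg_le_abs _
        _ = |x.re| * |v| := abs_mul _ _
        _ ≤ (|s.re| + 1) * |v| := mul_le_mul_of_nonneg_right h2 (abs_nonneg _))
    (Continuous.intervalIntegrable ((g_cont.abs).mul (by fun_prop)) _ _)
    (Eventually.of_forall fun v _ x _ => by
      have h1 : HasDerivAt (fun x : ℂ => -(x * (v : ℂ))) (-(v : ℂ)) x := by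
        have h2 := ((hasDerivAt_id x).mul_const (v : ℂ)).fun_neg
        simpa using h2
      exact (h1.cexp).const_mul _)
  exact key.2.differentiableAt

theorem tr_norm {a b : ℝ} (hab : a ≤ b) (s : ℂ) :
    ‖tr a b s‖ ≤ ∫ v in a..b, |g v| * Real.exp (-(s.re * v)) := by
  unfold tr
  refine (intervalIntegral.norm_integral_le_integral_norm hab).trans (le_of_eq ?_)
  refine intervalIntegral.integral_congr fun v _ => ?_
  rw [norm_mul, Complex.norm_exp, Complex.norm_real, Real.norm_eq_abs]
  congr 2
  simp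

theorem tr_add (a b c : ℝ) (s : ℂ) : tr a b s + tr b c s = tr a c s :=
  intervalIntegral.integral_add_adjacent_intervals ((tr_cont s).intervalIntegrable _ _)
    ((tr_cont s).intervalIntegrable _ _)

/-- Fubini -/
lemma tr_fubini {s : ℂ} (hs : 2 ≤ s.re) (Λ : ℝ) :
    tr 0 Λ s = ∫ θ in (0 : ℝ)..1, (1 - Complex.exp (-((s - θ) * Λ))) / (s - θ) := by
  have h0 : tr 0 Λ s = ∫ v in (0 : ℝ)..Λ, ∫ θ in (0 : ℝ)..1, Complex.exp (-((s - θ) * v)) := by
    unfold tr
    refine intervalIntegral.integral_congr fun v _ => ?_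
    unfold g
    rw [← intervalIntegral.integral_ofReal, ← intervalIntegral.integral_mul_const]
    refine intervalIntegral.integral_congr fun θ _ => ?_
    rw [Complex.ofReal_exp, ← Complex.exp_add]
    congr 1
    push_cast
    ring
  rw [h0, intervalIntegral_intervalIntegral_swap]
  · refine intervalIntegral.integral_congr fun θ hθ => ?_
    rw [uIcc_of_le (by norm_num)] at hθ
    have hne : -(s - (θ : ℂ)) ≠ 0 := by
      intro h
      have h1 := congrArg Complex.re h
      simp at h1
      linarith [hθ.2]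
    have h1 : (fun v : ℝ => Complex.exp (-((s - (θ : ℂ)) * (v : ℂ)))) =
        fun v : ℝ => Complex.exp ((-(s - (θ : ℂ))) * (v : ℂ)) := by
      funext v; rw [neg_mul]
    rw [h1, integral_exp_mul_complex hne]
    have hne' : s - (θ : ℂ) ≠ 0 := neg_ne_zero.1 hne
    simp only [Complex.ofReal_zero, mul_zero, Complex.exp_zero]
    rw [div_eq_div_iff hne hne']
    rw [neg_mul]
    ring
  · have hc : Continuous (Function.uncurry fun (v θ : ℝ) => Complex.exp (-((s - (θ : ℂ)) * (v : ℂ)))) := by
      unfold Function.uncurry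
      fun_prop
    refine (hc.continuousOn.integrableOn_compact (K := uIcc 0 Λ ×ˢ uIcc 0 1)
      (isCompact_uIcc.prod isCompact_uIcc)).mono_set ?_
    exact prod_mono uIoc_subset_uIcc uIoc_subset_uIcc

lemma log_int {s : ℂ} (hs : 2 ≤ s.re) :
    ∫ θ in (0 : ℝ)..1, 1 / (s - (θ : ℂ)) = Complex.log s - Complex.log (s - 1) := by
  have hd : ∀ θ ∈ uIcc (0 : ℝ) 1, HasDerivAt (fun θ : ℝ => -Complex.log (s - (θ : ℂ)))
      (1 / (s - (θ : ℂ))) θ := by
    intro θ hθ
    rw [uIcc_of_le (by norm_num)] at hθ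
    have hsl : s - (θ : ℂ) ∈ Complex.slitPlane := by
      left
      simp
      linarith [hθ.2]
    have h1 : HasDerivAt (fun θ : ℝ => s - (θ : ℂ)) (-1) θ := by
      simpa using (Complex.ofRealCLM.hasDerivAt (x := θ)).const_sub s
    have h2 := (h1.clog_real hsl).fun_neg
    rwa [neg_div, neg_neg] at h2
  rw [intervalIntegral.integral_eq_sub_of_hasDerivAt hd]
  · simp
    ring
  · apply ContinuousOn.intervalIntegrable
    intro θ hθ
    rw [uIcc_of_le (by norm_num)] at hθ
    apply ContinuousAt.continuousWithinAt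
    have hne : s - (θ : ℂ) ≠ 0 := by
      intro h
      have h1 := congrArg Complex.re h
      simp at h1
      linarith [hθ.2]
    exact continuousAt_const.div (by fun_prop) hne

theorem fru {s : ℂ} (hs : 2 ≤ s.re) {Λ : ℝ} (hΛ : 0 ≤ Λ) :
    ‖1 - (s - 1) / s * Complex.exp (tr 0 Λ s)‖ ≤ 3 * Real.exp (-((s.re - 1) * Λ)) := by
  have hne : ∀ θ ∈ Icc (0 : ℝ) 1, s - (θ : ℂ) ≠ 0 := by
    intro θ hθ h
    have h1 := congrArg Complex.re h
    simp at h1
    linarith [hθ.2]
  set R : ℂ := ∫ θ in (0 : ℝ)..1, Complex.exp (-((s - θ) * Λ)) / (s - θ) with hR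
  have hi1 : IntervalIntegrable (fun θ : ℝ => 1 / (s - (θ : ℂ))) volume 0 1 := by
    apply ContinuousOn.intervalIntegrable
    intro θ hθ
    rw [uIcc_of_le (by norm_num)] at hθ
    apply ContinuousAt.continuousWithinAt
    exact continuousAt_const.div (by fun_prop) (hne θ hθ)
  have hi2 : IntervalIntegrable (fun θ : ℝ => Complex.exp (-((s - θ) * Λ)) / (s - (θ : ℂ))) volume 0 1 := by
    apply ContinuousOn.intervalIntegrable
    intro θ hθ
    rw [uIcc_of_le (by norm_num)] at hθ
    apply ContinuousAt.continuousWithinAt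
    exact ContinuousAt.div (by fun_prop) (by fun_prop) (hne θ hθ)
  have htr : tr 0 Λ s = (Complex.log s - Complex.log (s - 1)) - R := by
    rw [tr_fubini hs, ← log_int hs, hR, ← intervalIntegral.integral_sub hi1 hi2]
    refine intervalIntegral.integral_congr fun θ _ => ?_
    ring
  have hs0 : s ≠ 0 := by simpa using hne 0 (by simp)
  have hs1 : s - 1 ≠ 0 := by simpa using hne 1 (by simp)
  have h1 : (s - 1) / s * Complex.exp (tr 0 Λ s) = Complex.exp (-R) := by
    rw [htr, sub_eq_add_neg _ R, Complex.exp_add, Complex.exp_sub, Complex.exp_log hs0, Complex.exp_log hs1]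
    field_simp
  set E : ℝ := Real.exp (-((s.re - 1) * Λ)) with hE
  have hRn : ‖R‖ ≤ E := by
    have h2 : ∀ θ ∈ uIoc (0 : ℝ) 1, ‖Complex.exp (-((s - θ) * Λ)) / (s - (θ : ℂ))‖ ≤ E := by
      intro θ hθ
      rw [uIoc_of_le (by norm_num)] at hθ
      rw [norm_div, Complex.norm_exp]
      have h3 : (1 : ℝ) ≤ ‖s - (θ : ℂ)‖ := by
        have h4 := Complex.re_le_norm (s - (θ : ℂ))
        have h5 : (s - (θ : ℂ)).re = s.re - θ := by simp
        rw [h5] at h4
        linarith [hθ.2]
      have h6 : Real.exp (-((s - θ) * Λ) : ℂ).re ≤ E := by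
        apply Real.exp_le_exp.2
        have h7 : (-((s - θ) * Λ) : ℂ).re = -((s.re - θ) * Λ) := by simp
        rw [h7]
        nlinarith [hθ.2]
      calc Real.exp (-((s - θ) * Λ) : ℂ).re / ‖s - (θ : ℂ)‖ ≤ Real.exp (-((s - θ) * Λ) : ℂ).re :=
            div_le_self (Real.exp_pos _).le h3
        _ ≤ E := h6
    have h8 := intervalIntegral.norm_integral_le_of_norm_le_const h2
    simpa using h8
  have hE1 : E ≤ 1 := by
    rw [hE]
    apply Real.exp_le_one_iff.2
    have : 0 ≤ (s.re - 1) * Λ := mul_nonneg (by linarith) hΛ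
    linarith
  rw [h1, norm_sub_rev]
  have h9 := Complex.norm_exp_sub_one_le (x := -R) (by rw [norm_neg]; linarith)
  rw [norm_neg] at h9
  have hE0 : 0 ≤ E := (Real.exp_pos _).le
  linarith

end Pool.Agent.H41.BC
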