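import Pool.Agent.H41.BC.Defs

/-! # Project BC, stub BC-G: the density of the template (helper82) -/

set_option autoImplicit false

open MeasureTheory Filter Topology Set

namespace Pool.Agent.H41.BC

theorem g_eq {v : ℝ} (hv : v ≠ 0) : g v = (Real.exp v - 1) / v := by
  unfold g
  rw [intervalIntegral.integral_comp_mul_right (f := Real.exp) hv, integral_exp]
  simp only [zero_mul, one_mul, Real.exp_zero, smul_eq_mul]
  rw [div_eq_inv_mul]

theorem g_cont : Continuous g := by
  unfold g
  refine intervalIntegral.continuous_parametric_intervalIntegral_of_continuous' ?_ _ _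
  unfold Function.uncurry
  fun_prop

lemma g_int1 (v : ℝ) : IntervalIntegrable (fun θ : ℝ => Real.exp (θ * v)) volume 0 1 :=
  Continuous.intervalIntegrable (by fun_prop) _ _

theorem g_mono : Monotone g := by
  intro a b hab
  unfold g
  refine intervalIntegral.integral_mono_on (by norm_num) (g_int1 a) (g_int1 b) fun θ hθ => ?_
  exact Real.exp_le_exp.2 (mul_le_mul_of_nonneg_left hab hθ.1)

theorem one_le_g {v : ℝ} (hv : 0 ≤ v) : 1 ≤ g v := by
  calc (1 : ℝ) = ∫ _θ in (0 : ℝ)..1, (1 : ℝ) := by simp
    _ ≤ g v := by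
      unfold g
      refine intervalIntegral.integral_mono_on (by norm_num) (by simp) (g_int1 v) fun θ hθ => ?_
      exact Real.one_le_exp (mul_nonneg hθ.1 hv)

theorem g_le {v : ℝ} (hv : 0 ≤ v) : g v ≤ Real.exp v := by
  calc g v ≤ ∫ _θ in (0 : ℝ)..1, Real.exp v := by
        unfold g
        refine intervalIntegral.integral_mono_on (by norm_num) (g_int1 v) (by simp) fun θ hθ => ?_
        exact Real.exp_le_exp.2 (by nlinarith [hθ.1, hθ.2])
    _ = Real.exp v := by simp

lemma g_int (a b : ℝ) : IntervalIntegrable g volume a b := g_cont.intervalIntegrable _ _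

lemma len_le_mass {a b : ℝ} (ha : 0 ≤ a) (hab : a ≤ b) : b - a ≤ ∫ v in a..b, g v := by
  calc b - a = ∫ _v in a..b, (1 : ℝ) := by simp
    _ ≤ ∫ v in a..b, g v :=
      intervalIntegral.integral_mono_on hab (by simp) (g_int a b)
        fun v hv => one_le_g (ha.trans hv.1)

/-- a cell of mass one is short: at most one on the logarithmic scale, at most `2 b` on the other scale -/
theorem cell_exists {a : ℝ} (ha : 4 ≤ a) : ∃ b : ℝ, a < b ∧ b ≤ a + 1 ∧ ∫ v in a..b, g v = 1 := by
  have hc : ContinuousOn (fun b => ∫ v in a..b, g v) (Icc a (a + 1)) := by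
    apply Continuous.continuousOn
    exact intervalIntegral.continuous_primitive (fun x y => g_int x y) a
  have h1 : (1 : ℝ) ∈ Icc (∫ v in a..a, g v) (∫ v in a..(a + 1), g v) := by
    constructor
    · simp
    · have := len_le_mass (a := a) (b := a + 1) (by linarith) (by linarith)
      linarith
  obtain ⟨b, hb, hb1⟩ := intermediate_value_Icc (by linarith) hc h1
  refine ⟨b, lt_of_le_of_ne hb.1 ?_, hb.2, hb1⟩
  rintro rfl
  simp at hb1

theorem cell_len {a b : ℝ} (ha : 4 ≤ a) (hab : a ≤ b) (h : ∫ v in a..b, g v ≤ 1) :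
    b ≤ a + 1 ∧ Real.exp b - Real.exp a ≤ 2 * b := by
  have h1 := len_le_mass (a := a) (b := b) (by linarith) hab
  refine ⟨by linarith, ?_⟩
  have hb : 0 < b := by linarith
  have h2 : ∫ v in a..b, (Real.exp v - 1) / b ≤ ∫ v in a..b, g v := by
    refine intervalIntegral.integral_mono_on hab (Continuous.intervalIntegrable (by fun_prop) _ _)
      (g_int a b) fun v hv => ?_
    have hv0 : 0 < v := by linarith [hv.1]
    rw [g_eq hv0.ne']
    exact div_le_div_of_nonneg_left (by linarith [Real.add_one_le_exp v]) hv0 hv.2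
  have h3 : ∫ v in a..b, (Real.exp v - 1) / b = (Real.exp b - Real.exp a - (b - a)) / b := by
    rw [intervalIntegral.integral_div, intervalIntegral.integral_sub
      (Continuous.intervalIntegrable (by fun_prop) _ _) (by simp), integral_exp]
    simp
  rw [h3] at h2
  have h4 : (Real.exp b - Real.exp a - (b - a)) / b ≤ 1 := h2.trans h
  rw [div_le_one hb] at h4
  linarith

end Pool.Agent.H41.BC
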