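import Pool.Agent.H41.BC.SysB

/-! # Project BC: the largest gap -/

set_option autoImplicit false

open MeasureTheory Filter Topology Set

namespace Pool.Agent.H41.BC

namespace GapAux

open SysB

variable {h : ℝ → ℝ} {α β : ℕ → ℝ}

/-- the numbers `√j` are close to each other -/
theorem sqrt_close {η : ℝ} (hη : 0 < η) : ∀ᶠ L : ℝ in atTop, ∃ j : ℕ, √(j : ℝ) ≤ L ∧ L - η ≤ √(j : ℝ) := by
  filter_upwards [eventually_ge_atTop (max (2 * η) (1 / η))] with L hL
  have h1 : 2 * η ≤ L := (le_max_left _ _).trans hL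
  have h2 : 1 / η ≤ L := (le_max_right _ _).trans hL
  rw [div_le_iff₀ hη] at h2
  have hL0 : 0 < L := by linarith
  refine ⟨⌊L ^ 2⌋₊, ?_, ?_⟩
  · rw [Real.sqrt_le_left hL0.le]
    exact Nat.floor_le (by positivity)
  · apply Real.le_sqrt_of_sq_le
    have h3 := Nat.lt_floor_add_one (L ^ 2)
    nlinarith

/-- consecutive cells are close to each other -/
theorem step {η : ℝ} (hη : 0 < η) : ∀ᶠ b : ℝ in atTop,
    √(Real.exp b) + 2 * (b + 2) ≤ η * Real.exp b := by
  have h1 : Tendsto (fun b : ℝ => b ^ 1 * Real.exp (-b)) atTop (𝓝 0) :=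
    Real.tendsto_pow_mul_exp_neg_atTop_nhds_zero 1
  have h2 : Tendsto (fun b : ℝ => Real.exp (-b)) atTop (𝓝 0) :=
    Real.tendsto_exp_neg_atTop_nhds_zero
  have h3 : Tendsto (fun b : ℝ => Real.exp (-(b / 2))) atTop (𝓝 0) :=
    Real.tendsto_exp_neg_atTop_nhds_zero.comp (tendsto_id.atTop_div_const (by norm_num))
  have h4 : Tendsto (fun b : ℝ => Real.exp (-(b / 2)) + (2 * (b ^ 1 * Real.exp (-b)) +
      4 * Real.exp (-b))) atTop (𝓝 (0 + (2 * 0 + 4 * 0))) :=
    h3.add ((h1.const_mul 2).add (h2.const_mul 4))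
  have h5 : (0 : ℝ) + (2 * 0 + 4 * 0) < η := by linarith
  filter_upwards [h4.eventually_lt_const h5] with b hb
  have e1 : √(Real.exp b) = Real.exp (-(b / 2)) * Real.exp b := by
    rw [← Real.exp_add, Real.sqrt_eq_iff_mul_self_eq (Real.exp_pos _).le (Real.exp_pos _).le,
      ← Real.exp_add]
    congr 1
    ring
  have e2 : Real.exp (-b) * Real.exp b = 1 := by
    rw [← Real.exp_add, neg_add_cancel, Real.exp_zero]
  have h6 := mul_le_mul_of_nonneg_right hb.le (Real.exp_pos b).le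
  rw [e1]
  calc Real.exp (-(b / 2)) * Real.exp b + 2 * (b + 2) =
        Real.exp (-(b / 2)) * Real.exp b + (2 * b + 4) * (Real.exp (-b) * Real.exp b) := by
        rw [e2]; ring
    _ = (Real.exp (-(b / 2)) + (2 * (b ^ 1 * Real.exp (-b)) + 4 * Real.exp (-b))) * Real.exp b := by
        ring
    _ ≤ _ := h6

end GapAux

open SysB GapAux

theorem gap_law {h : ℝ → ℝ} (hmono : MonotoneOn h (Ici 1))
    (hlog : Tendsto (fun x => h x / Real.log x) atTop atTop) (hsq : ∀ᶠ x in atTop, h x ≤ √x)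
    (hreg : ∀ ε : ℝ, 0 < ε → ∃ δ : ℝ, 0 < δ ∧ ∀ᶠ x in atTop, h ((1 + δ) * x) ≤ (1 + ε) * h x)
    {α β : ℕ → ℝ} (H : Sys h α β) {W : ℕ → ℝ} (hW : ∀ n, W n ∈ Ioc (α n) (β n)) :
    Tendsto (fun x => sSup {d : ℝ | ∃ n, Real.exp (W n) ≤ x ∧ d = Real.exp (W (n + 1)) - Real.exp (W n)} / h x)
      atTop (𝓝 1) := by
  -- a member of size about `x` is followed by a gap of length at most `(1 + ε) h x`
  have hupper : ∀ ε : ℝ, 0 < ε → ∀ᶠ x : ℝ in atTop, ∀ n, Real.exp (W n) ≤ x →
      Real.exp (W (n + 1)) - Real.exp (W n) ≤ (1 + 2 * ε) * h x := by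
    intro ε hε
    obtain ⟨δ, hδ, hδh⟩ := hreg ε hε
    have ev1 : ∀ᶠ x : ℝ in atTop, 2 * (Real.log x + 1) ≤ δ * x := by
      have h1 := Real.isLittleO_log_id_atTop.bound (show 0 < δ / 4 by positivity)
      filter_upwards [h1, eventually_ge_atTop (4 / δ), eventually_ge_atTop 1] with x h2 h3 h4
      rw [Real.norm_eq_abs, Real.norm_eq_abs, id] at h2
      rw [div_le_iff₀ hδ] at h3
      have h5 := le_abs_self (Real.log x)
      rw [abs_of_nonneg (show 0 ≤ x by linarith)] at h2
      linarith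
    have ev2 : ∀ᶠ x : ℝ in atTop, 4 * Real.log x + 8 ≤ ε * h x := by
      filter_upwards [hlog.eventually_ge_atTop (12 / ε), Real.tendsto_log_atTop.eventually_ge_atTop 1]
        with x h2 h3
      rw [le_div_iff₀ (by linarith), div_mul_eq_mul_div, div_le_iff₀ hε] at h2
      linarith
    filter_upwards [ev1, ev2, hδh, eventually_ge_atTop 1] with x k1 k2 k3 k4 n hn
    have hx0 : 0 < x := by linarith
    have hWL : W n ≤ Real.log x := by rwa [Real.le_log_iff_exp_le hx0]
    have hα := (hW n).1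
    have hc := cell H n
    have hc' := cell H (n + 1)
    have hg := gap H n
    have ha := α_succ_le H n
    have e1 : Real.exp (α n) ≤ x := (Real.exp_le_exp.mpr hα.le).trans hn
    have hβ : β n ≤ Real.log x + 1 := by linarith
    have e2 : Real.exp (β n) ≤ (1 + δ) * x := by linarith
    have e3 : h (Real.exp (β n)) ≤ h ((1 + δ) * x) := by
      apply hmono
      · exact Real.one_le_exp (by linarith [H.lt n, four H n])
      · simp only [mem_Ici]
        nlinarith
      · exact e2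
    have e4 : Real.exp (W (n + 1)) ≤ Real.exp (β (n + 1)) := Real.exp_le_exp.mpr (hW (n + 1)).2
    have e5 : Real.exp (α n) ≤ Real.exp (W n) := Real.exp_le_exp.mpr hα.le
    linarith
  -- below `x` there is a gap of length at least `h x / (1 + ε)`
  have hlower : ∀ ε : ℝ, 0 < ε → ∀ᶠ x : ℝ in atTop, ∃ n, Real.exp (W n) ≤ x ∧
      h x ≤ (1 + ε) * (Real.exp (W (n + 1)) - Real.exp (W n)) := by
    intro ε hε
    obtain ⟨δ, hδ, hδh⟩ := hreg ε hε
    obtain ⟨η, hη⟩ : ∃ η, η = Real.log (1 + δ) / 2 := ⟨_, rfl⟩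
    have hη0 : 0 < η := by
      rw [hη]
      have := Real.log_pos (show 1 < 1 + δ by linarith)
      linarith
    obtain ⟨b₁, hb₁⟩ := (step (show 0 < Real.exp η - 1 by linarith [Real.add_one_le_exp η])).exists_forall_of_atTop
    obtain ⟨y₁, hy₁⟩ := hδh.exists_forall_of_atTop
    have ev1 : ∀ᶠ x : ℝ in atTop, max (max b₁ (β 0)) (max y₁ 0) + 3 + η ≤ Real.log x :=
      Real.tendsto_log_atTop.eventually_ge_atTop _
    filter_upwards [ev1, Real.tendsto_log_atTop.eventually (sqrt_close hη0), eventually_ge_atTop 1]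
      with x k1 k2 k3
    have hx0 : 0 < x := by linarith
    obtain ⟨j, hj1, hj2⟩ := k2
    have m1 : b₁ ≤ max (max b₁ (β 0)) (max y₁ 0) := (le_max_left _ _).trans (le_max_left _ _)
    have m2 : β 0 ≤ max (max b₁ (β 0)) (max y₁ 0) := (le_max_right _ _).trans (le_max_left _ _)
    have m3 : y₁ ≤ max (max b₁ (β 0)) (max y₁ 0) := (le_max_left _ _).trans (le_max_right _ _)
    have m4 : 0 ≤ max (max b₁ (β 0)) (max y₁ 0) := (le_max_right _ _).trans (le_max_right _ _)
    -- the last cell which ends before `√j`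
    have hex : ∃ n, √(j : ℝ) ≤ β n := by
      obtain ⟨n, hn⟩ := exists_gt H √(j : ℝ)
      exact ⟨n, (hn.trans (H.lt n)).le⟩
    classical
    obtain ⟨K, hK1, hK2⟩ : ∃ K, √(j : ℝ) ≤ β K ∧ ∀ n < K, β n < √(j : ℝ) :=
      ⟨Nat.find hex, Nat.find_spec hex, fun n hn => not_le.mp (Nat.find_min hex hn)⟩
    have hK0 : K ≠ 0 := by
      rintro rfl
      linarith
    obtain ⟨n, rfl⟩ := Nat.exists_eq_succ_of_ne_zero hK0
    have hn := hK2 n (Nat.lt_succ_self n)
    have hcross : Cross (β n) := by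
      rcases H.next n with ⟨h1, h2⟩ | ⟨_, h2⟩
      · refine ⟨j, hn, ?_⟩
        rw [← H.mass (n + 1), h1]
        exact int_mono hK1
      · exact h2
    have hgap : Real.exp (α (n + 1)) = Real.exp (β n) + h (Real.exp (β n)) := by
      rcases H.next n with ⟨_, h2⟩ | ⟨h2, _⟩
      · exact absurd hcross h2
      · exact h2
    have hc' := cell H (n + 1)
    have ha := α_succ_le H n
    have hs := (H.size n).2
    -- `β n` is large
    have hβ : Real.log x - η - 2 ≤ β n := by
      have : √(j : ℝ) ≤ β (n + 1) := hK1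
      linarith
    have hb := hb₁ (β n) (by linarith)
    have e1 : Real.exp √(j : ℝ) ≤ Real.exp η * Real.exp (β n) := by
      have h1 : Real.exp √(j : ℝ) ≤ Real.exp (β (n + 1)) := Real.exp_le_exp.mpr hK1
      linarith
    have e2 : x ≤ (1 + δ) * Real.exp (β n) := by
      have h1 : x = Real.exp (Real.log x) := (Real.exp_log hx0).symm
      have h2 : Real.exp (Real.log x) ≤ Real.exp (√(j : ℝ) + η) := Real.exp_le_exp.mpr (by linarith)
      rw [Real.exp_add] at h2
      have h3 : Real.exp η * Real.exp η = 1 + δ := by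
        rw [← Real.exp_add, hη, add_halves, Real.exp_log (by linarith)]
      have h4 := mul_le_mul_of_nonneg_right e1 (Real.exp_pos η).le
      calc x = Real.exp (Real.log x) := h1
        _ ≤ Real.exp √(j : ℝ) * Real.exp η := h2
        _ ≤ Real.exp η * Real.exp (β n) * Real.exp η := h4
        _ = (Real.exp η * Real.exp η) * Real.exp (β n) := by ring
        _ = _ := by rw [h3]
    refine ⟨n, ?_, ?_⟩
    · calc Real.exp (W n) ≤ Real.exp (β n) := Real.exp_le_exp.mpr (hW n).2
        _ ≤ Real.exp (Real.log x) := Real.exp_le_exp.mpr (by linarith)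
        _ = x := Real.exp_log hx0
    · have h1 : h x ≤ h ((1 + δ) * Real.exp (β n)) := by
        apply hmono
        · exact k3
        · exact k3.trans e2
        · exact e2
      have h2 := hy₁ (Real.exp (β n)) (by
        have := Real.add_one_le_exp (β n)
        linarith)
      have h3 : Real.exp (α (n + 1)) ≤ Real.exp (W (n + 1)) := Real.exp_le_exp.mpr (hW (n + 1)).1.le
      have h4 : Real.exp (W n) ≤ Real.exp (β n) := Real.exp_le_exp.mpr (hW n).2
      have h5 : h (Real.exp (β n)) ≤ Real.exp (W (n + 1)) - Real.exp (W n) := by linarith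
      have h6 := mul_le_mul_of_nonneg_left h5 (show 0 ≤ 1 + ε by linarith)
      linarith
  have hpos : ∀ᶠ x : ℝ in atTop, 0 < h x := by
    filter_upwards [hlog.eventually_ge_atTop 1, Real.tendsto_log_atTop.eventually_ge_atTop 1]
      with x h1 h2
    rw [le_div_iff₀ (by linarith)] at h1
    linarith
  rw [tendsto_order]
  constructor
  · intro a ha
    rcases le_or_gt a 0 with ha0 | ha0
    · filter_upwards [hpos, hlower 1 one_pos, hupper 1 one_pos] with x p1 p2 p3
      obtain ⟨n, hn1, hn2⟩ := p2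
      refine ha0.trans_lt (div_pos ?_ p1)
      have h1 : Real.exp (W (n + 1)) - Real.exp (W n) ≤
          sSup {d : ℝ | ∃ n, Real.exp (W n) ≤ x ∧ d = Real.exp (W (n + 1)) - Real.exp (W n)} :=
        le_csSup ⟨_, by rintro _ ⟨m, hm1, rfl⟩; exact p3 m hm1⟩ ⟨n, hn1, rfl⟩
      linarith
    · -- choose `ε` with `a (1 + ε) < 1`
      obtain ⟨ε, hε0, hε⟩ : ∃ ε : ℝ, 0 < ε ∧ a * (1 + ε) < 1 := by
        refine ⟨(1 - a) / (2 * a), by apply div_pos <;> linarith, ?_⟩
        have : a * (1 + (1 - a) / (2 * a)) = (1 + a) / 2 := by field_simp; ring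
        rw [this]
        linarith
      filter_upwards [hpos, hlower ε hε0, hupper 1 one_pos] with x p1 p2 p3
      obtain ⟨n, hn1, hn2⟩ := p2
      rw [lt_div_iff₀ p1]
      have h1 : Real.exp (W (n + 1)) - Real.exp (W n) ≤
          sSup {d : ℝ | ∃ n, Real.exp (W n) ≤ x ∧ d = Real.exp (W (n + 1)) - Real.exp (W n)} :=
        le_csSup ⟨_, by rintro _ ⟨m, hm1, rfl⟩; exact p3 m hm1⟩ ⟨n, hn1, rfl⟩
      have h2 : 0 < Real.exp (W (n + 1)) - Real.exp (W n) := by
        by_contra hcon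
        push Not at hcon
        nlinarith
      nlinarith
  · intro a ha
    obtain ⟨ε, hε0, hε⟩ : ∃ ε : ℝ, 0 < ε ∧ 1 + 2 * ε < a := ⟨(a - 1) / 4, by linarith, by linarith⟩
    filter_upwards [hpos, hupper ε hε0, hlower 1 one_pos] with x p1 p3 p2
    obtain ⟨n, hn1, hn2⟩ := p2
    rw [div_lt_iff₀ p1]
    have h1 : sSup {d : ℝ | ∃ n, Real.exp (W n) ≤ x ∧ d = Real.exp (W (n + 1)) - Real.exp (W n)} ≤
        (1 + 2 * ε) * h x :=
      csSup_le ⟨_, n, hn1, rfl⟩ (by rintro _ ⟨m, hm1, rfl⟩; exact p3 m hm1)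
    nlinarith

end Pool.Agent.H41.BC
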