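import Pool.Agent.H41.BC.Tm
import Pool.Agent.H41.BC.Rec

/-! # Project BC, second version: the largest gap (helper39) -/

set_option autoImplicit false

open MeasureTheory Filter Topology Set

namespace Pool.Agent.H41.BC

namespace Gap2Aux

/-- the numbers `√j` are close to each other -/
theorem sqrt_close {η : ℝ} (hη : 0 < η) : ∀ᶠ L : ℝ in atTop, ∃ j : ℕ, √(j : ℝ) ≤ L ∧ L - η ≤ √(j : ℝ) := by
  filter_upwards [eventually_ge_atTop (max (2 * η) (1 / η))] with L hL
  have h1 : 2 * η ≤ L := (le_max_left _ _).trans hL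
  have h2 : 1 / η ≤ L := (le_max_right _ _).trans hL
  rw [div_le_iff₀ hη] at h2
  have hL0 : 0 < L := by linarith
  refine ⟨⌊L ^ 2⌋₊, ?_, ?_⟩
  · rw [Real.sqrt_le_left hL0.le]
    exact Nat.floor_le (by positivity)
  · apply Real.le_sqrt_of_sq_le
    have h3 := Nat.lt_floor_add_one (L ^ 2)
    nlinarith

variable {h T : ℝ → ℝ}

theorem T_mono (H : IsT T) {u w : ℝ} (hu : 0 ≤ u) (huw : u ≤ w) : T u ≤ T w :=
  H.mono.monotoneOn hu (hu.trans huw) huw

theorem four_le (H : IsT T) {u : ℝ} (hu : 0 ≤ u) : 4 ≤ T u := H.start.trans (T_mono H le_rfl hu)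

theorem exp_half {a : ℝ} (ha : 4 ≤ a) : 7 ≤ Real.exp (a / 2) := by
  have h1 := Real.exp_one_gt_d9
  have h2 : Real.exp 2 ≤ Real.exp (a / 2) := Real.exp_le_exp.2 (by linarith)
  have h3 : Real.exp 2 = Real.exp 1 * Real.exp 1 := by rw [← Real.exp_add]; norm_num
  nlinarith

/-- a jump of small mass is short -/
theorem short_jump (H : IsT T) {u w : ℝ} (hu : 0 ≤ u) (huw : u ≤ w)
    (hm : w - u ≤ 2 * (Real.exp (T u / 2) / T u) + 1 / 2) : T w ≤ T u + 1 := by
  by_contra hcon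
  push Not at hcon
  have ha := four_le H hu
  set a := T u with hadef
  have h1 := (T_len H hu huw).2
  rw [← hadef] at h1
  have h7 := exp_half ha
  set E := Real.exp (a / 2) with hE
  have hEa : Real.exp a = E * E := by rw [hE, ← Real.exp_add]; congr 1; ring
  have hE1 : a / 2 + 1 ≤ E := Real.add_one_le_exp _
  have h2 : Real.exp a * Real.exp 1 * (1 + (T w - a - 1)) ≤ Real.exp (T w) := by
    have h3 : Real.exp (T w) = Real.exp a * Real.exp 1 * Real.exp (T w - a - 1) := by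
      rw [← Real.exp_add, ← Real.exp_add]; congr 1; ring
    rw [h3]
    gcongr
    linarith [Real.add_one_le_exp (T w - a - 1)]
  have h3 : (2 : ℝ) ≤ Real.exp 1 := by linarith [Real.exp_one_gt_d9]
  have h4 : E / a ≤ E / 4 := by gcongr
  have h5 : w - u ≤ E := by
    have : 2 * (E / a) + 1 / 2 ≤ 2 * (E / 4) + 1 / 2 := by linarith
    linarith
  have h6 : (2 * (E / a) + 1 / 2) * (a + 1) ≤ 3 * E := by
    have e1 : E / a * a = E := by field_simp
    have e2 : (2 * (E / a) + 1 / 2) * (a + 1) = 2 * (E / a * a) + 2 * (E / a) + (a + 1) / 2 := by ring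
    rw [e2, e1]
    have : a + 1 ≤ E := by
      have h8 : Real.exp 2 * ((a / 2 - 2) + 1) ≤ E := by
        have h9 : E = Real.exp 2 * Real.exp (a / 2 - 2) := by rw [hE, ← Real.exp_add]; congr 1; ring
        rw [h9]
        gcongr
        exact Real.add_one_le_exp _
      have h10 : 7 ≤ Real.exp 2 := by
        have := exp_half (le_refl (4 : ℝ))
        norm_num at this
        exact this
      nlinarith
    linarith
  have h8 : (w - u) * T w ≤ 3 * E + E * (T w - a - 1) := by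
    have e1 : (w - u) * T w = (w - u) * (a + 1) + (w - u) * (T w - a - 1) := by ring
    have e2 : (w - u) * (a + 1) ≤ (2 * (E / a) + 1 / 2) * (a + 1) := by gcongr
    have e3 : (w - u) * (T w - a - 1) ≤ E * (T w - a - 1) :=
      mul_le_mul_of_nonneg_right h5 (by linarith)
    linarith
  have h9 : E * E * 2 * (1 + (T w - a - 1)) ≤ Real.exp (T w) := by
    refine le_trans ?_ h2
    rw [hEa]
    have : 0 ≤ 1 + (T w - a - 1) := by linarith
    gcongr
  rw [hEa] at h1
  have h10 : 0 ≤ T w - a - 1 := by linarith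
  nlinarith [mul_nonneg (show 0 ≤ E by linarith) h10]

theorem h_le (H : Fit h T) {u : ℝ} (hu : 0 ≤ u) : h (Real.exp (T u)) ≤ Real.exp (T u / 2) := by
  have h1 := (H.size (Real.exp (T u)) (Real.exp_le_exp.2 (T_mono H.isT le_rfl hu))).2
  rwa [show √(Real.exp (T u)) = Real.exp (T u / 2) from by
    rw [Real.sqrt_eq_iff_mul_self_eq (Real.exp_pos _).le (Real.exp_pos _).le, ← Real.exp_add]
    congr 1; ring] at h1

theorem h_nonneg (H : Fit h T) {u : ℝ} (hu : 0 ≤ u) : 0 ≤ h (Real.exp (T u)) := by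
  have h1 := (H.size (Real.exp (T u)) (Real.exp_le_exp.2 (T_mono H.isT le_rfl hu))).1
  rw [Real.log_exp] at h1
  linarith [four_le H.isT hu]

theorem GG_le (H : Fit h T) (n : ℕ) : (GG h T n : ℝ) ≤ h (Real.exp (T n)) / T n := by
  apply Nat.floor_le
  exact div_nonneg (h_nonneg H n.cast_nonneg) (by linarith [four_le H.isT n.cast_nonneg])

theorem GG_mul_le (H : Fit h T) (n : ℕ) : (GG h T n : ℝ) * T n ≤ h (Real.exp (T n)) := by
  have h4 := four_le H.isT n.cast_nonneg
  exact (le_div_iff₀ (by linarith)).1 (GG_le H n)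

theorem lt_GG (H : Fit h T) (n : ℕ) : h (Real.exp (T n)) - T n ≤ GG h T n * T n := by
  have h4 := four_le H.isT n.cast_nonneg
  have h1 := Nat.lt_floor_add_one (h (Real.exp (T n)) / T n)
  rw [div_lt_iff₀ (by linarith)] at h1
  unfold GG
  nlinarith

theorem GG_le' (H : Fit h T) (n : ℕ) : (GG h T n : ℝ) ≤ Real.exp (T n / 2) / T n := by
  have h4 := four_le H.isT n.cast_nonneg
  refine (GG_le H n).trans ?_
  have := h_le H (u := n) n.cast_nonneg
  gcongr

/-- `rr` after a step -/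
theorem rr_succ_pos {n : ℕ} (hn : 0 < rr h T (n + 1)) :
    hi h T (n + 1) = lo h T n + 1 := by
  by_cases h0 : 0 < rr h T n
  · have e1 : rr h T (n + 1) = rr h T n - 1 := by rw [rr, if_pos h0]
    have e2 : lo h T n = n + rr h T n / 2 := by rw [lo, if_pos h0]
    have e3 : hi h T (n + 1) = (n + 1 : ℕ) + rr h T (n + 1) / 2 + 1 / 2 := by rw [hi, if_pos hn]
    rw [e2, e3, e1, Nat.cast_sub (by omega)]
    push_cast
    ring
  · by_cases hS : Sp T n
    · have e1 : rr h T (n + 1) = 2 * GG h T n - 1 := by rw [rr, if_neg h0, if_pos hS]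
      have e2 : lo h T n = n + GG h T n := by rw [lo, if_neg h0, if_pos hS]
      have e3 : hi h T (n + 1) = (n + 1 : ℕ) + rr h T (n + 1) / 2 + 1 / 2 := by rw [hi, if_pos hn]
      rw [e2, e3, e1, Nat.cast_sub (by omega)]
      push_cast
      ring
    · have e1 : rr h T (n + 1) = 0 := by rw [rr, if_neg h0, if_neg hS]
      omega

theorem hi_special {n : ℕ} (h0 : rr h T n = 0) (hS : Sp T n) :
    hi h T n = n + GG h T n + 1 / 2 ∧ lo h T n = n + GG h T n := by
  have h0' : ¬ 0 < rr h T n := by omega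
  exact ⟨by rw [hi, if_neg h0', if_pos hS], by rw [lo, if_neg h0', if_pos hS]⟩

theorem hi_normal {n : ℕ} (h0 : rr h T n = 0) (hS : ¬ Sp T n) : hi h T n = n + 1 := by
  have h0' : ¬ 0 < rr h T n := by omega
  rw [hi, if_neg h0', if_neg hS]

theorem lo_nonneg (n : ℕ) : 0 ≤ lo h T n := n.cast_nonneg.trans (le_lo n)

theorem ev_pos {h : ℝ → ℝ} (hlog : Tendsto (fun x => h x / Real.log x) atTop atTop) :
    ∀ᶠ x : ℝ in atTop, 0 < h x := by
  filter_upwards [hlog.eventually_ge_atTop 1, Real.tendsto_log_atTop.eventually_ge_atTop 1]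
    with x h1 h2
  rw [le_div_iff₀ (by linarith)] at h1
  linarith

theorem ev_large {h : ℝ → ℝ} (hlog : Tendsto (fun x => h x / Real.log x) atTop atTop) (A B : ℝ) {ε : ℝ}
    (hε : 0 < ε) : ∀ᶠ x : ℝ in atTop, A * Real.log x + B ≤ ε * h x := by
  filter_upwards [hlog.eventually_ge_atTop ((|A| + |B|) / ε), Real.tendsto_log_atTop.eventually_ge_atTop 1]
    with x h2 h3
  rw [le_div_iff₀ (by linarith), div_mul_eq_mul_div, div_le_iff₀ hε] at h2
  have h4 : A * Real.log x ≤ |A| * Real.log x := mul_le_mul_of_nonneg_right (le_abs_self A) (by linarith)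
  have h5 : B ≤ |B| * Real.log x := (le_abs_self B).trans (le_mul_of_one_le_right (abs_nonneg B) h3)
  nlinarith

/-- a member of size about `x` is followed by a gap of length at most `(1 + ε) h x` -/
theorem upper2 {h : ℝ → ℝ} (hmono : MonotoneOn h (Ici 1))
    (hlog : Tendsto (fun x => h x / Real.log x) atTop atTop)
    (hreg : ∀ ε : ℝ, 0 < ε → ∃ δ : ℝ, 0 < δ ∧ ∀ᶠ x in atTop, h ((1 + δ) * x) ≤ (1 + ε) * h x)
    {T : ℝ → ℝ} (H : Fit h T) {W : ℕ → ℝ} (hW : ∀ n, W n ∈ Ioc (al h T n) (be h T n)) {ε : ℝ} (hε : 0 < ε) :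
    ∀ᶠ x : ℝ in atTop, ∀ n, Real.exp (W n) ≤ x →
      Real.exp (W (n + 1)) - Real.exp (W n) ≤ (1 + 2 * ε) * h x := by
  have hT := H.isT
  obtain ⟨δ, hδ, hδh⟩ := hreg ε hε
  obtain ⟨K, hK⟩ : ∃ K, K = 2 * (1 + ε) / ε := ⟨_, rfl⟩
  have hK0 : 0 < K := by rw [hK]; positivity
  have ev1 : ∀ᶠ x : ℝ in atTop, Real.log x + 1 ≤ δ * x := by
    have h1 := Real.isLittleO_log_id_atTop.bound (show 0 < δ / 4 by positivity)
    filter_upwards [h1, eventually_ge_atTop (4 / δ), eventually_ge_atTop 1] with x h2 h3 h4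
    rw [Real.norm_eq_abs, Real.norm_eq_abs, id] at h2
    rw [div_le_iff₀ hδ] at h3
    have h5 := le_abs_self (Real.log x)
    rw [abs_of_nonneg (show 0 ≤ x by linarith)] at h2
    linarith
  filter_upwards [ev1, ev_large hlog 3 6 (show 0 < ε / 2 by linarith),
    ev_large hlog 0 (|h (Real.exp K)|) (show 0 < ε / 2 by linarith),
    hδh, eventually_ge_atTop 1, ev_pos hlog] with x k1 k2 k2' k3 k4 k5 n hn
  have hx0 : 0 < x := by linarith
  have hxe : 0 < ε * h x := mul_pos hε k5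
  have hWL : W n ≤ Real.log x := by rwa [Real.le_log_iff_exp_le hx0]
  have hlo := (hW n).1
  have hlo0 : 0 ≤ lo h T n := lo_nonneg n
  unfold al at hlo
  have e4 : Real.exp (W (n + 1)) ≤ Real.exp (T (hi h T (n + 1))) := Real.exp_le_exp.mpr (hW (n + 1)).2
  have e5 : Real.exp (T (lo h T n)) ≤ Real.exp (W n) := Real.exp_le_exp.mpr hlo.le
  have hle : lo h T n ≤ hi h T (n + 1) :=
    ((lo_lt_hi n).1.le.trans (hi_le_lo H n)).trans (lo_lt_hi (n + 1)).1.le
  have hlen := (T_len hT hlo0 hle).2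
  have hfour := four_le hT hlo0
  rcases Nat.eq_zero_or_pos (rr h T (n + 1)) with h0 | h0
  · have hhi := hi_of_rr_zero H h0
    have hl1 := lo_lt_hi (h := h) (T := T) n
    have hl2 : (n : ℝ) ≤ lo h T n := le_lo n
    by_cases hS : Sp T (n + 1)
    · -- a special place
      obtain ⟨q1, q2⟩ := hi_special h0 hS
      have hG := GG_pos H (n + 1)
      have hG' : (1 : ℝ) ≤ GG h T (n + 1) := by exact_mod_cast hG
      have s1 : (0 : ℝ) ≤ ((n + 1 : ℕ) : ℝ) := Nat.cast_nonneg _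
      have s2 : lo h T n ≤ ((n + 1 : ℕ) : ℝ) := by push_cast; linarith
      have s3 : ((n + 1 : ℕ) : ℝ) ≤ hi h T (n + 1) := by rw [q1]; push_cast; linarith
      have t1 : T ((n + 1 : ℕ) : ℝ) ≤ T (lo h T n) + 1 := by
        have := T_short hT hlo0 s2
        push_cast at this ⊢
        linarith
      have t4 := four_le hT s1
      have t2 : T (hi h T (n + 1)) ≤ T ((n + 1 : ℕ) : ℝ) + 1 := by
        apply short_jump hT s1 s3
        rw [q1]
        have := GG_le' H (n + 1)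
        have h9 : 0 ≤ Real.exp (T ((n + 1 : ℕ) : ℝ) / 2) / T ((n + 1 : ℕ) : ℝ) :=
          div_nonneg (Real.exp_pos _).le (by linarith)
        linarith
      have t3 : Real.exp (T ((n + 1 : ℕ) : ℝ)) ≤ (1 + δ) * x := by
        have h1 := (T_len hT hlo0 s2).2
        have h2 : (((n + 1 : ℕ) : ℝ) - lo h T n) * T ((n + 1 : ℕ) : ℝ) ≤ 1 * T ((n + 1 : ℕ) : ℝ) := by
          apply mul_le_mul_of_nonneg_right _ (by linarith)
          push_cast
          linarith
        nlinarith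
      have t5 : h (Real.exp (T ((n + 1 : ℕ) : ℝ))) ≤ (1 + ε) * h x := by
        refine le_trans ?_ k3
        apply hmono
        · exact Real.one_le_exp (by linarith)
        · simp only [mem_Ici]
          nlinarith
        · exact t3
      have hGm := GG_mul_le H (n + 1)
      have hGG : (GG h T (n + 1) : ℝ) ≤ ε / 2 * h x := by
        rcases le_or_gt K (T ((n + 1 : ℕ) : ℝ)) with hc | hc
        · have h1 : (GG h T (n + 1) : ℝ) * K ≤ (1 + ε) * h x := by
            have : (GG h T (n + 1) : ℝ) * K ≤ (GG h T (n + 1) : ℝ) * T ((n + 1 : ℕ) : ℝ) := by gcongr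
            linarith
          have h2 : (1 + ε) = ε / 2 * K := by rw [hK]; field_simp
          rw [h2] at h1
          have h3 : (GG h T (n + 1) : ℝ) * K ≤ (ε / 2 * h x) * K := by linarith
          exact le_of_mul_le_mul_right h3 hK0
        · have h1 : h (Real.exp (T ((n + 1 : ℕ) : ℝ))) ≤ h (Real.exp K) := by
            apply hmono
            · exact Real.one_le_exp (by linarith)
            · exact Real.one_le_exp hK0.le
            · exact Real.exp_le_exp.2 hc.le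
          have h2 : (GG h T (n + 1) : ℝ) ≤ GG h T (n + 1) * T ((n + 1 : ℕ) : ℝ) :=
            le_mul_of_one_le_right (by linarith) (by linarith)
          have h3 := le_abs_self (h (Real.exp K))
          linarith
      have hlen2 : (hi h T (n + 1) - lo h T n) * T (hi h T (n + 1)) ≤
          ((GG h T (n + 1) : ℝ) + 3 / 2) * (T ((n + 1 : ℕ) : ℝ) + 1) := by
        apply mul_le_mul
        · rw [q1]; push_cast; linarith
        · exact t2
        · linarith [four_le hT (hlo0.trans hle)]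
        · linarith
      have hT1 : T ((n + 1 : ℕ) : ℝ) ≤ Real.log x + 1 := by linarith
      nlinarith
    · -- an ordinary place
      have q := hi_normal h0 hS
      have t1 : T (hi h T (n + 1)) ≤ T (lo h T n) + 2 := by
        have := T_short hT hlo0 hle
        rw [q] at this ⊢
        push_cast at this ⊢
        linarith
      have t2 : (hi h T (n + 1) - lo h T n) * T (hi h T (n + 1)) ≤ 2 * (Real.log x + 2) := by
        apply mul_le_mul
        · rw [q]; push_cast; linarith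
        · linarith
        · linarith [four_le hT (hlo0.trans hle)]
        · norm_num
      nlinarith
  · have q := rr_succ_pos h0
    have t1 := T_short hT hlo0 hle
    rw [q] at t1 hlen e4
    have t2 : (lo h T n + 1 - lo h T n) * T (lo h T n + 1) ≤ Real.log x + 1 := by
      have : lo h T n + 1 - lo h T n = 1 := by ring
      rw [this, one_mul]
      linarith
    nlinarith

theorem step2 {η : ℝ} (hη : 0 < η) : ∀ᶠ b : ℝ in atTop,
    4 * Real.exp (b / 2) + b + 3 ≤ η * Real.exp b := by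
  have h1 : Tendsto (fun b : ℝ => b ^ 1 * Real.exp (-b)) atTop (𝓝 0) :=
    Real.tendsto_pow_mul_exp_neg_atTop_nhds_zero 1
  have h2 : Tendsto (fun b : ℝ => Real.exp (-b)) atTop (𝓝 0) :=
    Real.tendsto_exp_neg_atTop_nhds_zero
  have h3 : Tendsto (fun b : ℝ => Real.exp (-(b / 2))) atTop (𝓝 0) :=
    Real.tendsto_exp_neg_atTop_nhds_zero.comp (tendsto_id.atTop_div_const (by norm_num))
  have h4 : Tendsto (fun b : ℝ => 4 * Real.exp (-(b / 2)) + (b ^ 1 * Real.exp (-b) +
      3 * Real.exp (-b))) atTop (𝓝 (4 * 0 + (0 + 3 * 0))) :=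
    (h3.const_mul 4).add (h1.add (h2.const_mul 3))
  have h5 : (4 * 0 : ℝ) + (0 + 3 * 0) < η := by linarith
  filter_upwards [h4.eventually_lt_const h5] with b hb
  have e1 : Real.exp (b / 2) = Real.exp (-(b / 2)) * Real.exp b := by
    rw [← Real.exp_add]
    congr 1
    ring
  have e2 : Real.exp (-b) * Real.exp b = 1 := by
    rw [← Real.exp_add, neg_add_cancel, Real.exp_zero]
  have h6 := mul_le_mul_of_nonneg_right hb.le (Real.exp_pos b).le
  calc 4 * Real.exp (b / 2) + b + 3 =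
        4 * (Real.exp (-(b / 2)) * Real.exp b) + (b + 3) * (Real.exp (-b) * Real.exp b) := by
        rw [e2, ← e1]; ring
    _ = (4 * Real.exp (-(b / 2)) + (b ^ 1 * Real.exp (-b) + 3 * Real.exp (-b))) * Real.exp b := by
        ring
    _ ≤ _ := h6

/-- a place with cells of mass one half to come is close to the last special place -/
theorem close_place {h T : ℝ → ℝ} (H : Fit h T) {s n : ℕ} (hsn : s ≤ n) (hn : n ≤ s + 2 * GG h T s) :
    T n ≤ T s + 1 ∧ Real.exp (T n) ≤ Real.exp (T s) + 4 * Real.exp (T s / 2) := by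
  have hs0 : (0 : ℝ) ≤ s := s.cast_nonneg
  have hsn' : (s : ℝ) ≤ n := by exact_mod_cast hsn
  have hn' : (n : ℝ) ≤ s + 2 * GG h T s := by exact_mod_cast hn
  have ha := four_le H.isT hs0
  have hG := GG_le' H s
  have h1 : T n ≤ T s + 1 := by
    apply short_jump H.isT hs0 hsn'
    linarith
  refine ⟨h1, ?_⟩
  have h2 := (T_len H.isT hs0 hsn').2
  have hE := Real.exp_pos (T s / 2)
  have h3 : ((n : ℝ) - s) * T n ≤ 2 * (Real.exp (T s / 2) / T s) * (T s + 1) := by
    apply mul_le_mul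
    · linarith
    · exact h1
    · linarith [four_le H.isT n.cast_nonneg]
    · positivity
  have h4 : Real.exp (T s / 2) / T s ≤ Real.exp (T s / 2) / 4 := by gcongr
  have h5 : Real.exp (T s / 2) / T s * T s = Real.exp (T s / 2) := by field_simp
  have h6 : 2 * (Real.exp (T s / 2) / T s) * (T s + 1) =
      2 * (Real.exp (T s / 2) / T s * T s) + 2 * (Real.exp (T s / 2) / T s) := by ring
  rw [h6, h5] at h3
  linarith

/-- there are special places at every size -/
theorem good_place {h T : ℝ → ℝ} (H : Fit h T) {η : ℝ} (hη : 0 < η) :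
    ∀ᶠ L : ℝ in atTop, ∃ n : ℕ, rr h T (n + 1) = 0 ∧ Sp T (n + 1) ∧ T ((n + 1 : ℕ) : ℝ) ≤ L ∧
      L ≤ T ((n + 1 : ℕ) : ℝ) + η := by
  have hT := H.isT
  obtain ⟨b, hb⟩ := (step2 (show 0 < Real.exp (η / 2) - 1 by
    linarith [Real.add_one_le_exp (η / 2)])).exists_forall_of_atTop
  filter_upwards [sqrt_close (show 0 < η / 2 by linarith),
    eventually_ge_atTop (T 0 + b + η / 2 + 3), eventually_ge_atTop (b + η / 2 + 3),
    eventually_ge_atTop (T 0 + η / 2 + 3)] with L hj hL hL1 hL2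
  obtain ⟨j, hj1, hj2⟩ := hj
  have hex : ∃ N : ℕ, √(j : ℝ) ≤ T N := by
    have := (T_tendsto hT).comp tendsto_natCast_atTop_atTop
    obtain ⟨N, hN⟩ := (this.eventually_ge_atTop √(j : ℝ)).exists
    exact ⟨N, hN⟩
  classical
  obtain ⟨N, hN1, hN2⟩ : ∃ N : ℕ, √(j : ℝ) ≤ T N ∧ ∀ m < N, T m < √(j : ℝ) :=
    ⟨Nat.find hex, Nat.find_spec hex, fun n hn => not_le.mp (Nat.find_min hex hn)⟩
  have hN0 : N ≠ 0 := by
    rintro rfl
    rw [Nat.cast_zero] at hN1
    linarith
  obtain ⟨n, rfl⟩ := Nat.exists_eq_succ_of_ne_zero hN0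
  have hn := hN2 n (Nat.lt_succ_self n)
  have hN1' : √(j : ℝ) ≤ T ((n : ℝ) + 1) := by
    have := hN1
    rwa [Nat.succ_eq_add_one, Nat.cast_add, Nat.cast_one] at this
  have hSp : Sp T n := ⟨j, hn, hN1'⟩
  obtain ⟨s, hs1, hs2, hs3, hs4⟩ : ∃ s : ℕ, s ≤ n ∧ rr h T s = 0 ∧ Sp T s ∧ n ≤ s + 2 * GG h T s := by
    rcases Nat.eq_zero_or_pos (rr h T n) with h0 | h0
    · exact ⟨n, le_rfl, h0, hSp, by omega⟩
    · obtain ⟨s, h1, h2, h3, h4⟩ := rr_pos H h0
      exact ⟨s, h1.le, h2, h3, by omega⟩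
  obtain ⟨c1, c2⟩ := close_place H hs1 hs4
  have hn0 : (0 : ℝ) ≤ n := n.cast_nonneg
  have d1 : T ((n : ℝ) + 1) ≤ T n + 1 := by
    have := T_short hT hn0 (show (n : ℝ) ≤ n + 1 by linarith)
    linarith
  have d2 : Real.exp (T ((n : ℝ) + 1)) ≤ Real.exp (T n) + T n + 1 := by
    have := (T_len hT hn0 (show (n : ℝ) ≤ n + 1 by linarith)).2
    have e : ((n : ℝ) + 1 - n) * T ((n : ℝ) + 1) = T ((n : ℝ) + 1) := by ring
    rw [e] at this
    linarith
  have d3 : T s ≤ T n := T_mono hT s.cast_nonneg (by exact_mod_cast hs1)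
  have d4 := hb (T s) (by linarith)
  have d5 : Real.exp √(j : ℝ) ≤ Real.exp (T s + η / 2) := by
    rw [Real.exp_add]
    have : Real.exp √(j : ℝ) ≤ Real.exp (T ((n : ℝ) + 1)) := Real.exp_le_exp.2 hN1'
    nlinarith
  have d6 : √(j : ℝ) ≤ T s + η / 2 := Real.exp_le_exp.1 d5
  have hs0 : s ≠ 0 := by
    rintro rfl
    rw [Nat.cast_zero] at c1
    linarith
  obtain ⟨m, rfl⟩ := Nat.exists_eq_succ_of_ne_zero hs0
  exact ⟨m, hs2, hs3, by linarith, by linarith⟩

/-- below `x` there is a gap of length at least `h x / (1 + ε)` -/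
theorem lower2 {h : ℝ → ℝ} (hmono : MonotoneOn h (Ici 1))
    (hlog : Tendsto (fun x => h x / Real.log x) atTop atTop)
    (hreg : ∀ ε : ℝ, 0 < ε → ∃ δ : ℝ, 0 < δ ∧ ∀ᶠ x in atTop, h ((1 + δ) * x) ≤ (1 + ε) * h x)
    {T : ℝ → ℝ} (H : Fit h T) {W : ℕ → ℝ} (hW : ∀ n, W n ∈ Ioc (al h T n) (be h T n)) {ε : ℝ} (hε : 0 < ε) :
    ∀ᶠ x : ℝ in atTop, ∃ n, Real.exp (W n) ≤ x ∧
      h x ≤ (1 + ε) * (Real.exp (W (n + 1)) - Real.exp (W n)) := by
  have hT := H.isT
  obtain ⟨δ, hδ, hδh⟩ := hreg (ε / 2) (by linarith)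
  have hη0 : 0 < Real.log (1 + δ) := Real.log_pos (by linarith)
  obtain ⟨y₁, hy₁⟩ := hδh.exists_forall_of_atTop
  have hε2 : 0 < ε / 2 / ((1 + ε) * (1 + ε / 2)) := by positivity
  filter_upwards [Real.tendsto_log_atTop.eventually (good_place H hη0), eventually_ge_atTop 1,
    ev_large hlog 1 0 hε2, ev_pos hlog, eventually_ge_atTop ((1 + δ) * |y₁|)] with x hx hx1 hx2 hx3 hx4
  obtain ⟨n, hn1, hn2, hn3, hn4⟩ := hx
  have hx0 : 0 < x := by linarith
  obtain ⟨q1, q2⟩ := hi_special hn1 hn2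
  have hhi := hi_of_rr_zero H hn1
  have s1 : (0 : ℝ) ≤ ((n + 1 : ℕ) : ℝ) := Nat.cast_nonneg _
  have t4 := four_le hT s1
  have e1 : Real.exp (W n) ≤ Real.exp (T ((n + 1 : ℕ) : ℝ)) := by
    apply Real.exp_le_exp.2
    have := (hW n).2
    unfold be at this
    rw [hhi] at this
    push_cast
    exact this
  have e2 : Real.exp (T ((n + 1 : ℕ) : ℝ)) ≤ x := by
    calc Real.exp (T ((n + 1 : ℕ) : ℝ)) ≤ Real.exp (Real.log x) := Real.exp_le_exp.2 hn3
      _ = x := Real.exp_log hx0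
  have e3 : x ≤ (1 + δ) * Real.exp (T ((n + 1 : ℕ) : ℝ)) := by
    calc x = Real.exp (Real.log x) := (Real.exp_log hx0).symm
      _ ≤ Real.exp (T ((n + 1 : ℕ) : ℝ) + Real.log (1 + δ)) := Real.exp_le_exp.2 hn4
      _ = _ := by rw [Real.exp_add, Real.exp_log (by linarith), mul_comm]
  refine ⟨n, e1.trans e2, ?_⟩
  have e4 : h x ≤ h ((1 + δ) * Real.exp (T ((n + 1 : ℕ) : ℝ))) := hmono hx1 (hx1.trans e3) e3
  have e5 := hy₁ (Real.exp (T ((n + 1 : ℕ) : ℝ))) (by
    have h1 : (1 + δ) * |y₁| ≤ (1 + δ) * Real.exp (T ((n + 1 : ℕ) : ℝ)) := hx4.trans e3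
    have h2 : |y₁| ≤ Real.exp (T ((n + 1 : ℕ) : ℝ)) := le_of_mul_le_mul_left h1 (by linarith)
    exact (le_abs_self _).trans h2)
  have e6 : Real.exp (T ((n + 1 : ℕ) : ℝ)) + GG h T (n + 1) * T ((n + 1 : ℕ) : ℝ) ≤ Real.exp (W (n + 1)) := by
    have h1 := (hW (n + 1)).1
    unfold al at h1
    rw [q2] at h1
    have h2 := (T_len hT s1 (show ((n + 1 : ℕ) : ℝ) ≤ ((n + 1 : ℕ) : ℝ) + GG h T (n + 1) by
      linarith [(GG h T (n + 1)).cast_nonneg (α := ℝ)])).1
    rw [add_sub_cancel_left] at h2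
    have h3 := Real.exp_le_exp.2 h1.le
    linarith
  have e7 := lt_GG H (n + 1)
  have e8 : h (Real.exp (T ((n + 1 : ℕ) : ℝ))) ≤
      (Real.exp (W (n + 1)) - Real.exp (W n)) + Real.log x := by linarith
  set G := Real.exp (W (n + 1)) - Real.exp (W n) with hG
  have e9 : h x ≤ (1 + ε / 2) * (G + ε / 2 / ((1 + ε) * (1 + ε / 2)) * h x) := by
    have h1 : h x ≤ (1 + ε / 2) * (G + Real.log x) := (e4.trans e5).trans (by gcongr)
    refine h1.trans ?_
    gcongr
    linarith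
  have e10 : (1 + ε / 2) * (ε / 2 / ((1 + ε) * (1 + ε / 2)) * h x) * (1 + ε) = ε / 2 * h x := by
    field_simp
  nlinarith

end Gap2Aux

open Gap2Aux

theorem gap_law2 {h : ℝ → ℝ} (hmono : MonotoneOn h (Ici 1))
    (hlog : Tendsto (fun x => h x / Real.log x) atTop atTop)
    (hreg : ∀ ε : ℝ, 0 < ε → ∃ δ : ℝ, 0 < δ ∧ ∀ᶠ x in atTop, h ((1 + δ) * x) ≤ (1 + ε) * h x)
    {T : ℝ → ℝ} (H : Fit h T) {W : ℕ → ℝ} (hW : ∀ n, W n ∈ Ioc (al h T n) (be h T n)) :
    Tendsto (fun x => sSup {d : ℝ | ∃ n, Real.exp (W n) ≤ x ∧ d = Real.exp (W (n + 1)) - Real.exp (W n)} / h x)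
      atTop (𝓝 1) := by
  have hpos := ev_pos hlog
  have hupper : ∀ ε : ℝ, 0 < ε → ∀ᶠ x : ℝ in atTop, ∀ n, Real.exp (W n) ≤ x →
      Real.exp (W (n + 1)) - Real.exp (W n) ≤ (1 + 2 * ε) * h x :=
    fun ε hε => upper2 hmono hlog hreg H hW hε
  have hlower : ∀ ε : ℝ, 0 < ε → ∀ᶠ x : ℝ in atTop, ∃ n, Real.exp (W n) ≤ x ∧
      h x ≤ (1 + ε) * (Real.exp (W (n + 1)) - Real.exp (W n)) :=
    fun ε hε => lower2 hmono hlog hreg H hW hε
  rw [tendsto_order]
  constructor
  · intro a ha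
    rcases le_or_gt a 0 with ha0 | ha0
    · filter_upwards [hpos, hlower 1 one_pos, hupper 1 one_pos] with x p1 p2 p3
      obtain ⟨n, hn1, hn2⟩ := p2
      refine ha0.trans_lt (div_pos ?_ p1)
      have h1 : Real.exp (W (n + 1)) - Real.exp (W n) ≤
          sSup {d : ℝ | ∃ n, Real.exp (W n) ≤ x ∧ d = Real.exp (W (n + 1)) - Real.exp (W n)} :=
        le_csSup ⟨_, by rintro _ ⟨m, hm1, rfl⟩; exact p3 m hm1⟩ ⟨n, hn1, rfl⟩
      linarith
    · -- choose `ε` with `a (1 + ε) < 1`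
      obtain ⟨ε, hε0, hε⟩ : ∃ ε : ℝ, 0 < ε ∧ a * (1 + ε) < 1 := by
        refine ⟨(1 - a) / (2 * a), by apply div_pos <;> linarith, ?_⟩
        have : a * (1 + (1 - a) / (2 * a)) = (1 + a) / 2 := by field_simp; ring
        rw [this]
        linarith
      filter_upwards [hpos, hlower ε hε0, hupper 1 one_pos] with x p1 p2 p3
      obtain ⟨n, hn1, hn2⟩ := p2
      rw [lt_div_iff₀ p1]
      have h1 : Real.exp (W (n + 1)) - Real.exp (W n) ≤
          sSup {d : ℝ | ∃ n, Real.exp (W n) ≤ x ∧ d = Real.exp (W (n + 1)) - Real.exp (W n)} :=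
        le_csSup ⟨_, by rintro _ ⟨m, hm1, rfl⟩; exact p3 m hm1⟩ ⟨n, hn1, rfl⟩
      have h2 : 0 < Real.exp (W (n + 1)) - Real.exp (W n) := by
        by_contra hcon
        push Not at hcon
        nlinarith
      nlinarith
  · intro a ha
    obtain ⟨ε, hε0, hε⟩ : ∃ ε : ℝ, 0 < ε ∧ 1 + 2 * ε < a := ⟨(a - 1) / 4, by linarith, by linarith⟩
    filter_upwards [hpos, hupper ε hε0, hlower 1 one_pos] with x p1 p3 p2
    obtain ⟨n, hn1, hn2⟩ := p2
    rw [div_lt_iff₀ p1]
    have h1 : sSup {d : ℝ | ∃ n, Real.exp (W n) ≤ x ∧ d = Real.exp (W (n + 1)) - Real.exp (W n)} ≤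
        (1 + 2 * ε) * h x :=
      csSup_le ⟨_, n, hn1, rfl⟩ (by rintro _ ⟨m, hm1, rfl⟩; exact p3 m hm1)
    nlinarith

end Pool.Agent.H41.BC
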