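import Mathlib

/-!
# Integrals along vertical lines (from the library file TH942/SL/Line)
-/

set_option autoImplicit false

open MeasureTheory Filter Topology Set Complex

namespace Pool.Agent.H41.BC

/-- the normalised integral along the line `Re z = c` -/
noncomputable def LI (c : ℝ) (H : ℂ → ℂ) : ℂ := ((2 * Real.pi)⁻¹ : ℝ) * ∫ t : ℝ, H (c + t * I)

lemma decay_int {p : ℝ} (hp : 1 < p) : Integrable (fun y : ℝ => (1 + |y|) ^ (-p)) := by
  have := integrable_one_add_norm (E := ℝ) (μ := volume) (r := p) (by simpa using hp)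
  simpa using this

lemma line_cont {H : ℂ → ℂ} {a : ℝ} (hd : ∀ s : ℂ, s.re = a → ContinuousAt H s) :
    Continuous (fun y : ℝ => H (a + y * I)) := by
  rw [continuous_iff_continuousAt]
  intro y
  have h1 : ContinuousAt H ((a : ℂ) + y * I) := hd _ (by simp)
  exact ContinuousAt.comp (f := fun y : ℝ => (a : ℂ) + y * I) h1 (by fun_prop)

lemma line_int {H : ℂ → ℂ} {a B p : ℝ} (hp : 1 < p) (hd : ∀ s : ℂ, s.re = a → ContinuousAt H s)
    (hB : ∀ s : ℂ, s.re = a → ‖H s‖ ≤ B * (1 + |s.im|) ^ (-p)) :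
    Integrable (fun y : ℝ => H (a + y * I)) := by
  refine ((decay_int hp).const_mul B).mono' (line_cont hd).aestronglyMeasurable
    (Eventually.of_forall fun y => ?_)
  have := hB (a + y * I) (by simp)
  simpa using this

/-- shift of the line of integration -/
theorem shift {H : ℂ → ℂ} {a b B p : ℝ} (hp : 1 < p) (hab : a ≤ b)
    (hd : ∀ s : ℂ, a ≤ s.re → s.re ≤ b → DifferentiableAt ℂ H s)
    (hB : ∀ s : ℂ, a ≤ s.re → s.re ≤ b → ‖H s‖ ≤ B * (1 + |s.im|) ^ (-p)) : LI a H = LI b H := by
  unfold LI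
  congr 1
  have ia : Integrable (fun y : ℝ => H (a + y * I)) :=
    line_int hp (fun s hs => (hd s hs.ge (hs.le.trans hab)).continuousAt)
      (fun s hs => hB s hs.ge (hs.le.trans hab))
  have ib : Integrable (fun y : ℝ => H (b + y * I)) :=
    line_int hp (fun s hs => (hd s (hab.trans hs.ge) hs.le).continuousAt)
      (fun s hs => hB s (hab.trans hs.ge) hs.le)
  -- rectangles
  have hrect : ∀ T : ℝ, 0 < T →
      (∫ x in a..b, H (x + (-T : ℝ) * I)) - (∫ x in a..b, H (x + (T : ℝ) * I)) +
        I • (∫ y in (-T)..T, H (b + y * I)) - I • (∫ y in (-T)..T, H (a + y * I)) = 0 := by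
    intro T hT
    have := Complex.integral_boundary_rect_eq_zero_of_differentiableOn H ⟨a, -T⟩ ⟨b, T⟩ ?_
    · simpa using this
    · intro s hs
      rw [Complex.mem_reProdIm] at hs
      simp only at hs
      rw [uIcc_of_le hab] at hs
      exact (hd s hs.1.1 hs.1.2).differentiableWithinAt
  have hhor : ∀ T : ℝ, ‖∫ x in a..b, H (x + (T : ℝ) * I)‖ ≤ B * (1 + |T|) ^ (-p) * |b - a| := by
    intro T
    refine intervalIntegral.norm_integral_le_of_norm_le_const fun x hx => ?_
    rw [uIoc_of_le hab] at hx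
    have := hB (x + (T : ℝ) * I) (by simpa using hx.1.le) (by simpa using hx.2)
    simpa using this
  have hlim0 : Tendsto (fun T : ℝ => B * (1 + |T|) ^ (-p) * |b - a|) atTop (𝓝 0) := by
    have h1 : Tendsto (fun T : ℝ => (1 + |T|)) atTop atTop :=
      tendsto_atTop_add_const_left _ _ tendsto_abs_atTop_atTop
    have h2 := (tendsto_rpow_neg_atTop (y := p) (by linarith)).comp h1
    have h3 := (h2.const_mul B).mul_const |b - a|
    simpa using h3
  have hl1 : Tendsto (fun T : ℝ => ∫ x in a..b, H (x + (T : ℝ) * I)) atTop (𝓝 0) :=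
    squeeze_zero_norm hhor hlim0
  have hl2 : Tendsto (fun T : ℝ => ∫ x in a..b, H (x + (-T : ℝ) * I)) atTop (𝓝 0) := by
    refine squeeze_zero_norm (a := fun T : ℝ => B * (1 + |T|) ^ (-p) * |b - a|) ?_ hlim0
    intro T
    have := hhor (-T)
    rw [abs_neg] at this
    exact this
  have hl3 := intervalIntegral_tendsto_integral ib tendsto_neg_atTop_atBot tendsto_id
  have hl4 := intervalIntegral_tendsto_integral ia tendsto_neg_atTop_atBot tendsto_id
  have hfin := ((hl2.sub hl1).add (hl3.const_smul I)).sub (hl4.const_smul I)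
  have hzero : Tendsto (fun _ : ℝ => (0:ℂ)) atTop (𝓝 0) := tendsto_const_nhds
  have huniq := tendsto_nhds_unique (hfin.congr' ?_) hzero
  · rw [sub_zero, zero_add, ← smul_sub, smul_eq_mul] at huniq
    have := (mul_eq_zero.mp huniq).resolve_left I_ne_zero
    exact (sub_eq_zero.mp this).symm
  · filter_upwards [eventually_gt_atTop 0] with T hT
    simpa using hrect T hT

/-- bound -/
theorem norm_LI_le {H : ℂ → ℂ} {c : ℝ} {g : ℝ → ℝ} (hg : Integrable g)
    (h : ∀ t : ℝ, ‖H (c + t * I)‖ ≤ g t) : ‖LI c H‖ ≤ (2 * Real.pi)⁻¹ * ∫ t, g t := by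
  unfold LI
  rw [norm_mul, Complex.norm_real, Real.norm_eq_abs, abs_of_pos (by positivity)]
  refine mul_le_mul_of_nonneg_left ?_ (by positivity)
  exact norm_integral_le_of_norm_le hg (ae_of_all _ h)

end Pool.Agent.H41.BC
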