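import Pool.Agent.H41.BC.SysB

/-! # Project BC: the number of members `≤ x` and the logarithmic integral -/

set_option autoImplicit false

open MeasureTheory Filter Topology Set

namespace Pool.Agent.H41.BC

namespace PiAux

open SysB

variable {h : ℝ → ℝ} {α β : ℕ → ℝ}

open Classical in
theorem card_cross (H : Sys h α β) {K : ℕ} {L : ℝ} (hK : ∀ n < K, β n ≤ L) :
    (((Finset.range K).filter fun n => Cross (β n)).card : ℝ) ≤ L ^ 2 + 1 := by
  have h1 : ((Finset.range K).filter fun n => Cross (β n)).card ≤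
      (Finset.range (⌊L ^ 2⌋₊ + 1)).card := by
    apply Finset.card_le_card_of_injOn (fun n => ⌊β n ^ 2⌋₊)
    · intro n hn
      rw [Finset.coe_filter] at hn
      have h2 : n < K := Finset.mem_range.mp hn.1
      have h3 : 0 < β n := by linarith [H.lt n, four H n]
      have h4 := hK n h2
      have h5 : ⌊β n ^ 2⌋₊ ≤ ⌊L ^ 2⌋₊ := Nat.floor_le_floor (by nlinarith)
      simp only [Finset.coe_range, mem_Iio]
      omega
    · intro n hn n' hn' he
      rw [Finset.coe_filter] at hn hn'
      simp only at he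
      rcases lt_trichotomy n n' with h2 | h2 | h2
      · have := floor_lt H h2 hn.2
        omega
      · exact h2
      · have := floor_lt H h2 hn'.2
        omega
  rw [Finset.card_range] at h1
  have h2 : ((⌊L ^ 2⌋₊ : ℕ) : ℝ) ≤ L ^ 2 := Nat.floor_le (by positivity)
  have h3 : (((Finset.range K).filter fun n => Cross (β n)).card : ℝ) ≤ (⌊L ^ 2⌋₊ : ℝ) + 1 := by
    exact_mod_cast h1
  linarith

theorem skip_le (H : Sys h α β) {K : ℕ} {L c : ℝ} (hK : ∀ n < K, β n ≤ L) (hc0 : 0 ≤ c)
    (hc : ∀ n < K, h (Real.exp (β n)) ≤ c) :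
    ∑ n ∈ Finset.range K, ∫ v in β n..α (n + 1), g v ≤ (L ^ 2 + 1) * c := by
  classical
  rw [← Finset.sum_filter_add_sum_filter_not (Finset.range K) (fun n => Cross (β n))]
  have h1 : ∑ n ∈ (Finset.range K).filter (fun n => ¬ Cross (β n)), ∫ v in β n..α (n + 1), g v = 0 := by
    apply Finset.sum_eq_zero
    intro n hn
    rw [Finset.mem_filter] at hn
    rcases H.next n with ⟨h2, _⟩ | ⟨_, h2⟩
    · rw [h2, intervalIntegral.integral_same]
    · exact absurd h2 hn.2
  rw [h1, add_zero]
  have h2 : ∀ n ∈ (Finset.range K).filter (fun n => Cross (β n)), ∫ v in β n..α (n + 1), g v ≤ c := by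
    intro n hn
    rw [Finset.mem_filter, Finset.mem_range] at hn
    have h3 := int_le_exp (by linarith [H.lt n, four H n]) (succ H n)
    linarith [gap H n, hc n hn.1]
  have h3 := Finset.sum_le_card_nsmul _ _ _ h2
  rw [nsmul_eq_mul] at h3
  exact h3.trans (mul_le_mul_of_nonneg_right (card_cross H hK) hc0)

/-- the logarithmic integral -/
theorem li_eq {x : ℝ} (hx : 2 ≤ x) : ∫ t in (2 : ℝ)..x, 1 / Real.log t =
    (∫ v in Real.log 2..Real.log x, g v) + Real.log (Real.log x / Real.log 2) := by
  have h2 : 0 < Real.log 2 := Real.log_pos (by norm_num)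
  have h3 : Real.log 2 ≤ Real.log x := Real.log_le_log (by norm_num) hx
  have hx0 : 0 < x := by linarith
  have hpos : ∀ v ∈ uIcc (Real.log 2) (Real.log x), 0 < v := by
    intro v hv
    rw [uIcc_of_le h3] at hv
    linarith [hv.1]
  have e1 : ∫ v in Real.log 2..Real.log x, (fun t => 1 / Real.log t) (Real.exp v) * Real.exp v =
      ∫ t in Real.exp (Real.log 2)..Real.exp (Real.log x), 1 / Real.log t := by
    apply intervalIntegral.integral_comp_mul_deriv'' (f := Real.exp) (f' := Real.exp)
      (g := fun t => 1 / Real.log t)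
    · exact Real.continuous_exp.continuousOn
    · intro v _
      exact (Real.hasDerivAt_exp v).hasDerivWithinAt
    · exact Real.continuous_exp.continuousOn
    · rintro _ ⟨v, hv, rfl⟩
      have hv0 := hpos v hv
      apply ContinuousAt.continuousWithinAt
      apply ContinuousAt.div continuousAt_const
      · exact Real.continuousAt_log (Real.exp_pos v).ne'
      · rw [Real.log_exp]
        exact hv0.ne'
  rw [Real.exp_log (by norm_num), Real.exp_log hx0] at e1
  rw [← e1]
  have e2 : ∫ v in Real.log 2..Real.log x, (fun t => 1 / Real.log t) (Real.exp v) * Real.exp v =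
      ∫ v in Real.log 2..Real.log x, (g v + v⁻¹) := by
    apply intervalIntegral.integral_congr
    intro v hv
    have hv0 := hpos v hv
    simp only
    rw [Real.log_exp, g_eq hv0.ne']
    field_simp
    ring
  rw [e2, intervalIntegral.integral_add (g_int _ _), integral_inv_of_pos h2 (by linarith)]
  apply ContinuousOn.intervalIntegrable
  intro v hv
  exact (continuousAt_inv₀ (hpos v hv).ne').continuousWithinAt

end PiAux

open SysB PiAux

/-- the number of members `≤ x` and the logarithmic integral -/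
theorem pi_law {h : ℝ → ℝ} (hmono : MonotoneOn h (Ici 1))
    (hlog : Tendsto (fun x => h x / Real.log x) atTop atTop)
    {α β : ℕ → ℝ} (H : Sys h α β) {W : ℕ → ℝ} (hW : ∀ n, W n ∈ Ioc (α n) (β n)) :
    ∀ᶠ x : ℝ in atTop, |({n : ℕ | Real.exp (W n) ≤ x}.ncard : ℝ) - ∫ t in (2 : ℝ)..x, 1 / Real.log t| ≤
      3 * h x * Real.log x ^ 2 := by
  obtain ⟨C, hC⟩ : ∃ C, C = |∫ v in Real.log 2..α 0, g v| := ⟨_, rfl⟩
  have hC0 : 0 ≤ C := by rw [hC]; exact abs_nonneg _
  have ev1 : ∀ᶠ x : ℝ in atTop, C + 2 + α 0 ≤ Real.log x :=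
    Real.tendsto_log_atTop.eventually_ge_atTop _
  filter_upwards [ev1, hlog.eventually_ge_atTop 1, eventually_ge_atTop 2] with x hxL hxh hx2
  have hx0 : 0 < x := by linarith
  obtain ⟨L, hL⟩ : ∃ L, L = Real.log x := ⟨_, rfl⟩
  rw [← hL] at hxL hxh ⊢
  have h40 := H.start
  have hL2 : 2 ≤ L := by linarith
  have hL0 : 0 < L := by linarith
  rw [le_div_iff₀ hL0, one_mul] at hxh
  have hexpL : Real.exp L = x := by rw [hL, Real.exp_log hx0]
  -- the number of cells which end before `L`
  have hex : ∃ n, L < β n := by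
    obtain ⟨n, hn⟩ := exists_gt H L
    exact ⟨n, hn.trans (H.lt n)⟩
  classical
  obtain ⟨K, hK1, hK2⟩ : ∃ K, L < β K ∧ ∀ n < K, β n ≤ L :=
    ⟨Nat.find hex, Nat.find_spec hex, fun n hn => not_lt.mp (Nat.find_min hex hn)⟩
  have hset : {n : ℕ | Real.exp (W n) ≤ x} = {n : ℕ | W n ≤ L} := by
    ext n
    simp only [Set.mem_ofPred_eq]
    rw [← hexpL, Real.exp_le_exp]
  rw [hset]
  -- the set is finite
  obtain ⟨N', hN'⟩ := exists_gt H L
  have hfin : {n : ℕ | W n ≤ L} ⊆ (Finset.range N' : Set ℕ) := by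
    intro n hn
    simp only [Set.mem_ofPred_eq] at hn
    rw [Finset.coe_range, mem_Iio]
    by_contra hcon
    push Not at hcon
    have := (α_mono H).monotone hcon
    linarith [(hW n).1]
  have hfin' : {n : ℕ | W n ≤ L}.Finite := (Finset.finite_toSet _).subset hfin
  obtain ⟨N, hN⟩ : ∃ N, N = {n : ℕ | W n ≤ L}.ncard := ⟨_, rfl⟩
  rw [← hN]
  have hKN : K ≤ N := by
    have h1 : (Finset.range K : Set ℕ) ⊆ {n : ℕ | W n ≤ L} := by
      intro n hn
      rw [Finset.coe_range, mem_Iio] at hn
      exact (hW n).2.trans (hK2 n hn)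
    have h2 := Set.ncard_le_ncard h1 hfin'
    rw [Set.ncard_coe_finset, Finset.card_range] at h2
    rw [hN]
    exact h2
  -- lower bound
  have hxmem : (1 : ℝ) ≤ x := by linarith
  have hh0 : 0 ≤ h x := by linarith
  have hlow : ∫ v in α 0..L, g v ≤ N + 1 + (L ^ 2 + 1) * h x := by
    have h1 : ∫ v in α 0..L, g v ≤ ∫ v in α 0..β K, g v := int_mono hK1.le
    rw [int_add (α 0) (α K) (β K), H.mass K, mass_α H K] at h1
    have h2 := skip_le H hK2 hh0 (c := h x) (fun n hn => by
      apply hmono
      · exact Real.one_le_exp (by linarith [H.lt n, four H n])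
      · exact hxmem
      · rw [← hexpL, Real.exp_le_exp]
        exact hK2 n hn)
    have h3 : (K : ℝ) ≤ N := by exact_mod_cast hKN
    linarith
  -- upper bound
  have hup : (N : ℝ) ≤ (∫ v in α 0..L, g v) + 1 := by
    rcases Nat.eq_zero_or_pos N with h1 | h1
    · rw [h1]
      push_cast
      have := int_nonneg (a := α 0) (b := L) (by linarith)
      linarith
    · have h2 : ∃ n, W n ≤ L ∧ N - 1 ≤ n := by
        by_contra hcon
        push Not at hcon
        have h3 : {n : ℕ | W n ≤ L} ⊆ (Finset.range (N - 1) : Set ℕ) := by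
          intro n hn
          rw [Finset.coe_range, mem_Iio]
          exact hcon n hn
        have h4 := Set.ncard_le_ncard h3 (Finset.finite_toSet _)
        rw [Set.ncard_coe_finset, Finset.card_range, ← hN] at h4
        omega
      obtain ⟨n, hn1, hn2⟩ := h2
      have h3 : α (N - 1) ≤ L := by
        have := (α_mono H).monotone hn2
        linarith [(hW n).1]
      have h4 : ∫ v in α 0..α (N - 1), g v ≤ ∫ v in α 0..L, g v := int_mono h3
      rw [mass_α H (N - 1)] at h4
      have h5 := skip_nonneg H (N - 1)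
      have h6 : ((N - 1 : ℕ) : ℝ) = N - 1 := by
        rw [Nat.cast_sub h1]
        norm_num
      rw [h6] at h4
      linarith
  -- the logarithmic integral
  have hli := li_eq hx2
  rw [← hL] at hli
  have hl2 : 0 < Real.log 2 := Real.log_pos (by norm_num)
  have hl2' : 1 / 2 ≤ Real.log 2 := by linarith [Real.log_two_gt_d9]
  have hl2'' : Real.log 2 ≤ 1 := by linarith [Real.log_two_lt_d9]
  have hlog1 : 0 ≤ Real.log (L / Real.log 2) := by
    apply Real.log_nonneg
    rw [le_div_iff₀ hl2]
    linarith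
  have hlog2 : Real.log (L / Real.log 2) ≤ 2 * L := by
    have h1 := Real.log_le_sub_one_of_pos (show 0 < L / Real.log 2 by positivity)
    have h2 : L / Real.log 2 ≤ 2 * L := by
      rw [div_le_iff₀ hl2]
      nlinarith
    linarith
  rw [hli, int_add (Real.log 2) (α 0) L]
  have hC1 := abs_le.mp (le_of_eq hC.symm)
  have hfinal : C + 1 + 2 * L + (L ^ 2 + 1) * h x ≤ 3 * h x * L ^ 2 := by
    have h1 : L * (2 * L ^ 2 - 1) ≤ h x * (2 * L ^ 2 - 1) :=
      mul_le_mul_of_nonneg_right hxh (by nlinarith)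
    nlinarith
  rw [abs_le]
  constructor
  · nlinarith [hC1.1, hC1.2]
  · nlinarith [hC1.1, hC1.2]

end Pool.Agent.H41.BC
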