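import Pool.Agent.H41.BC.Tm
import Pool.Agent.H41.BC.Rec

/-! # Project BC, second version, stub BC2-PI: the number of members `≤ x` (helper56) -/

set_option autoImplicit false

open MeasureTheory Filter Topology Set

namespace Pool.Agent.H41.BC

namespace Pi2Aux

theorem log_cont {a b : ℝ} (ha : 1 < a) (hab : a ≤ b) :
    IntervalIntegrable (fun t : ℝ => 1 / Real.log t) volume a b := by
  apply ContinuousOn.intervalIntegrable
  rw [uIcc_of_le hab]
  intro t ht
  apply ContinuousAt.continuousWithinAt
  apply ContinuousAt.div continuousAt_const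
  · exact Real.continuousAt_log (by linarith [ht.1])
  · exact (Real.log_pos (by linarith [ht.1])).ne'

/-- the logarithmic integral on the logarithmic scale -/
theorem li_f {a b : ℝ} (ha : 1 ≤ a) (hab : a ≤ b) :
    ∫ t in Real.exp a..Real.exp b, 1 / Real.log t = ∫ v in a..b, f v := by
  have hpos : ∀ v ∈ uIcc a b, 1 ≤ v := by
    intro v hv
    rw [uIcc_of_le hab] at hv
    linarith [hv.1]
  have e1 : ∫ v in a..b, (fun t => 1 / Real.log t) (Real.exp v) * Real.exp v =
      ∫ t in Real.exp a..Real.exp b, 1 / Real.log t := by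
    apply intervalIntegral.integral_comp_mul_deriv'' (f := Real.exp) (f' := Real.exp)
      (g := fun t => 1 / Real.log t)
    · exact Real.continuous_exp.continuousOn
    · intro v _
      exact (Real.hasDerivAt_exp v).hasDerivWithinAt
    · exact Real.continuous_exp.continuousOn
    · rintro _ ⟨v, hv, rfl⟩
      have hv0 := hpos v hv
      apply ContinuousAt.continuousWithinAt
      apply ContinuousAt.div continuousAt_const
      · exact Real.continuousAt_log (Real.exp_pos v).ne'
      · rw [Real.log_exp]
        linarith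
  rw [← e1]
  apply intervalIntegral.integral_congr
  intro v hv
  have hv0 := hpos v hv
  simp only
  rw [Real.log_exp, f_eq hv0]
  field_simp

end Pi2Aux

open Pi2Aux

/-- the number of members `≤ x` and the logarithmic integral -/
theorem pi_law2 {h : ℝ → ℝ} (hmono : MonotoneOn h (Ici 1))
    (hlog : Tendsto (fun x => h x / Real.log x) atTop atTop)
    {T : ℝ → ℝ} (H : Fit h T) {W : ℕ → ℝ} (hW : ∀ n, W n ∈ Ioc (al h T n) (be h T n)) :
    ∀ᶠ x : ℝ in atTop, |({n : ℕ | Real.exp (W n) ≤ x}.ncard : ℝ) - ∫ t in (2 : ℝ)..x, 1 / Real.log t| ≤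
      3 * h x / Real.log x := by
  have HT := H.isT
  have h40 := HT.start
  have hlo0 : ∀ n, 0 ≤ lo h T n := fun n => (Nat.cast_nonneg n).trans (le_lo n)
  have hhi0 : ∀ n, 0 ≤ hi h T n := fun n => (hlo0 n).trans (lo_lt_hi n).1.le
  have hWn : ∀ n : ℕ, T n < W n := fun n =>
    (T_le HT (Nat.cast_nonneg n) (le_lo n)).trans_lt (hW n).1
  have hWmono : StrictMono W := by
    apply strictMono_nat_of_lt_succ
    intro n
    exact (hW n).2.trans_lt (lt_of_le_of_lt (T_le HT (hhi0 n) (hi_le_lo H n)) (hW (n + 1)).1)
  obtain ⟨C, hC⟩ : ∃ C, C = |∫ t in (2 : ℝ)..Real.exp (T 0), 1 / Real.log t| := ⟨_, rfl⟩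
  have hC0 : 0 ≤ C := by rw [hC]; exact abs_nonneg _
  have ev1 : ∀ᶠ x : ℝ in atTop, T 0 + 40 ≤ Real.log x :=
    Real.tendsto_log_atTop.eventually_ge_atTop _
  filter_upwards [ev1, hlog.eventually_ge_atTop (C + 1), eventually_ge_atTop 2] with x hxL hxh hx2
  have hx0 : 0 < x := by linarith
  obtain ⟨L, hL⟩ : ∃ L, L = Real.log x := ⟨_, rfl⟩
  rw [← hL] at hxL hxh ⊢
  have hexpL : Real.exp L = x := by rw [hL, Real.exp_log hx0]
  have hL0 : 0 < L := by linarith
  obtain ⟨u, hu0, hTu⟩ := HT.surj L (by linarith)
  have hh0 : 0 ≤ h x := by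
    rw [le_div_iff₀ hL0] at hxh
    nlinarith
  have hhL0 : 0 ≤ h x / (L - 1) := div_nonneg hh0 (by linarith)
  -- the number of members
  have hset : {n : ℕ | Real.exp (W n) ≤ x} = {n : ℕ | W n ≤ L} := by
    ext n
    simp only [Set.mem_ofPred_eq]
    rw [← hexpL, Real.exp_le_exp]
  rw [hset]
  have hex : ∃ n, L < W n := by
    obtain ⟨n, hn⟩ := exists_nat_gt u
    refine ⟨n, ?_⟩
    rw [← hTu]
    exact (T_le HT hu0 hn.le).trans_lt (hWn n)
  classical
  obtain ⟨K, hK1, hK2⟩ : ∃ K, L < W K ∧ ∀ n < K, W n ≤ L :=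
    ⟨Nat.find hex, Nat.find_spec hex, fun n hn => not_lt.mp (Nat.find_min hex hn)⟩
  have hK : {n : ℕ | W n ≤ L} = (Finset.range K : Set ℕ) := by
    ext n
    rw [Finset.coe_range, mem_Iio]
    simp only [Set.mem_ofPred_eq]
    constructor
    · intro hn
      by_contra hcon
      push Not at hcon
      have := hWmono.monotone hcon
      linarith
    · exact hK2 n
  rw [hK, Set.ncard_coe_finset, Finset.card_range]
  -- the upper bound
  have hKu : (K : ℝ) ≤ u + 1 := by
    rcases Nat.eq_zero_or_pos K with h1 | h1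
    · rw [h1]
      push_cast
      linarith
    · have h2 := hK2 (K - 1) (by omega)
      have h3 : T (lo h T (K - 1)) < T u := by
        rw [hTu]
        exact (hW (K - 1)).1.trans_le h2
      have h4 : lo h T (K - 1) < u := by
        by_contra hcon
        push Not at hcon
        have := T_le HT hu0 hcon
        linarith
      have h5 := le_lo (h := h) (T := T) (K - 1)
      rw [Nat.cast_sub h1] at h5
      push_cast at h5
      linarith
  -- the lower bound
  have huK : u < hi h T K := by
    by_contra hcon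
    push Not at hcon
    have h1 := T_le HT (hhi0 K) hcon
    have h2 : W K ≤ T (hi h T K) := (hW K).2
    linarith
  have key : ∀ s : ℕ, (s : ℝ) ≤ u → u ≤ s + 2 * GG h T s + 1 → (GG h T s : ℝ) ≤ h x / (L - 1) := by
    intro s hs1 hs2
    have h4 := T_four HT (Nat.cast_nonneg s)
    have hsL : T s ≤ L := by
      rw [← hTu]
      exact T_le HT (Nat.cast_nonneg s) hs1
    have hs0 : T 0 ≤ T s := T_le HT le_rfl (Nat.cast_nonneg s)
    have hle : Real.exp (T s) ≤ x := by
      rw [← hexpL]
      exact Real.exp_le_exp.mpr hsL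
    have hhs0 : 0 ≤ h (Real.exp (T s)) := by
      have := (H.size (Real.exp (T s)) (Real.exp_le_exp.mpr hs0)).1
      rw [Real.log_exp] at this
      linarith
    have hG : (GG h T s : ℝ) ≤ h (Real.exp (T s)) / T s :=
      Nat.floor_le (div_nonneg hhs0 (by linarith))
    have hmon : h (Real.exp (T s)) ≤ h x :=
      hmono (Real.one_le_exp (by linarith)) (by simp only [mem_Ici]; linarith) hle
    have hsq : h (Real.exp (T s)) ≤ Real.exp (L / 2) := by
      refine (H.size (Real.exp (T s)) (Real.exp_le_exp.mpr hs0)).2.trans ?_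
      rw [Real.sqrt_le_left (Real.exp_pos _).le]
      have h5 : Real.exp (L / 2) ^ 2 = Real.exp L := by
        rw [← Real.exp_nat_mul]
        congr 1
        push_cast
        ring
      rw [h5]
      exact Real.exp_le_exp.mpr hsL
    have hτ : L - 1 ≤ T s := by
      by_contra hcon
      push Not at hcon
      have h6 := (T_len HT (Nat.cast_nonneg s) hs1).2
      rw [hTu] at h6
      have h7 : (u - s) * L ≤ (2 * GG h T s + 1) * L :=
        mul_le_mul_of_nonneg_right (by linarith) hL0.le
      have h8 : (GG h T s : ℝ) ≤ Real.exp (L / 2) / 4 := by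
        refine hG.trans ?_
        rw [div_le_iff₀ (by linarith)]
        have := Real.exp_pos (L / 2)
        nlinarith
      have h9 : Real.exp (T s) ≤ Real.exp L / 2 := by
        have h10 : Real.exp (T s) ≤ Real.exp (L - 1) := Real.exp_le_exp.mpr hcon.le
        have h11 : Real.exp (L - 1) = Real.exp L / Real.exp 1 := Real.exp_sub L 1
        have h12 : 2 ≤ Real.exp 1 := by linarith [Real.add_one_le_exp (1 : ℝ)]
        rw [h11] at h10
        exact h10.trans (div_le_div_of_nonneg_left (Real.exp_pos L).le (by norm_num) h12)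
      have h13 : Real.exp L = Real.exp (L / 2) * Real.exp (L / 2) := by
        rw [← Real.exp_add]
        congr 1
        ring
      have h14 : 1 + L / 2 + (L / 2) ^ 2 / 2 ≤ Real.exp (L / 2) :=
        Real.quadratic_le_exp_of_nonneg (by linarith)
      obtain ⟨E, hE⟩ : ∃ E, E = Real.exp (L / 2) := ⟨_, rfl⟩
      rw [← hE] at h8 h13 h14
      have hE0 : 3 * L ≤ L / 2 + (L / 2) ^ 2 / 2 := by
        have : 0 ≤ L * (L - 40) := mul_nonneg hL0.le (by linarith)
        linarith
      have hE1 : 3 * L < E := by linarith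
      have h15 : (2 * (GG h T s : ℝ) + 1) * L ≤ (E / 2 + 1) * L :=
        mul_le_mul_of_nonneg_right (by linarith) hL0.le
      have h16 : E * E / 2 ≤ (E / 2 + 1) * L := by linarith
      have h17 : 3 * L * E < E * E := mul_lt_mul_of_pos_right hE1 (by linarith)
      have h18 : L ≤ L * E := le_mul_of_one_le_right hL0.le (by linarith)
      linarith
    calc (GG h T s : ℝ) ≤ h (Real.exp (T s)) / T s := hG
      _ ≤ h x / T s := div_le_div_of_nonneg_right hmon (by linarith)
      _ ≤ h x / (L - 1) := div_le_div_of_nonneg_left hh0 (by linarith) hτ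
  have hlow : u ≤ K + h x / (L - 1) + 1 := by
    rcases Nat.eq_zero_or_pos (rr h T K) with h0 | h0
    · by_cases hS : Sp T K
      · have h3 : hi h T K = K + GG h T K + 1 / 2 := by
          unfold hi
          rw [if_neg (by omega), if_pos hS]
        rw [h3] at huK
        rcases lt_or_ge u K with h4 | h4
        · linarith
        · have := key K h4 (by
            have : (0 : ℝ) ≤ GG h T K := Nat.cast_nonneg _
            linarith)
          linarith
      · have h3 : hi h T K = K + 1 := by
          unfold hi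
          rw [if_neg (by omega), if_neg hS]
        linarith
    · have h3 : hi h T K = K + rr h T K / 2 + 1 / 2 := by
        unfold hi
        rw [if_pos h0]
      obtain ⟨s, hs1, _, _, hs4⟩ := rr_pos H h0
      have h4 : (s : ℝ) + 1 ≤ K := by exact_mod_cast hs1
      have h5 : (K : ℝ) + rr h T K = s + 2 * GG h T s := by exact_mod_cast hs4
      have h6 : (0 : ℝ) ≤ rr h T K := Nat.cast_nonneg _
      have := key s (by linarith) (by linarith)
      linarith
  -- the logarithmic integral
  have hli : ∫ t in (2 : ℝ)..x, 1 / Real.log t =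
      (∫ t in (2 : ℝ)..Real.exp (T 0), 1 / Real.log t) + u := by
    have e2 : (2 : ℝ) ≤ Real.exp (T 0) := by linarith [Real.add_one_le_exp (T 0)]
    have e3 : Real.exp (T 0) ≤ Real.exp L := Real.exp_le_exp.mpr (by linarith)
    have e4 : ∫ t in Real.exp (T 0)..Real.exp L, 1 / Real.log t = u := by
      rw [li_f (by linarith) (by linarith), ← hTu, HT.mass 0 u le_rfl hu0, sub_zero]
    rw [hexpL] at e3 e4
    rw [← e4]
    exact (intervalIntegral.integral_add_adjacent_intervals (log_cont (by norm_num) e2)
      (log_cont (by linarith) e3)).symm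
  rw [hli]
  have hC1 := abs_le.mp (le_of_eq hC.symm)
  have hfin : C + 1 + h x / (L - 1) ≤ 3 * h x / L := by
    have h1 : h x / (L - 1) ≤ 2 * (h x / L) := by
      rw [div_le_iff₀ (by linarith : (0 : ℝ) < L - 1)]
      have h2 : 2 * (h x / L) * (L - 1) = h x * (2 * (L - 1) / L) := by ring
      rw [h2]
      apply le_mul_of_one_le_right hh0
      rw [le_div_iff₀ hL0]
      linarith
    have h3 : 3 * h x / L = 3 * (h x / L) := by ring
    rw [h3]
    linarith
  rw [abs_le]
  constructor
  · linarith [hC1.1, hC1.2]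
  · linarith [hC1.1, hC1.2]

end Pool.Agent.H41.BC
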