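import Pool.Agent.H41.BC.Est2

/-! # Project BC: almost sure bounds on the line -/

set_option autoImplicit false

open MeasureTheory Filter Topology Set ProbabilityTheory

namespace Pool.Agent.H41.BC

/-- the weighted moment on the line -/
noncomputable def JJ (α : ℕ → ℝ) (K : ℕ) (σ δ : ℝ) (m : ℕ) (W : ℕ → ℝ) : ENNReal :=
  ∫⁻ t : ℝ, ENNReal.ofReal ((1 + |t|) ^ (-(1 + δ)) * ‖Q K W (α K) (σ + t * Complex.I)‖ ^ (2 * m))

lemma meas_Q (α : ℕ → ℝ) (K : ℕ) (σ : ℝ) :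
    Measurable fun p : (ℕ → ℝ) × ℝ => Q K p.1 (α K) (σ + p.2 * Complex.I) := by
  have h1 : Measurable fun p : (ℕ → ℝ) × ℝ => Z K p.1 (σ + p.2 * Complex.I) := by
    have : (fun p : (ℕ → ℝ) × ℝ => Z K p.1 (σ + p.2 * Complex.I)) =
        fun p => ∏ k ∈ Finset.range K, (1 - Complex.exp (-((σ + p.2 * Complex.I) * p.1 k)))⁻¹ := rfl
    rw [this]
    refine Finset.measurable_prod _ fun k _ => Measurable.inv ?_
    exact (by fun_prop : Continuous fun p : (ℕ → ℝ) × ℝ =>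
      1 - Complex.exp (-(((σ : ℂ) + p.2 * Complex.I) * p.1 k))).measurable
  have h2 : Measurable fun p : (ℕ → ℝ) × ℝ => Complex.exp (-tr 0 (α K) (σ + p.2 * Complex.I)) := by
    refine Continuous.measurable ?_
    refine Continuous.cexp (Continuous.neg ?_)
    exact (tr_diff 0 (α K)).continuous.comp (by fun_prop)
  exact h1.mul h2

lemma meas_F (α : ℕ → ℝ) (K : ℕ) (σ δ : ℝ) (m : ℕ) :
    Measurable fun p : (ℕ → ℝ) × ℝ =>
      ENNReal.ofReal ((1 + |p.2|) ^ (-(1 + δ)) * ‖Q K p.1 (α K) (σ + p.2 * Complex.I)‖ ^ (2 * m)) := by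
  refine Measurable.ennreal_ofReal (Measurable.mul ?_ ((meas_Q α K σ).norm.pow_const _))
  refine Continuous.measurable ?_
  exact (by fun_prop : Continuous fun p : (ℕ → ℝ) × ℝ => 1 + |p.2|).rpow_const fun t => Or.inl (by positivity)

lemma meas_JJ (α : ℕ → ℝ) (K : ℕ) (σ δ : ℝ) (m : ℕ) : Measurable (JJ α K σ δ m) :=
  (meas_F α K σ δ m).lintegral_prod_right'

lemma PP_prob {α β : ℕ → ℝ} {ρ : ℕ → ℝ → ℝ} (H : Cells α β ρ) : IsProbabilityMeasure (PP2 α β ρ) := by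
  have h0 := fun k => law_prob H k
  unfold PP2
  infer_instance

lemma mean_JJ {α β : ℕ → ℝ} {ρ : ℕ → ℝ → ℝ} (H : Cells α β ρ) (m : ℕ) {σ δ : ℝ} (hσ : 1 / 2 < σ) (hδ : 0 < δ) :
    ∃ B : ℝ, ∀ K : ℕ, ∫⁻ W, JJ α K σ δ m W ∂(PP2 α β ρ) ≤ ENNReal.ofReal B := by
  obtain ⟨B, hB⟩ := qm H m hσ
  have := PP_prob H
  refine ⟨w0 δ * B, fun K => ?_⟩
  unfold JJ
  rw [lintegral_lintegral_swap (meas_F α K σ δ m).aemeasurable]
  calc ∫⁻ t : ℝ, ∫⁻ W, ENNReal.ofReal ((1 + |t|) ^ (-(1 + δ)) * ‖Q K W (α K) (σ + t * Complex.I)‖ ^ (2 * m)) ∂(PP2 α β ρ)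
      ≤ ∫⁻ t : ℝ, ENNReal.ofReal ((1 + |t|) ^ (-(1 + δ))) * ENNReal.ofReal B := by
        refine lintegral_mono fun t => ?_
        simp only []
        have h1 : ∀ W : ℕ → ℝ, ENNReal.ofReal ((1 + |t|) ^ (-(1 + δ)) * ‖Q K W (α K) (σ + t * Complex.I)‖ ^ (2 * m)) =
            ENNReal.ofReal ((1 + |t|) ^ (-(1 + δ))) * ENNReal.ofReal (‖Q K W (α K) (σ + t * Complex.I)‖ ^ (2 * m)) :=
          fun W => ENNReal.ofReal_mul (by positivity)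
        simp_rw [h1]
        rw [lintegral_const_mul' _ _ ENNReal.ofReal_ne_top]
        exact mul_le_mul_right (hB K t) _
    _ = ENNReal.ofReal (w0 δ * B) := by
        rw [lintegral_mul_const' _ _ ENNReal.ofReal_ne_top, ENNReal.ofReal_mul (w0_nonneg δ), w0,
          ofReal_integral_eq_lintegral_ofReal (decay_int (by linarith)) (ae_of_all _ fun t => by positivity)]

lemma as_fin {α β : ℕ → ℝ} {ρ : ℕ → ℝ → ℝ} (H : Cells α β ρ) (m : ℕ) {σ δ : ℝ} (hσ : 1 / 2 < σ) (hδ : 0 < δ) (κ : ℕ → ℕ) :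
    ∀ᵐ W ∂(PP2 α β ρ), ∃ C : ℝ, 0 ≤ C ∧ ∀ j : ℕ, JJ α (κ j) σ δ m W ≤ ENNReal.ofReal (C * ((j : ℝ) + 1) ^ 2) := by
  obtain ⟨B, hB⟩ := mean_JJ H m hσ hδ
  set th : ℕ → ENNReal := fun j => ENNReal.ofReal (1 / ((j : ℝ) + 1) ^ 2) with hth
  have hsum : Summable fun j : ℕ => 1 / ((j : ℝ) + 1) ^ 2 := by
    have := (summable_nat_add_iff 1).2 (Real.summable_one_div_nat_pow.2 (by norm_num : 1 < 2))
    simpa using this
  have hfin : ∫⁻ W, ∑' j, th j * JJ α (κ j) σ δ m W ∂(PP2 α β ρ) ≠ ⊤ := by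
    rw [lintegral_tsum fun j => ((meas_JJ α (κ j) σ δ m).const_mul _).aemeasurable]
    have h1 : ∀ j, ∫⁻ W, th j * JJ α (κ j) σ δ m W ∂(PP2 α β ρ) ≤ th j * ENNReal.ofReal B := by
      intro j
      rw [lintegral_const_mul _ (meas_JJ α (κ j) σ δ m)]
      exact mul_le_mul_right (hB _) _
    refine ne_top_of_le_ne_top ?_ (ENNReal.tsum_le_tsum h1)
    rw [ENNReal.tsum_mul_right]
    refine ENNReal.mul_ne_top ?_ ENNReal.ofReal_ne_top
    simp only [hth]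
    exact hsum.tsum_ofReal_ne_top
  have hm : Measurable fun W => ∑' j, th j * JJ α (κ j) σ δ m W :=
    Measurable.tsum fun j => (meas_JJ α (κ j) σ δ m).const_mul _
  filter_upwards [ae_lt_top hm hfin] with W hW
  refine ⟨(∑' j, th j * JJ α (κ j) σ δ m W).toReal, ENNReal.toReal_nonneg, fun j => ?_⟩
  have h1 : th j * JJ α (κ j) σ δ m W ≤ ∑' j, th j * JJ α (κ j) σ δ m W := ENNReal.le_tsum j
  have hj : (0:ℝ) < ((j : ℝ) + 1) ^ 2 := by positivity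
  have h2 : ENNReal.ofReal (((j : ℝ) + 1) ^ 2) * th j = 1 := by
    simp only [hth]
    rw [← ENNReal.ofReal_mul hj.le, mul_one_div_cancel hj.ne', ENNReal.ofReal_one]
  calc JJ α (κ j) σ δ m W = ENNReal.ofReal (((j : ℝ) + 1) ^ 2) * (th j * JJ α (κ j) σ δ m W) := by
        rw [← mul_assoc, h2, one_mul]
    _ ≤ ENNReal.ofReal (((j : ℝ) + 1) ^ 2) * ∑' j, th j * JJ α (κ j) σ δ m W := mul_le_mul_right h1 _
    _ = _ := by
        rw [mul_comm, ENNReal.ofReal_mul ENNReal.toReal_nonneg, ENNReal.ofReal_toReal hW.ne]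

/-- the exponents -/
noncomputable def ep (i : ℕ) : ℝ := 1 / (4 * ((i : ℝ) + 1))

lemma ep_pos (i : ℕ) : 0 < ep i := by unfold ep; positivity

lemma ep_le (i : ℕ) : ep i ≤ 1 / 4 := by
  unfold ep
  exact one_div_le_one_div_of_le (by norm_num) (by linarith [(Nat.cast_nonneg i : (0:ℝ) ≤ i)])

/-- one system which has all the bounds -/
theorem exists_good {α β : ℕ → ℝ} {ρ : ℕ → ℝ → ℝ} (H : Cells α β ρ) (κ : ℕ → ℕ) : ∃ W : ℕ → ℝ, (∀ n, W n ∈ Ioc (α n) (β n)) ∧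
    ∀ i : ℕ, ∃ C : ℝ, 0 ≤ C ∧ ∀ j : ℕ, JJ α (κ j) (1 / 2 + ep i) (ep i) (2 * (i + 1)) W ≤
      ENNReal.ofReal (C * ((j : ℝ) + 1) ^ 2) := by
  have hp := PP_prob H
  have h0 := fun k => law_prob H k
  have h1 : ∀ᵐ W ∂(PP2 α β ρ), ∀ i : ℕ, ∃ C : ℝ, 0 ≤ C ∧ ∀ j : ℕ, JJ α (κ j) (1 / 2 + ep i) (ep i) (2 * (i + 1)) W ≤
      ENNReal.ofReal (C * ((j : ℝ) + 1) ^ 2) :=
    ae_all_iff.2 fun i => as_fin H _ (by linarith [ep_pos i]) (ep_pos i) κ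
  have h2 : ∀ᵐ W ∂(PP2 α β ρ), ∀ n, W n ∈ Ioc (α n) (β n) := by
    refine ae_all_iff.2 fun n => ?_
    have h3 := measurePreserving_eval_infinitePi (law2 α β ρ) n
    exact h3.quasiMeasurePreserving.ae (law_mem (α := α) (β := β) (ρ := ρ) n)
  obtain ⟨W, hW1, hW2⟩ := (h1.and h2).exists
  exact ⟨W, hW2, hW1⟩

end Pool.Agent.H41.BC
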