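import Pool.Agent.H41.BC.G
import Pool.Agent.H41.BC.Fru

/-! # Project BC: moments of the random product on vertical lines -/

set_option autoImplicit false

open MeasureTheory Filter Topology Set ProbabilityTheory

namespace Pool.Agent.H41.BC

/-! ### the law of a member -/

lemma g_pos {v : ℝ} (hv : 0 ≤ v) : 0 < g v := lt_of_lt_of_le one_pos (one_le_g hv)

lemma IsCells.alpha_mono {α β : ℕ → ℝ} (H : IsCells α β) : StrictMono α :=
  strictMono_nat_of_lt_succ fun n => (H.lt n).trans_le (H.le n)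

lemma IsCells.four_le {α β : ℕ → ℝ} (H : IsCells α β) (n : ℕ) : 4 ≤ α n :=
  H.start.trans (H.alpha_mono.monotone (Nat.zero_le n))

lemma IsCells.le_add_one {α β : ℕ → ℝ} (H : IsCells α β) (n : ℕ) : β n ≤ α n + 1 :=
  (cell_len (H.four_le n) (H.lt n).le (H.mass n).le).1

lemma law_prob {α β : ℕ → ℝ} (H : IsCells α β) (n : ℕ) : IsProbabilityMeasure (law α β n) := by
  constructor
  rw [law, withDensity_apply _ MeasurableSet.univ, Measure.restrict_univ,
    ← ofReal_integral_eq_lintegral_ofReal, ← intervalIntegral.integral_of_le (H.lt n).le, H.mass n,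
    ENNReal.ofReal_one]
  · exact (g_cont.integrableOn_Icc).mono_set Ioc_subset_Icc_self
  · refine (ae_restrict_iff' measurableSet_Ioc).2 (ae_of_all _ fun v hv => ?_)
    exact (g_pos ((by linarith [H.four_le n] : (0:ℝ) ≤ α n).trans hv.1.le)).le

lemma int_law {α β : ℕ → ℝ} (H : IsCells α β) (n : ℕ) (f : ℝ → ℝ) :
    ∫ v, f v ∂(law α β n) = ∫ v in α n..β n, g v * f v := by
  rw [law, intervalIntegral.integral_of_le (H.lt n).le,
    integral_withDensity_eq_integral_toReal_smul₀ (g_cont.measurable.ennreal_ofReal.aemeasurable)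
      (ae_of_all _ fun v => ENNReal.ofReal_lt_top)]
  refine setIntegral_congr_fun measurableSet_Ioc fun v hv => ?_
  simp only [smul_eq_mul]
  rw [ENNReal.toReal_ofReal (g_pos ((by linarith [H.four_le n] : (0:ℝ) ≤ α n).trans hv.1.le)).le]

lemma law_mem {α β : ℕ → ℝ} (n : ℕ) : ∀ᵐ v ∂(law α β n), v ∈ Ioc (α n) (β n) := by
  rw [law]
  exact (withDensity_absolutelyContinuous _ _).ae_le
    ((ae_restrict_iff' measurableSet_Ioc).2 (ae_of_all _ fun v hv => hv))

/-! ### the sum over the cells -/

lemma sum_alpha {α β : ℕ → ℝ} (H : IsCells α β) {p : ℝ} (hp : 1 < p) (L : ℕ) (K : ℕ) :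
    ∑ k ∈ Finset.range K, Real.exp (-(p * α (L + k))) ≤
      Real.exp p / (p - 1) * (Real.exp (-((p - 1) * α L)) - Real.exp (-((p - 1) * α (L + K)))) := by
  induction K with
  | zero => simp
  | succ K ih =>
    rw [Finset.sum_range_succ]
    set a := α (L + K) with ha
    set b := β (L + K) with hb
    have hab : a < b := H.lt _
    have ha4 : 4 ≤ a := H.four_le _
    have hb1 : b ≤ a + 1 := H.le_add_one _
    have hbn : b ≤ α (L + (K + 1)) := H.le (L + K)
    have hc : 0 < p - 1 := by linarith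
    have key : Real.exp (-(p * a)) ≤ Real.exp p / (p - 1) *
        (Real.exp (-((p - 1) * a)) - Real.exp (-((p - 1) * b))) := by
      have h1 : Real.exp (-(p * a)) = ∫ v in a..b, g v * Real.exp (-(p * a)) := by
        rw [intervalIntegral.integral_mul_const, H.mass, one_mul]
      have h2 : ∫ v in a..b, g v * Real.exp (-(p * a)) ≤
          ∫ v in a..b, Real.exp p * Real.exp (-((p - 1) * v)) := by
        refine intervalIntegral.integral_mono_on hab.le ?_ ?_ fun v hv => ?_
        · exact (g_cont.mul continuous_const).intervalIntegrable _ _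
        · exact (by fun_prop : Continuous fun v => Real.exp p * Real.exp (-((p - 1) * v))).intervalIntegrable _ _
        · have hv0 : 0 ≤ v := by linarith [hv.1]
          calc g v * Real.exp (-(p * a)) ≤ Real.exp v * Real.exp (p - p * v) := by
                refine mul_le_mul (g_le hv0) (Real.exp_le_exp.2 ?_) (Real.exp_pos _).le (Real.exp_pos _).le
                have : p * v ≤ p * (a + 1) := mul_le_mul_of_nonneg_left (hv.2.trans hb1) (by linarith)
                linarith
            _ = Real.exp p * Real.exp (-((p - 1) * v)) := by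
                rw [← Real.exp_add, ← Real.exp_add]; congr 1; ring
      have h3 : ∫ v in a..b, Real.exp p * Real.exp (-((p - 1) * v)) = Real.exp p / (p - 1) *
          (Real.exp (-((p - 1) * a)) - Real.exp (-((p - 1) * b))) := by
        have hd : ∀ v ∈ uIcc a b, HasDerivAt (fun v => -(Real.exp p / (p - 1)) * Real.exp (-((p - 1) * v)))
            (Real.exp p * Real.exp (-((p - 1) * v))) v := by
          intro v _
          have h0 : HasDerivAt (fun y : ℝ => -((p - 1) * y)) (-(p - 1)) v := by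
            simpa using ((hasDerivAt_id v).const_mul (p - 1)).fun_neg
          have := h0.exp.const_mul (-(Real.exp p / (p - 1)))
          convert! this using 1
          field_simp
        rw [intervalIntegral.integral_eq_sub_of_hasDerivAt hd]
        · ring
        · exact (by fun_prop : Continuous fun v => Real.exp p * Real.exp (-((p - 1) * v))).intervalIntegrable _ _
      rw [h1]
      exact h2.trans h3.le
    have h4 : Real.exp (-((p - 1) * α (L + (K + 1)))) ≤ Real.exp (-((p - 1) * b)) :=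
      Real.exp_le_exp.2 (by nlinarith)
    have h5 : 0 ≤ Real.exp p / (p - 1) := by positivity
    nlinarith [mul_le_mul_of_nonneg_left h4 h5]


/-! ### one factor -/

lemma exp_le_quad (x : ℝ) : Real.exp x ≤ 1 + x + x ^ 2 * Real.exp |x| := by
  rcases le_or_gt |x| 1 with h | h
  · have h1 := (abs_le.1 (Real.abs_exp_sub_one_sub_id_le h)).2
    have h2 : x ^ 2 ≤ x ^ 2 * Real.exp |x| := by
      have : 1 ≤ Real.exp |x| := Real.one_le_exp (abs_nonneg x)
      nlinarith [sq_nonneg x]
    linarith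
  · have h1 : 1 ≤ x ^ 2 := by nlinarith [sq_abs x, abs_nonneg x]
    rcases le_or_gt 0 x with hx | hx
    · rw [abs_of_nonneg hx]
      nlinarith [Real.exp_pos x]
    · rw [abs_of_neg hx] at h ⊢
      have h3 : 1 + (-x) ≤ Real.exp (-x) := by linarith [Real.add_one_le_exp (-x)]
      have h4 : Real.exp x ≤ 1 := Real.exp_le_one_iff.2 hx.le
      nlinarith [mul_le_mul h1 h3 (by linarith) (sq_nonneg x)]

lemma inv_le {z : ℂ} (hz : ‖z‖ ≤ 1 / 2) : ‖(1 - z)⁻¹‖ ≤ Real.exp (z.re + ‖z‖ ^ 2) := by
  have hz1 : ‖-z‖ < 1 := by rw [norm_neg]; linarith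
  have h1 := Complex.norm_log_one_add_sub_self_le hz1
  rw [norm_neg, ← sub_eq_add_neg] at h1
  have h2 : ‖z‖ ^ 2 * (1 - ‖z‖)⁻¹ / 2 ≤ ‖z‖ ^ 2 := by
    have : (1 - ‖z‖)⁻¹ ≤ 2 := by
      rw [inv_le_comm₀ (by linarith) (by norm_num)]; linarith
    nlinarith [sq_nonneg ‖z‖]
  have hne : 1 - z ≠ 0 := by
    intro h0
    have : z = 1 := by linear_combination -h0
    rw [this, norm_one] at hz
    norm_num at hz
  have h3 : ‖(1 - z)⁻¹‖ = Real.exp (-(Complex.log (1 - z)).re) := by
    rw [norm_inv, Complex.log_re, Real.exp_neg, Real.exp_log (norm_pos_iff.2 hne)]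
  rw [h3]
  refine Real.exp_le_exp.2 ?_
  have h4 := (abs_le.1 ((Complex.abs_re_le_norm _).trans (h1.trans h2))).1
  simp only [Complex.sub_re, Complex.neg_re] at h4
  have : (Complex.log (1 - z) - -z).re = (Complex.log (1 - z)).re + z.re := by simp
  linarith [h4]


/-- the moment of one factor -/
lemma factor_moment {α β : ℕ → ℝ} (H : IsCells α β) (m : ℕ) {σ : ℝ} (hσ : 1 / 2 < σ) (n : ℕ) (t : ℝ) :
    ∫⁻ v, ENNReal.ofReal (‖(1 - Complex.exp (-((σ + t * Complex.I) * v)))⁻¹ *
        Complex.exp (-tr (α n) (β n) (σ + t * Complex.I))‖ ^ (2 * m)) ∂(law α β n) ≤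
      ENNReal.ofReal (Real.exp ((16 * m ^ 2 * Real.exp (2 * m) + 2 * m) * Real.exp (-(2 * σ * α n)))) := by
  have := law_prob H n
  set s : ℂ := σ + t * Complex.I with hs
  have hsre : s.re = σ := by simp [hs]
  set q : ℝ := Real.exp (-(σ * α n)) with hq
  have hq0 : 0 < q := Real.exp_pos _
  have hq1 : q ≤ 1 / 4 := by
    have h1 : q ≤ Real.exp (-2) := Real.exp_le_exp.2 (by nlinarith [H.four_le n])
    have h2 : Real.exp (-2) ≤ 1 / 4 := by
      rw [Real.exp_neg, inv_le_comm₀ (Real.exp_pos _) (by norm_num)]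
      have : (4:ℝ) ≤ Real.exp 1 * Real.exp 1 := by nlinarith [Real.exp_one_gt_d9]
      rw [← Real.exp_add] at this
      norm_num at this ⊢
      exact this
    linarith
  have hq2 : q ^ 2 = Real.exp (-(2 * σ * α n)) := by
    rw [hq, ← Real.exp_nat_mul]; congr 1; push_cast; ring
  set z : ℝ → ℂ := fun v => Complex.exp (-(s * v)) with hz
  have hzc : Continuous z := by simp only [hz]; fun_prop
  have hzn : ∀ v ∈ Ioc (α n) (β n), ‖z v‖ ≤ q := by
    intro v hv
    simp only [hz]
    rw [Complex.norm_exp]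
    have : (-(s * (v : ℂ))).re = -(σ * v) := by simp [hs]
    rw [this, hq]
    exact Real.exp_le_exp.2 (by nlinarith [hv.1])
  have hgi : ∫ v, (1 : ℝ) ∂(law α β n) = 1 := by simp
  set T : ℝ := (tr (α n) (β n) s).re with hT
  have hTeq : T = ∫ v, (z v).re ∂(law α β n) := by
    rw [int_law H, hT, tr]
    have h1 : IntervalIntegrable (fun v : ℝ => (g v : ℂ) * Complex.exp (-(s * v))) volume (α n) (β n) :=
      ((Complex.continuous_ofReal.comp g_cont).mul (by fun_prop)).intervalIntegrable _ _
    have h2 := intervalIntegral.intervalIntegral_re (μ := volume) (f := fun v : ℝ => (g v : ℂ) * Complex.exp (-(s * v))) h1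
    simp only [RCLike.re_to_complex] at h2
    rw [← h2]
    refine intervalIntegral.integral_congr fun v _ => ?_
    simp [hz]
  have hTq : |T| ≤ q := by
    rw [hTeq, ← Real.norm_eq_abs]
    refine (norm_integral_le_of_norm_le_const (C := q) ?_).trans (by simp)
    filter_upwards [law_mem (α := α) (β := β) n] with v hv
    rw [Real.norm_eq_abs]
    exact (Complex.abs_re_le_norm _).trans (hzn v hv)
  set Y : ℝ → ℝ := fun v => (z v).re - T with hY
  have hYc : Continuous Y := by simp only [hY]; fun_prop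
  have hYb : ∀ v ∈ Ioc (α n) (β n), |Y v| ≤ 2 * q := by
    intro v hv
    simp only [hY]
    calc |(z v).re - T| ≤ |(z v).re| + |T| := abs_sub _ _
      _ ≤ q + q := add_le_add ((Complex.abs_re_le_norm _).trans (hzn v hv)) hTq
      _ = 2 * q := by ring
  have hpt : ∀ v ∈ Ioc (α n) (β n), ‖(1 - z v)⁻¹ * Complex.exp (-tr (α n) (β n) s)‖ ^ (2 * m) ≤
      (1 + 2 * m * Y v + 16 * m ^ 2 * Real.exp (2 * m) * q ^ 2) * Real.exp (2 * m * q ^ 2) := by
    intro v hv
    have hz1 := hzn v hv
    have h1 : ‖(1 - z v)⁻¹ * Complex.exp (-tr (α n) (β n) s)‖ ≤ Real.exp (Y v + q ^ 2) := by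
      rw [norm_mul, Complex.norm_exp]
      have h2 := inv_le (z := z v) (by linarith)
      have h3 : (-tr (α n) (β n) s).re = -T := by simp [hT]
      rw [h3]
      calc ‖(1 - z v)⁻¹‖ * Real.exp (-T) ≤ Real.exp ((z v).re + ‖z v‖ ^ 2) * Real.exp (-T) :=
            mul_le_mul_of_nonneg_right h2 (Real.exp_pos _).le
        _ = Real.exp (Y v + ‖z v‖ ^ 2) := by rw [← Real.exp_add]; congr 1; simp only [hY]; ring
        _ ≤ Real.exp (Y v + q ^ 2) := by
            refine Real.exp_le_exp.2 ?_
            have := pow_le_pow_left₀ (norm_nonneg _) hz1 2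
            linarith
    calc ‖(1 - z v)⁻¹ * Complex.exp (-tr (α n) (β n) s)‖ ^ (2 * m) ≤ Real.exp (Y v + q ^ 2) ^ (2 * m) :=
          pow_le_pow_left₀ (norm_nonneg _) h1 _
      _ = Real.exp (2 * m * Y v) * Real.exp (2 * m * q ^ 2) := by
          rw [← Real.exp_nat_mul, ← Real.exp_add]; congr 1; push_cast; ring
      _ ≤ _ := by
          refine mul_le_mul_of_nonneg_right ?_ (Real.exp_pos _).le
          refine (exp_le_quad _).trans ?_
          have hY1 := hYb v hv
          have h5 : |2 * m * Y v| ≤ 2 * m := by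
            rw [abs_mul, abs_of_nonneg (by positivity : (0:ℝ) ≤ 2 * m)]
            have : |Y v| ≤ 1 := by linarith
            have hm : (0:ℝ) ≤ 2 * m := by positivity
            nlinarith
          have h6 : (2 * m * Y v) ^ 2 ≤ 16 * m ^ 2 * q ^ 2 := by
            have : (Y v) ^ 2 ≤ (2 * q) ^ 2 := by
              rw [← sq_abs (Y v)]; exact pow_le_pow_left₀ (abs_nonneg _) hY1 2
            have hm : (0:ℝ) ≤ 4 * m ^ 2 := by positivity
            nlinarith [mul_le_mul_of_nonneg_left this hm]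
          have h7 : Real.exp |2 * m * Y v| ≤ Real.exp (2 * m) := Real.exp_le_exp.2 h5
          have h8 := mul_le_mul h6 h7 (Real.exp_pos _).le (by positivity)
          linarith [h8]
  have hYi : Integrable Y (law α β n) := by
    refine Integrable.mono' (integrable_const (2 * q)) hYc.aestronglyMeasurable ?_
    filter_upwards [law_mem (α := α) (β := β) n] with v hv
    rw [Real.norm_eq_abs]; exact hYb v hv
  have hY0 : ∫ v, Y v ∂(law α β n) = 0 := by
    simp only [hY]
    rw [integral_sub, ← hTeq]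
    · simp
    · refine Integrable.mono' (integrable_const q) (by fun_prop : Continuous fun v => (z v).re).aestronglyMeasurable ?_
      filter_upwards [law_mem (α := α) (β := β) n] with v hv
      rw [Real.norm_eq_abs]; exact (Complex.abs_re_le_norm _).trans (hzn v hv)
    · exact integrable_const _
  have hRi : Integrable (fun v => (1 + 2 * m * Y v + 16 * m ^ 2 * Real.exp (2 * m) * q ^ 2) *
      Real.exp (2 * m * q ^ 2)) (law α β n) :=
    (((integrable_const _).add (hYi.const_mul _)).add (integrable_const _)).mul_const _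
  calc _ ≤ ∫⁻ v, ENNReal.ofReal ((1 + 2 * m * Y v + 16 * m ^ 2 * Real.exp (2 * m) * q ^ 2) *
        Real.exp (2 * m * q ^ 2)) ∂(law α β n) := by
        refine lintegral_mono_ae ?_
        filter_upwards [law_mem (α := α) (β := β) n] with v hv
        exact ENNReal.ofReal_le_ofReal (hpt v hv)
    _ = ENNReal.ofReal (∫ v, (1 + 2 * m * Y v + 16 * m ^ 2 * Real.exp (2 * m) * q ^ 2) *
        Real.exp (2 * m * q ^ 2) ∂(law α β n)) := by
        rw [ofReal_integral_eq_lintegral_ofReal hRi]
        filter_upwards [law_mem (α := α) (β := β) n] with v hv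
        exact (pow_nonneg (norm_nonneg _) _).trans (hpt v hv)
    _ ≤ _ := by
        refine ENNReal.ofReal_le_ofReal ?_
        have hint : ∫ v, (1 + 2 * m * Y v + 16 * m ^ 2 * Real.exp (2 * m) * q ^ 2) ∂(law α β n) =
            1 + 16 * m ^ 2 * Real.exp (2 * m) * q ^ 2 := by
          have e1 : ∀ v, 1 + 2 * m * Y v + 16 * m ^ 2 * Real.exp (2 * m) * q ^ 2 =
              (1 + 16 * m ^ 2 * Real.exp (2 * m) * q ^ 2) + 2 * m * Y v := fun v => by ring
          simp_rw [e1]
          rw [integral_add (integrable_const _) (hYi.const_mul _), integral_const_mul, hY0]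
          simp
        have e2 : Real.exp ((16 * m ^ 2 * Real.exp (2 * m) + 2 * m) * q ^ 2) =
            Real.exp (16 * m ^ 2 * Real.exp (2 * m) * q ^ 2) * Real.exp (2 * m * q ^ 2) := by
          rw [← Real.exp_add]; congr 1; ring
        rw [integral_mul_const, hint, ← hq2, e2]
        refine mul_le_mul_of_nonneg_right ?_ (Real.exp_pos _).le
        linarith [Real.add_one_le_exp (16 * m ^ 2 * Real.exp (2 * m) * q ^ 2)]


/-! ### the product -/

lemma tr_split (α β : ℕ → ℝ) (K : ℕ) (s : ℂ) :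
    tr 0 (α K) s = tr 0 (α 0) s + ∑ k ∈ Finset.range K, tr (β k) (α (k + 1)) s +
      ∑ k ∈ Finset.range K, tr (α k) (β k) s := by
  induction K with
  | zero => simp
  | succ K ih =>
    rw [Finset.sum_range_succ, Finset.sum_range_succ, ← tr_add 0 (α K) (α (K + 1)) s,
      ← tr_add (α K) (β K) (α (K + 1)) s, ih]
    ring

lemma Q_split (α β : ℕ → ℝ) (K : ℕ) (V : ℕ → ℝ) (s : ℂ) :
    Q K V (α K) s = Complex.exp (-(tr 0 (α 0) s + ∑ k ∈ Finset.range K, tr (β k) (α (k + 1)) s)) *
      ∏ k ∈ Finset.range K, ((1 - Complex.exp (-(s * V k)))⁻¹ * Complex.exp (-tr (α k) (β k) s)) := by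
  rw [Q, Z, tr_split α β K s, neg_add, Complex.exp_add, ← Finset.sum_neg_distrib, Complex.exp_sum,
    Finset.prod_mul_distrib]
  ring

/-- the skipped intervals contribute a bounded factor -/
lemma skip_norm {α β : ℕ → ℝ} (H : IsCells α β) (n : ℕ) (s : ℂ) :
    ‖tr (β n) (α (n + 1)) s‖ ≤ ∫ v in β n..α (n + 1), g v * Real.exp (-(s.re * v)) := by
  refine (tr_norm (H.le n) s).trans (le_of_eq ?_)
  refine intervalIntegral.integral_congr fun v hv => ?_
  rw [uIcc_of_le (H.le n)] at hv
  have : 0 ≤ v := by linarith [hv.1, H.lt n, H.four_le n]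
  show |g v| * Real.exp (-(s.re * v)) = g v * Real.exp (-(s.re * v))
  rw [abs_of_pos (g_pos this)]

lemma skip_nonneg {α β : ℕ → ℝ} (H : IsCells α β) (n : ℕ) (σ : ℝ) :
    0 ≤ ∫ v in β n..α (n + 1), g v * Real.exp (-(σ * v)) := by
  refine intervalIntegral.integral_nonneg (H.le n) fun v hv => ?_
  have : 0 ≤ v := by linarith [hv.1, H.lt n, H.four_le n]
  exact (mul_pos (g_pos this) (Real.exp_pos _)).le

lemma det_factor {α β : ℕ → ℝ} (H : IsCells α β) {σ : ℝ} (hσ : 1 / 2 < σ) :
    ∃ M : ℝ, 0 < M ∧ ∀ (K : ℕ) (s : ℂ), s.re = σ →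
      ‖Complex.exp (-(tr 0 (α 0) s + ∑ k ∈ Finset.range K, tr (β k) (α (k + 1)) s))‖ ≤ M := by
  refine ⟨Real.exp ((∫ v in (0:ℝ)..α 0, |g v| * Real.exp (-(σ * v))) +
    ∑' n, ∫ v in β n..α (n + 1), g v * Real.exp (-(σ * v))), Real.exp_pos _, fun K s hs => ?_⟩
  rw [Complex.norm_exp]
  refine Real.exp_le_exp.2 ?_
  refine (Complex.re_le_norm _).trans ?_
  rw [norm_neg]
  refine (norm_add_le _ _).trans (add_le_add ?_ ?_)
  · rw [← hs]; exact tr_norm (by linarith [H.start]) s
  · refine (norm_sum_le _ _).trans ?_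
    refine (Finset.sum_le_sum fun k _ => skip_norm H k s).trans ?_
    rw [hs]
    exact (H.skip σ hσ).sum_le_tsum _ fun k _ => skip_nonneg H k σ

/-- independence -/
lemma prod_lint {α β : ℕ → ℝ} (H : IsCells α β) (F : ℕ → ℝ → ENNReal) (hF : ∀ k, Measurable (F k)) (K : ℕ) :
    ∫⁻ W, ∏ k ∈ Finset.range K, F k (W k) ∂(PP α β) = ∏ k ∈ Finset.range K, ∫⁻ v, F k v ∂(law α β k) := by
  have h0 := fun k => law_prob H k
  have hind : iIndepFun (fun k (W : ℕ → ℝ) => F k (W k)) (PP α β) :=
    iIndepFun_infinitePi (P := law α β) (X := fun k => F k) hF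
  rw [lintegral_prod_eq_prod_lintegral_of_indepFun _ _ hind fun k => (hF k).comp (measurable_pi_apply k)]
  refine Finset.prod_congr rfl fun k _ => ?_
  exact (measurePreserving_eval_infinitePi (law α β) k).lintegral_comp (hF k)

theorem qm {α β : ℕ → ℝ} (H : IsCells α β) (m : ℕ) {σ : ℝ} (hσ : 1 / 2 < σ) :
    ∃ B : ℝ, ∀ (K : ℕ) (t : ℝ), ∫⁻ W, ENNReal.ofReal (‖Q K W (α K) (σ + t * Complex.I)‖ ^ (2 * m)) ∂(PP α β) ≤
      ENNReal.ofReal B := by
  obtain ⟨M, hM, hMb⟩ := det_factor H hσ
  set D : ℝ := 16 * m ^ 2 * Real.exp (2 * m) + 2 * m with hD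
  have hD0 : 0 ≤ D := by positivity
  set S : ℝ := Real.exp (2 * σ) / (2 * σ - 1) with hS
  refine ⟨M ^ (2 * m) * Real.exp (D * S), fun K t => ?_⟩
  set s : ℂ := σ + t * Complex.I with hs
  have hsre : s.re = σ := by simp [hs]
  set F : ℕ → ℝ → ENNReal := fun k v => ENNReal.ofReal (‖(1 - Complex.exp (-(s * v)))⁻¹ *
        Complex.exp (-tr (α k) (β k) s)‖ ^ (2 * m)) with hF
  have hFm : ∀ k, Measurable (F k) := by
    intro k
    simp only [hF]
    have : Continuous fun v : ℝ => 1 - Complex.exp (-(s * v)) := by fun_prop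
    exact ((this.measurable.inv.mul_const _).norm.pow_const _).ennreal_ofReal
  calc ∫⁻ W, ENNReal.ofReal (‖Q K W (α K) s‖ ^ (2 * m)) ∂(PP α β)
      ≤ ∫⁻ W, ENNReal.ofReal (M ^ (2 * m)) * ∏ k ∈ Finset.range K, F k (W k) ∂(PP α β) := by
        refine lintegral_mono fun W => ?_
        simp only [hF]
        rw [← ENNReal.ofReal_prod_of_nonneg (fun k _ => by positivity), ← ENNReal.ofReal_mul (by positivity),
          Finset.prod_pow, ← norm_prod, Q_split α β K W s, norm_mul, mul_pow]
        refine ENNReal.ofReal_le_ofReal ?_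
        exact mul_le_mul_of_nonneg_right (pow_le_pow_left₀ (norm_nonneg _) (hMb K s hsre) _) (by positivity)
    _ = ENNReal.ofReal (M ^ (2 * m)) * ∏ k ∈ Finset.range K, ∫⁻ v, F k v ∂(law α β k) := by
        have hmm : Measurable fun W : ℕ → ℝ => ∏ k ∈ Finset.range K, F k (W k) :=
          Finset.measurable_prod _ fun k _ => (hFm k).comp (measurable_pi_apply k)
        rw [lintegral_const_mul _ hmm, prod_lint H F hFm K]
    _ ≤ ENNReal.ofReal (M ^ (2 * m)) * ∏ k ∈ Finset.range K, ENNReal.ofReal (Real.exp (D * Real.exp (-(2 * σ * α k)))) := by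
        gcongr with k _
        exact factor_moment H m hσ k t
    _ = ENNReal.ofReal (M ^ (2 * m) * Real.exp (D * ∑ k ∈ Finset.range K, Real.exp (-(2 * σ * α k)))) := by
        rw [← ENNReal.ofReal_prod_of_nonneg (fun k _ => (Real.exp_pos _).le), ← ENNReal.ofReal_mul (by positivity),
          ← Real.exp_sum, Finset.mul_sum]
    _ ≤ _ := by
        refine ENNReal.ofReal_le_ofReal (mul_le_mul_of_nonneg_left (Real.exp_le_exp.2 ?_) (by positivity))
        refine mul_le_mul_of_nonneg_left ?_ hD0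
        have h1 := sum_alpha H (p := 2 * σ) (by linarith) 0 K
        simp only [zero_add] at h1
        refine h1.trans ?_
        rw [hS]
        have h2 : 0 ≤ Real.exp (2 * σ) / (2 * σ - 1) := div_nonneg (Real.exp_pos _).le (by linarith)
        have h3 : Real.exp (-((2 * σ - 1) * α 0)) ≤ 1 :=
          Real.exp_le_one_iff.2 (by nlinarith [H.start])
        nlinarith [Real.exp_pos (-((2 * σ - 1) * α K))]

end Pool.Agent.H41.BC
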