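import Pool.Agent.H41.BC.G
import Pool.Agent.H41.BC.Fru
import Pool.Agent.H41.BC.Defs2

/-! # Project BC: moments of the random product on vertical lines -/

set_option autoImplicit false

open MeasureTheory Filter Topology Set ProbabilityTheory

namespace Pool.Agent.H41.BC

/-! ### the law of a member -/

/-- the law of the member of the `n`-th cell -/
noncomputable def law2 (α β : ℕ → ℝ) (ρ : ℕ → ℝ → ℝ) (n : ℕ) : Measure ℝ :=
  (volume.restrict (Ioc (α n) (β n))).withDensity fun v => ENNReal.ofReal (ρ n v)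

/-- the law of the random system -/
noncomputable def PP2 (α β : ℕ → ℝ) (ρ : ℕ → ℝ → ℝ) : Measure (ℕ → ℝ) := Measure.infinitePi (law2 α β ρ)

/-- the transform of the law of the member of the `n`-th cell -/
noncomputable def trr (α β : ℕ → ℝ) (ρ : ℕ → ℝ → ℝ) (n : ℕ) (s : ℂ) : ℂ :=
  ∫ v in α n..β n, (ρ n v : ℂ) * Complex.exp (-(s * v))

/-- the deviation of the `n`-th cell and the interval after it from the template -/
noncomputable def dv (α β : ℕ → ℝ) (ρ : ℕ → ℝ → ℝ) (σ : ℝ) (n : ℕ) : ℝ :=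
  (∫ v in α n..β n, |g v - ρ n v| * Real.exp (-(σ * v))) + ∫ v in β n..α (n + 1), g v * Real.exp (-(σ * v))

lemma g_pos {v : ℝ} (hv : 0 ≤ v) : 0 < g v := lt_of_lt_of_le one_pos (one_le_g hv)

variable {α β : ℕ → ℝ} {ρ : ℕ → ℝ → ℝ}

lemma Cells.alpha_mono (H : Cells α β ρ) : StrictMono α :=
  strictMono_nat_of_lt_succ fun n => (H.lt n).trans_le (H.le n)

lemma Cells.four_le (H : Cells α β ρ) (n : ℕ) : 4 ≤ α n :=
  H.start.trans (H.alpha_mono.monotone (Nat.zero_le n))

lemma law_prob (H : Cells α β ρ) (n : ℕ) : IsProbabilityMeasure (law2 α β ρ n) := by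
  constructor
  rw [law2, withDensity_apply _ MeasurableSet.univ, Measure.restrict_univ,
    ← ofReal_integral_eq_lintegral_ofReal, ← intervalIntegral.integral_of_le (H.lt n).le, H.prob n,
    ENNReal.ofReal_one]
  · exact ((H.cont n).integrableOn_Icc).mono_set Ioc_subset_Icc_self
  · exact (ae_restrict_iff' measurableSet_Ioc).2 (ae_of_all _ fun v hv => H.nonneg n v ⟨hv.1.le, hv.2⟩)

lemma int_law (H : Cells α β ρ) (n : ℕ) (f : ℝ → ℝ) :
    ∫ v, f v ∂(law2 α β ρ n) = ∫ v in α n..β n, ρ n v * f v := by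
  rw [law2, intervalIntegral.integral_of_le (H.lt n).le,
    integral_withDensity_eq_integral_toReal_smul₀ ((H.cont n).measurable.ennreal_ofReal.aemeasurable)
      (ae_of_all _ fun v => ENNReal.ofReal_lt_top)]
  refine setIntegral_congr_fun measurableSet_Ioc fun v hv => ?_
  simp only [smul_eq_mul]
  rw [ENNReal.toReal_ofReal (H.nonneg n v ⟨hv.1.le, hv.2⟩)]

lemma law_mem (n : ℕ) : ∀ᵐ v ∂(law2 α β ρ n), v ∈ Ioc (α n) (β n) := by
  rw [law2]
  exact (withDensity_absolutelyContinuous _ _).ae_le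
    ((ae_restrict_iff' measurableSet_Ioc).2 (ae_of_all _ fun v hv => hv))

/-! ### the sum over the cells -/

lemma sum_alpha (H : Cells α β ρ) {p : ℝ} (hp : 1 < p) (L : ℕ) (K : ℕ) :
    ∑ k ∈ Finset.range K, Real.exp (-(p * α (L + k))) ≤
      2 * Real.exp p / (p - 1) * (Real.exp (-((p - 1) * α L)) - Real.exp (-((p - 1) * α (L + K)))) := by
  induction K with
  | zero => simp
  | succ K ih =>
    rw [Finset.sum_range_succ]
    set a := α (L + K) with ha
    set b := β (L + K) with hb
    have hab : a < b := H.lt _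
    have ha4 : 4 ≤ a := H.four_le _
    have hb1 : b ≤ a + 1 := H.short _
    have hbn : b ≤ α (L + (K + 1)) := H.le (L + K)
    have hc : 0 < p - 1 := by linarith
    have key : Real.exp (-(p * a)) ≤ 2 * Real.exp p / (p - 1) *
        (Real.exp (-((p - 1) * a)) - Real.exp (-((p - 1) * b))) := by
      have h1 : Real.exp (-(p * a)) = ∫ v in a..b, ρ (L + K) v * Real.exp (-(p * a)) := by
        rw [intervalIntegral.integral_mul_const, H.prob, one_mul]
      have h2 : ∫ v in a..b, ρ (L + K) v * Real.exp (-(p * a)) ≤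
          ∫ v in a..b, 2 * Real.exp p * Real.exp (-((p - 1) * v)) := by
        refine intervalIntegral.integral_mono_on hab.le ?_ ?_ fun v hv => ?_
        · exact ((H.cont _).mul continuous_const).intervalIntegrable _ _
        · exact (by fun_prop : Continuous fun v => 2 * Real.exp p * Real.exp (-((p - 1) * v))).intervalIntegrable _ _
        · calc ρ (L + K) v * Real.exp (-(p * a)) ≤ (2 * Real.exp v) * Real.exp (p - p * v) := by
                refine mul_le_mul (H.upper _ v hv) (Real.exp_le_exp.2 ?_) (Real.exp_pos _).le (by positivity)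
                have : p * v ≤ p * (a + 1) := mul_le_mul_of_nonneg_left (hv.2.trans hb1) (by linarith)
                linarith
            _ = 2 * (Real.exp v * Real.exp (p - p * v)) := by ring
            _ = 2 * (Real.exp p * Real.exp (-((p - 1) * v))) := by
                rw [← Real.exp_add, ← Real.exp_add]; congr 2; ring
            _ = _ := by ring
      have h3 : ∫ v in a..b, 2 * Real.exp p * Real.exp (-((p - 1) * v)) = 2 * Real.exp p / (p - 1) *
          (Real.exp (-((p - 1) * a)) - Real.exp (-((p - 1) * b))) := by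
        have hd : ∀ v ∈ uIcc a b, HasDerivAt (fun v => -(2 * Real.exp p / (p - 1)) * Real.exp (-((p - 1) * v)))
            (2 * Real.exp p * Real.exp (-((p - 1) * v))) v := by
          intro v _
          have h0 : HasDerivAt (fun y : ℝ => -((p - 1) * y)) (-(p - 1)) v := by
            simpa using ((hasDerivAt_id v).const_mul (p - 1)).fun_neg
          have := h0.exp.const_mul (-(2 * Real.exp p / (p - 1)))
          convert! this using 1
          field_simp
        rw [intervalIntegral.integral_eq_sub_of_hasDerivAt hd]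
        · ring
        · exact (by fun_prop : Continuous fun v => 2 * Real.exp p * Real.exp (-((p - 1) * v))).intervalIntegrable _ _
      rw [h1]
      exact h2.trans h3.le
    have h4 : Real.exp (-((p - 1) * α (L + (K + 1)))) ≤ Real.exp (-((p - 1) * b)) :=
      Real.exp_le_exp.2 (by nlinarith)
    have h5 : 0 ≤ 2 * Real.exp p / (p - 1) := by positivity
    nlinarith [mul_le_mul_of_nonneg_left h4 h5]

/-! ### one factor -/

lemma exp_le_quad (x : ℝ) : Real.exp x ≤ 1 + x + x ^ 2 * Real.exp |x| := by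
  rcases le_or_gt |x| 1 with h | h
  · have h1 := (abs_le.1 (Real.abs_exp_sub_one_sub_id_le h)).2
    have h2 : x ^ 2 ≤ x ^ 2 * Real.exp |x| := by
      have : 1 ≤ Real.exp |x| := Real.one_le_exp (abs_nonneg x)
      nlinarith [sq_nonneg x]
    linarith
  · have h1 : 1 ≤ x ^ 2 := by nlinarith [sq_abs x, abs_nonneg x]
    rcases le_or_gt 0 x with hx | hx
    · rw [abs_of_nonneg hx]
      nlinarith [Real.exp_pos x]
    · rw [abs_of_neg hx] at h ⊢
      have h3 : 1 + (-x) ≤ Real.exp (-x) := by linarith [Real.add_one_le_exp (-x)]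
      have h4 : Real.exp x ≤ 1 := Real.exp_le_one_iff.2 hx.le
      nlinarith [mul_le_mul h1 h3 (by linarith) (sq_nonneg x)]

lemma inv_le {z : ℂ} (hz : ‖z‖ ≤ 1 / 2) : ‖(1 - z)⁻¹‖ ≤ Real.exp (z.re + ‖z‖ ^ 2) := by
  have hz1 : ‖-z‖ < 1 := by rw [norm_neg]; linarith
  have h1 := Complex.norm_log_one_add_sub_self_le hz1
  rw [norm_neg, ← sub_eq_add_neg] at h1
  have h2 : ‖z‖ ^ 2 * (1 - ‖z‖)⁻¹ / 2 ≤ ‖z‖ ^ 2 := by
    have : (1 - ‖z‖)⁻¹ ≤ 2 := by
      rw [inv_le_comm₀ (by linarith) (by norm_num)]; linarith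
    nlinarith [sq_nonneg ‖z‖]
  have hne : 1 - z ≠ 0 := by
    intro h0
    have : z = 1 := by linear_combination -h0
    rw [this, norm_one] at hz
    norm_num at hz
  have h3 : ‖(1 - z)⁻¹‖ = Real.exp (-(Complex.log (1 - z)).re) := by
    rw [norm_inv, Complex.log_re, Real.exp_neg, Real.exp_log (norm_pos_iff.2 hne)]
  rw [h3]
  refine Real.exp_le_exp.2 ?_
  have h4 := (abs_le.1 ((Complex.abs_re_le_norm _).trans (h1.trans h2))).1
  simp only [Complex.sub_re, Complex.neg_re] at h4
  have : (Complex.log (1 - z) - -z).re = (Complex.log (1 - z)).re + z.re := by simp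
  linarith [h4]


/-- the moment of one factor -/
lemma factor_moment (H : Cells α β ρ) (m : ℕ) {σ : ℝ} (hσ : 1 / 2 < σ) (n : ℕ) (t : ℝ) :
    ∫⁻ v, ENNReal.ofReal (‖(1 - Complex.exp (-((σ + t * Complex.I) * v)))⁻¹ *
        Complex.exp (-trr α β ρ n (σ + t * Complex.I))‖ ^ (2 * m)) ∂(law2 α β ρ n) ≤
      ENNReal.ofReal (Real.exp ((16 * m ^ 2 * Real.exp (2 * m) + 2 * m) * Real.exp (-(2 * σ * α n)))) := by
  have := law_prob H n
  set s : ℂ := σ + t * Complex.I with hs
  have hsre : s.re = σ := by simp [hs]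
  set q : ℝ := Real.exp (-(σ * α n)) with hq
  have hq0 : 0 < q := Real.exp_pos _
  have hq1 : q ≤ 1 / 4 := by
    have h1 : q ≤ Real.exp (-2) := Real.exp_le_exp.2 (by nlinarith [H.four_le n])
    have h2 : Real.exp (-2) ≤ 1 / 4 := by
      rw [Real.exp_neg, inv_le_comm₀ (Real.exp_pos _) (by norm_num)]
      have : (4:ℝ) ≤ Real.exp 1 * Real.exp 1 := by nlinarith [Real.exp_one_gt_d9]
      rw [← Real.exp_add] at this
      norm_num at this ⊢
      exact this
    linarith
  have hq2 : q ^ 2 = Real.exp (-(2 * σ * α n)) := by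
    rw [hq, ← Real.exp_nat_mul]; congr 1; push_cast; ring
  set z : ℝ → ℂ := fun v => Complex.exp (-(s * v)) with hz
  have hzc : Continuous z := by simp only [hz]; fun_prop
  have hzn : ∀ v ∈ Ioc (α n) (β n), ‖z v‖ ≤ q := by
    intro v hv
    simp only [hz]
    rw [Complex.norm_exp]
    have : (-(s * (v : ℂ))).re = -(σ * v) := by simp [hs]
    rw [this, hq]
    exact Real.exp_le_exp.2 (by nlinarith [hv.1])
  have hgi : ∫ v, (1 : ℝ) ∂(law2 α β ρ n) = 1 := by simp
  set T : ℝ := (trr α β ρ n s).re with hT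
  have hTeq : T = ∫ v, (z v).re ∂(law2 α β ρ n) := by
    rw [int_law H, hT, trr]
    have h1 : IntervalIntegrable (fun v : ℝ => (ρ n v : ℂ) * Complex.exp (-(s * v))) volume (α n) (β n) :=
      ((Complex.continuous_ofReal.comp (H.cont n)).mul (by fun_prop)).intervalIntegrable _ _
    have h2 := intervalIntegral.intervalIntegral_re (μ := volume) (f := fun v : ℝ => (ρ n v : ℂ) * Complex.exp (-(s * v))) h1
    simp only [RCLike.re_to_complex] at h2
    rw [← h2]
    refine intervalIntegral.integral_congr fun v _ => ?_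
    simp [hz]
  have hTq : |T| ≤ q := by
    rw [hTeq, ← Real.norm_eq_abs]
    refine (norm_integral_le_of_norm_le_const (C := q) ?_).trans (by simp)
    filter_upwards [law_mem (α := α) (β := β) (ρ := ρ) n] with v hv
    rw [Real.norm_eq_abs]
    exact (Complex.abs_re_le_norm _).trans (hzn v hv)
  set Y : ℝ → ℝ := fun v => (z v).re - T with hY
  have hYc : Continuous Y := by simp only [hY]; fun_prop
  have hYb : ∀ v ∈ Ioc (α n) (β n), |Y v| ≤ 2 * q := by
    intro v hv
    simp only [hY]
    calc |(z v).re - T| ≤ |(z v).re| + |T| := abs_sub _ _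
      _ ≤ q + q := add_le_add ((Complex.abs_re_le_norm _).trans (hzn v hv)) hTq
      _ = 2 * q := by ring
  have hpt : ∀ v ∈ Ioc (α n) (β n), ‖(1 - z v)⁻¹ * Complex.exp (-trr α β ρ n s)‖ ^ (2 * m) ≤
      (1 + 2 * m * Y v + 16 * m ^ 2 * Real.exp (2 * m) * q ^ 2) * Real.exp (2 * m * q ^ 2) := by
    intro v hv
    have hz1 := hzn v hv
    have h1 : ‖(1 - z v)⁻¹ * Complex.exp (-trr α β ρ n s)‖ ≤ Real.exp (Y v + q ^ 2) := by
      rw [norm_mul, Complex.norm_exp]
      have h2 := inv_le (z := z v) (by linarith)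
      have h3 : (-trr α β ρ n s).re = -T := by simp [hT]
      rw [h3]
      calc ‖(1 - z v)⁻¹‖ * Real.exp (-T) ≤ Real.exp ((z v).re + ‖z v‖ ^ 2) * Real.exp (-T) :=
            mul_le_mul_of_nonneg_right h2 (Real.exp_pos _).le
        _ = Real.exp (Y v + ‖z v‖ ^ 2) := by rw [← Real.exp_add]; congr 1; simp only [hY]; ring
        _ ≤ Real.exp (Y v + q ^ 2) := by
            refine Real.exp_le_exp.2 ?_
            have := pow_le_pow_left₀ (norm_nonneg _) hz1 2
            linarith
    calc ‖(1 - z v)⁻¹ * Complex.exp (-trr α β ρ n s)‖ ^ (2 * m) ≤ Real.exp (Y v + q ^ 2) ^ (2 * m) :=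
          pow_le_pow_left₀ (norm_nonneg _) h1 _
      _ = Real.exp (2 * m * Y v) * Real.exp (2 * m * q ^ 2) := by
          rw [← Real.exp_nat_mul, ← Real.exp_add]; congr 1; push_cast; ring
      _ ≤ _ := by
          refine mul_le_mul_of_nonneg_right ?_ (Real.exp_pos _).le
          refine (exp_le_quad _).trans ?_
          have hY1 := hYb v hv
          have h5 : |2 * m * Y v| ≤ 2 * m := by
            rw [abs_mul, abs_of_nonneg (by positivity : (0:ℝ) ≤ 2 * m)]
            have : |Y v| ≤ 1 := by linarith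
            have hm : (0:ℝ) ≤ 2 * m := by positivity
            nlinarith
          have h6 : (2 * m * Y v) ^ 2 ≤ 16 * m ^ 2 * q ^ 2 := by
            have : (Y v) ^ 2 ≤ (2 * q) ^ 2 := by
              rw [← sq_abs (Y v)]; exact pow_le_pow_left₀ (abs_nonneg _) hY1 2
            have hm : (0:ℝ) ≤ 4 * m ^ 2 := by positivity
            nlinarith [mul_le_mul_of_nonneg_left this hm]
          have h7 : Real.exp |2 * m * Y v| ≤ Real.exp (2 * m) := Real.exp_le_exp.2 h5
          have h8 := mul_le_mul h6 h7 (Real.exp_pos _).le (by positivity)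
          linarith [h8]
  have hYi : Integrable Y (law2 α β ρ n) := by
    refine Integrable.mono' (integrable_const (2 * q)) hYc.aestronglyMeasurable ?_
    filter_upwards [law_mem (α := α) (β := β) (ρ := ρ) n] with v hv
    rw [Real.norm_eq_abs]; exact hYb v hv
  have hY0 : ∫ v, Y v ∂(law2 α β ρ n) = 0 := by
    simp only [hY]
    rw [integral_sub, ← hTeq]
    · simp
    · refine Integrable.mono' (integrable_const q) (by fun_prop : Continuous fun v => (z v).re).aestronglyMeasurable ?_
      filter_upwards [law_mem (α := α) (β := β) (ρ := ρ) n] with v hv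
      rw [Real.norm_eq_abs]; exact (Complex.abs_re_le_norm _).trans (hzn v hv)
    · exact integrable_const _
  have hRi : Integrable (fun v => (1 + 2 * m * Y v + 16 * m ^ 2 * Real.exp (2 * m) * q ^ 2) *
      Real.exp (2 * m * q ^ 2)) (law2 α β ρ n) :=
    (((integrable_const _).add (hYi.const_mul _)).add (integrable_const _)).mul_const _
  calc _ ≤ ∫⁻ v, ENNReal.ofReal ((1 + 2 * m * Y v + 16 * m ^ 2 * Real.exp (2 * m) * q ^ 2) *
        Real.exp (2 * m * q ^ 2)) ∂(law2 α β ρ n) := by
        refine lintegral_mono_ae ?_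
        filter_upwards [law_mem (α := α) (β := β) (ρ := ρ) n] with v hv
        exact ENNReal.ofReal_le_ofReal (hpt v hv)
    _ = ENNReal.ofReal (∫ v, (1 + 2 * m * Y v + 16 * m ^ 2 * Real.exp (2 * m) * q ^ 2) *
        Real.exp (2 * m * q ^ 2) ∂(law2 α β ρ n)) := by
        rw [ofReal_integral_eq_lintegral_ofReal hRi]
        filter_upwards [law_mem (α := α) (β := β) (ρ := ρ) n] with v hv
        exact (pow_nonneg (norm_nonneg _) _).trans (hpt v hv)
    _ ≤ _ := by
        refine ENNReal.ofReal_le_ofReal ?_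
        have hint : ∫ v, (1 + 2 * m * Y v + 16 * m ^ 2 * Real.exp (2 * m) * q ^ 2) ∂(law2 α β ρ n) =
            1 + 16 * m ^ 2 * Real.exp (2 * m) * q ^ 2 := by
          have e1 : ∀ v, 1 + 2 * m * Y v + 16 * m ^ 2 * Real.exp (2 * m) * q ^ 2 =
              (1 + 16 * m ^ 2 * Real.exp (2 * m) * q ^ 2) + 2 * m * Y v := fun v => by ring
          simp_rw [e1]
          rw [integral_add (integrable_const _) (hYi.const_mul _), integral_const_mul, hY0]
          simp
        have e2 : Real.exp ((16 * m ^ 2 * Real.exp (2 * m) + 2 * m) * q ^ 2) =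
            Real.exp (16 * m ^ 2 * Real.exp (2 * m) * q ^ 2) * Real.exp (2 * m * q ^ 2) := by
          rw [← Real.exp_add]; congr 1; ring
        rw [integral_mul_const, hint, ← hq2, e2]
        refine mul_le_mul_of_nonneg_right ?_ (Real.exp_pos _).le
        linarith [Real.add_one_le_exp (16 * m ^ 2 * Real.exp (2 * m) * q ^ 2)]


/-! ### the product -/

lemma tr_split (α β : ℕ → ℝ) (ρ : ℕ → ℝ → ℝ) (K : ℕ) (s : ℂ) :
    tr 0 (α K) s = tr 0 (α 0) s +
      ∑ k ∈ Finset.range K, (tr (β k) (α (k + 1)) s + (tr (α k) (β k) s - trr α β ρ k s)) +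
      ∑ k ∈ Finset.range K, trr α β ρ k s := by
  induction K with
  | zero => simp
  | succ K ih =>
    rw [Finset.sum_range_succ, Finset.sum_range_succ, ← tr_add 0 (α K) (α (K + 1)) s,
      ← tr_add (α K) (β K) (α (K + 1)) s, ih]
    ring

lemma Q_split (α β : ℕ → ℝ) (ρ : ℕ → ℝ → ℝ) (K : ℕ) (V : ℕ → ℝ) (s : ℂ) :
    Q K V (α K) s = Complex.exp (-(tr 0 (α 0) s +
        ∑ k ∈ Finset.range K, (tr (β k) (α (k + 1)) s + (tr (α k) (β k) s - trr α β ρ k s)))) *
      ∏ k ∈ Finset.range K, ((1 - Complex.exp (-(s * V k)))⁻¹ * Complex.exp (-trr α β ρ k s)) := by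
  rw [Q, Z, tr_split α β ρ K s, neg_add, Complex.exp_add, ← Finset.sum_neg_distrib, Complex.exp_sum,
    Finset.prod_mul_distrib]
  ring

/-- the deviation from the template contributes a bounded factor -/
lemma dv_norm (H : Cells α β ρ) (n : ℕ) (s : ℂ) :
    ‖tr (β n) (α (n + 1)) s + (tr (α n) (β n) s - trr α β ρ n s)‖ ≤ dv α β ρ s.re n := by
  rw [dv, add_comm (∫ v in α n..β n, |g v - ρ n v| * Real.exp (-(s.re * v)))]
  refine (norm_add_le _ _).trans (add_le_add ?_ ?_)
  · refine (tr_norm (H.le n) s).trans (le_of_eq ?_)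
    refine intervalIntegral.integral_congr fun v hv => ?_
    rw [uIcc_of_le (H.le n)] at hv
    have : 0 ≤ v := by linarith [hv.1, H.lt n, H.four_le n]
    show |g v| * Real.exp (-(s.re * v)) = g v * Real.exp (-(s.re * v))
    rw [abs_of_pos (g_pos this)]
  · have h1 : IntervalIntegrable (fun v : ℝ => (g v : ℂ) * Complex.exp (-(s * v))) volume (α n) (β n) :=
      ((Complex.continuous_ofReal.comp g_cont).mul (by fun_prop)).intervalIntegrable _ _
    have h2 : IntervalIntegrable (fun v : ℝ => (ρ n v : ℂ) * Complex.exp (-(s * v))) volume (α n) (β n) :=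
      ((Complex.continuous_ofReal.comp (H.cont n)).mul (by fun_prop)).intervalIntegrable _ _
    rw [tr, trr, ← intervalIntegral.integral_sub h1 h2]
    refine (intervalIntegral.norm_integral_le_integral_norm (H.lt n).le).trans (le_of_eq ?_)
    refine intervalIntegral.integral_congr fun v _ => ?_
    show ‖(g v : ℂ) * Complex.exp (-(s * v)) - (ρ n v : ℂ) * Complex.exp (-(s * v))‖ =
      |g v - ρ n v| * Real.exp (-(s.re * v))
    rw [← sub_mul, norm_mul, Complex.norm_exp, ← Complex.ofReal_sub, Complex.norm_real, Real.norm_eq_abs]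
    congr 2
    simp

lemma dv_nonneg (H : Cells α β ρ) (n : ℕ) (σ : ℝ) : 0 ≤ dv α β ρ σ n := by
  refine add_nonneg ?_ ?_
  · exact intervalIntegral.integral_nonneg (H.lt n).le fun v _ => by positivity
  · refine intervalIntegral.integral_nonneg (H.le n) fun v hv => ?_
    have : 0 ≤ v := by linarith [hv.1, H.lt n, H.four_le n]
    exact (mul_pos (g_pos this) (Real.exp_pos _)).le

lemma det_factor (H : Cells α β ρ) {σ : ℝ} (hσ : 1 / 2 < σ) :
    ∃ M : ℝ, 0 < M ∧ ∀ (K : ℕ) (s : ℂ), s.re = σ →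
      ‖Complex.exp (-(tr 0 (α 0) s +
        ∑ k ∈ Finset.range K, (tr (β k) (α (k + 1)) s + (tr (α k) (β k) s - trr α β ρ k s))))‖ ≤ M := by
  refine ⟨Real.exp ((∫ v in (0:ℝ)..α 0, |g v| * Real.exp (-(σ * v))) +
    ∑' n, dv α β ρ σ n), Real.exp_pos _, fun K s hs => ?_⟩
  rw [Complex.norm_exp]
  refine Real.exp_le_exp.2 ?_
  refine (Complex.re_le_norm _).trans ?_
  rw [norm_neg]
  refine (norm_add_le _ _).trans (add_le_add ?_ ?_)
  · rw [← hs]; exact tr_norm (by linarith [H.start]) s
  · refine (norm_sum_le _ _).trans ?_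
    refine (Finset.sum_le_sum fun k _ => dv_norm H k s).trans ?_
    rw [hs]
    exact (H.dev σ hσ).sum_le_tsum _ fun k _ => dv_nonneg H k σ

/-- independence -/
lemma prod_lint (H : Cells α β ρ) (F : ℕ → ℝ → ENNReal) (hF : ∀ k, Measurable (F k)) (K : ℕ) :
    ∫⁻ W, ∏ k ∈ Finset.range K, F k (W k) ∂(PP2 α β ρ) = ∏ k ∈ Finset.range K, ∫⁻ v, F k v ∂(law2 α β ρ k) := by
  have h0 := fun k => law_prob H k
  have hind : iIndepFun (fun k (W : ℕ → ℝ) => F k (W k)) (PP2 α β ρ) :=
    iIndepFun_infinitePi (P := law2 α β ρ) (X := fun k => F k) hF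
  rw [lintegral_prod_eq_prod_lintegral_of_indepFun _ _ hind fun k => (hF k).comp (measurable_pi_apply k)]
  refine Finset.prod_congr rfl fun k _ => ?_
  exact (measurePreserving_eval_infinitePi (law2 α β ρ) k).lintegral_comp (hF k)

theorem qm (H : Cells α β ρ) (m : ℕ) {σ : ℝ} (hσ : 1 / 2 < σ) :
    ∃ B : ℝ, ∀ (K : ℕ) (t : ℝ), ∫⁻ W, ENNReal.ofReal (‖Q K W (α K) (σ + t * Complex.I)‖ ^ (2 * m)) ∂(PP2 α β ρ) ≤
      ENNReal.ofReal B := by
  obtain ⟨M, hM, hMb⟩ := det_factor H hσ
  set D : ℝ := 16 * m ^ 2 * Real.exp (2 * m) + 2 * m with hD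
  have hD0 : 0 ≤ D := by positivity
  set S : ℝ := 2 * Real.exp (2 * σ) / (2 * σ - 1) with hS
  refine ⟨M ^ (2 * m) * Real.exp (D * S), fun K t => ?_⟩
  set s : ℂ := σ + t * Complex.I with hs
  have hsre : s.re = σ := by simp [hs]
  set F : ℕ → ℝ → ENNReal := fun k v => ENNReal.ofReal (‖(1 - Complex.exp (-(s * v)))⁻¹ *
        Complex.exp (-trr α β ρ k s)‖ ^ (2 * m)) with hF
  have hFm : ∀ k, Measurable (F k) := by
    intro k
    simp only [hF]
    have : Continuous fun v : ℝ => 1 - Complex.exp (-(s * v)) := by fun_prop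
    exact ((this.measurable.inv.mul_const _).norm.pow_const _).ennreal_ofReal
  calc ∫⁻ W, ENNReal.ofReal (‖Q K W (α K) s‖ ^ (2 * m)) ∂(PP2 α β ρ)
      ≤ ∫⁻ W, ENNReal.ofReal (M ^ (2 * m)) * ∏ k ∈ Finset.range K, F k (W k) ∂(PP2 α β ρ) := by
        refine lintegral_mono fun W => ?_
        simp only [hF]
        rw [← ENNReal.ofReal_prod_of_nonneg (fun k _ => by positivity), ← ENNReal.ofReal_mul (by positivity),
          Finset.prod_pow, ← norm_prod, Q_split α β ρ K W s, norm_mul, mul_pow]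
        refine ENNReal.ofReal_le_ofReal ?_
        exact mul_le_mul_of_nonneg_right (pow_le_pow_left₀ (norm_nonneg _) (hMb K s hsre) _) (by positivity)
    _ = ENNReal.ofReal (M ^ (2 * m)) * ∏ k ∈ Finset.range K, ∫⁻ v, F k v ∂(law2 α β ρ k) := by
        have hmm : Measurable fun W : ℕ → ℝ => ∏ k ∈ Finset.range K, F k (W k) :=
          Finset.measurable_prod _ fun k _ => (hFm k).comp (measurable_pi_apply k)
        rw [lintegral_const_mul _ hmm, prod_lint H F hFm K]
    _ ≤ ENNReal.ofReal (M ^ (2 * m)) * ∏ k ∈ Finset.range K, ENNReal.ofReal (Real.exp (D * Real.exp (-(2 * σ * α k)))) := by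
        gcongr with k _
        exact factor_moment H m hσ k t
    _ = ENNReal.ofReal (M ^ (2 * m) * Real.exp (D * ∑ k ∈ Finset.range K, Real.exp (-(2 * σ * α k)))) := by
        rw [← ENNReal.ofReal_prod_of_nonneg (fun k _ => (Real.exp_pos _).le), ← ENNReal.ofReal_mul (by positivity),
          ← Real.exp_sum, Finset.mul_sum]
    _ ≤ _ := by
        refine ENNReal.ofReal_le_ofReal (mul_le_mul_of_nonneg_left (Real.exp_le_exp.2 ?_) (by positivity))
        refine mul_le_mul_of_nonneg_left ?_ hD0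
        have h1 := sum_alpha H (p := 2 * σ) (by linarith) 0 K
        simp only [zero_add] at h1
        refine h1.trans ?_
        rw [hS]
        have h2 : 0 ≤ 2 * Real.exp (2 * σ) / (2 * σ - 1) := div_nonneg (by positivity) (by linarith)
        have h3 : Real.exp (-((2 * σ - 1) * α 0)) ≤ 1 :=
          Real.exp_le_one_iff.2 (by nlinarith [H.start])
        nlinarith [Real.exp_pos (-((2 * σ - 1) * α K))]

end Pool.Agent.H41.BC
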