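import Pool.Agent.H41.BC.QM2

/-! # Project BC: convergence of the density constants -/

set_option autoImplicit false

open MeasureTheory Filter Topology Set ProbabilityTheory

namespace Pool.Agent.H41.BC

variable {α β : ℕ → ℝ} {ρ : ℕ → ℝ → ℝ}

lemma Cells.tendsto (H : Cells α β ρ) : Tendsto α atTop atTop := by
  have hs : Summable fun k => Real.exp (-(2 * α k)) := by
    refine summable_of_sum_range_le (c := 2 * Real.exp 2) (fun k => (Real.exp_pos _).le) fun K => ?_
    have h1 := sum_alpha H (p := 2) (by norm_num) 0 K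
    simp only [zero_add] at h1
    refine h1.trans ?_
    have h3 : Real.exp (-α 0) ≤ 1 := Real.exp_le_one_iff.2 (by linarith [H.start])
    norm_num
    nlinarith [Real.exp_pos (-α K), Real.exp_pos 2]
  have h2 := Real.tendsto_exp_comp_nhds_zero.1 hs.tendsto_atTop_zero
  have h3 : Tendsto (fun k => 2 * α k) atTop atTop := by
    have := tendsto_neg_atBot_atTop.comp h2
    simpa [Function.comp_def] using this
  exact (tendsto_const_mul_atTop_of_pos (by norm_num : (0:ℝ) < 2)).1 h3

/-- the value at `1` -/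
noncomputable def q1 (α : ℕ → ℝ) (W : ℕ → ℝ) (K : ℕ) : ℝ :=
  (∏ k ∈ Finset.range K, (1 - Real.exp (-W k))⁻¹) * Real.exp (-∫ v in (0:ℝ)..α K, g v * Real.exp (-v))

lemma tr_one (a b : ℝ) : tr a b 1 = ((∫ v in a..b, g v * Real.exp (-v) : ℝ) : ℂ) := by
  rw [tr, ← intervalIntegral.integral_ofReal]
  refine intervalIntegral.integral_congr fun v _ => ?_
  simp

lemma Q_one (α : ℕ → ℝ) (W : ℕ → ℝ) (K : ℕ) : Q K W (α K) 1 = (q1 α W K : ℂ) := by
  rw [Q, Z, tr_one, q1]
  push_cast
  simp

lemma q1_pos (α : ℕ → ℝ) {W : ℕ → ℝ} (hW : ∀ k, 0 < W k) (K : ℕ) : 0 < q1 α W K := by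
  refine mul_pos (Finset.prod_pos fun k _ => inv_pos.2 ?_) (Real.exp_pos _)
  have : Real.exp (-W k) < 1 := Real.exp_lt_one_iff.2 (neg_lt_zero.2 (hW k))
  linarith

lemma log_inv_bound {u : ℝ} (h0 : 0 ≤ u) (h1 : u ≤ 1 / 2) : |u + Real.log (1 - u)| ≤ 2 * u ^ 2 := by
  have h2 := Real.abs_log_sub_add_sum_range_le (x := u) (by rw [abs_of_nonneg h0]; linarith) 1
  simp only [Finset.range_one, Finset.sum_singleton, CharP.cast_eq_zero, zero_add, pow_one, div_one] at h2
  rw [abs_of_nonneg h0] at h2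
  have h3 : u ^ (1 + 1) / (1 - u) ≤ 2 * u ^ 2 := by
    have e : u ^ (1 + 1) = u ^ 2 := by norm_num
    rw [e, div_le_iff₀ (by linarith)]
    have := mul_nonneg (sq_nonneg u) (by linarith : 0 ≤ 1 - 2 * u)
    nlinarith
  exact h2.trans h3

/-- one step -/
lemma q1_step (H : Cells α β ρ) {W : ℕ → ℝ} (hW : ∀ n, W n ∈ Ioc (α n) (β n)) {σ : ℝ}
    (hσ1 : σ < 1) (n : ℕ) :
    |Real.log (q1 α W (n + 1)) - Real.log (q1 α W n)| ≤ (Real.exp (-α n) - Real.exp (-β n)) +
      2 * Real.exp (-(2 * α n)) + Real.exp (-((1 - σ) * α n)) * dv α β ρ σ n := by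
  have hW0 : ∀ k, 0 < W k := fun k => by linarith [(hW k).1, H.four_le k]
  have hq := q1_pos α hW0 n
  have hu1 : Real.exp (-W n) ≤ Real.exp (-α n) := Real.exp_le_exp.2 (by linarith [(hW n).1])
  have hu2 : Real.exp (-β n) ≤ Real.exp (-W n) := Real.exp_le_exp.2 (by linarith [(hW n).2])
  have hu3 : Real.exp (-α n) ≤ 1 / 2 := by
    have h1 : Real.exp (-α n) ≤ Real.exp (-1) := Real.exp_le_exp.2 (by linarith [H.four_le n])
    have h2 : Real.exp (-1) ≤ 1 / 2 := by
      rw [Real.exp_neg, inv_le_comm₀ (Real.exp_pos _) (by norm_num)]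
      linarith [Real.exp_one_gt_d9]
    linarith
  set u := Real.exp (-W n) with hu
  have hu0 : 0 < u := Real.exp_pos _
  have hgc : Continuous fun v => g v * Real.exp (-v) := g_cont.mul (by fun_prop)
  have hρc : Continuous fun v => ρ n v * Real.exp (-v) := (H.cont n).mul (by fun_prop)
  have hratio : q1 α W (n + 1) = q1 α W n * ((1 - u)⁻¹ *
      Real.exp (-((∫ v in α n..β n, g v * Real.exp (-v)) + ∫ v in β n..α (n + 1), g v * Real.exp (-v)))) := by
    rw [q1, q1, Finset.prod_range_succ, intervalIntegral.integral_add_adjacent_intervals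
      (hgc.intervalIntegrable _ _) (hgc.intervalIntegrable _ _),
      ← intervalIntegral.integral_add_adjacent_intervals (a := (0:ℝ)) (b := α n) (c := α (n + 1))
      (hgc.intervalIntegrable _ _) (hgc.intervalIntegrable _ _), neg_add, Real.exp_add]
    ring
  have h1u : 0 < 1 - u := by linarith
  rw [hratio, Real.log_mul hq.ne' (by positivity), Real.log_mul (by positivity) (Real.exp_pos _).ne',
    Real.log_exp, Real.log_inv, add_sub_cancel_left]
  have hb1 := log_inv_bound hu0.le (by linarith)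
  have hm1 : (∫ v in α n..β n, ρ n v * Real.exp (-v)) ≤ Real.exp (-α n) := by
    calc (∫ v in α n..β n, ρ n v * Real.exp (-v)) ≤ ∫ v in α n..β n, ρ n v * Real.exp (-α n) := by
          refine intervalIntegral.integral_mono_on (H.lt n).le (hρc.intervalIntegrable _ _)
            (((H.cont n).mul continuous_const).intervalIntegrable _ _) fun v hv => ?_
          exact mul_le_mul_of_nonneg_left (Real.exp_le_exp.2 (by linarith [hv.1])) (H.nonneg n v hv)
      _ = Real.exp (-α n) := by rw [intervalIntegral.integral_mul_const, H.prob, one_mul]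
  have hm2 : Real.exp (-β n) ≤ (∫ v in α n..β n, ρ n v * Real.exp (-v)) := by
    calc Real.exp (-β n) = ∫ v in α n..β n, ρ n v * Real.exp (-β n) := by
          rw [intervalIntegral.integral_mul_const, H.prob, one_mul]
      _ ≤ ∫ v in α n..β n, ρ n v * Real.exp (-v) := by
          refine intervalIntegral.integral_mono_on (H.lt n).le (((H.cont n).mul continuous_const).intervalIntegrable _ _)
            (hρc.intervalIntegrable _ _) fun v hv => ?_
          exact mul_le_mul_of_nonneg_left (Real.exp_le_exp.2 (by linarith [hv.2])) (H.nonneg n v hv)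
  have hw : ∀ v : ℝ, α n ≤ v → Real.exp (-v) ≤ Real.exp (-((1 - σ) * α n)) * Real.exp (-(σ * v)) := by
    intro v hv
    rw [← Real.exp_add]
    refine Real.exp_le_exp.2 ?_
    have : (1 - σ) * α n ≤ (1 - σ) * v := mul_le_mul_of_nonneg_left hv (by linarith)
    linarith
  have hs0 : 0 ≤ ∫ v in β n..α (n + 1), g v * Real.exp (-v) := by
    refine intervalIntegral.integral_nonneg (H.le n) fun v hv => ?_
    have : 0 ≤ v := by linarith [hv.1, H.lt n, H.four_le n]
    exact (mul_pos (g_pos this) (Real.exp_pos _)).le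
  have hs1 : (∫ v in β n..α (n + 1), g v * Real.exp (-v)) ≤
      Real.exp (-((1 - σ) * α n)) * ∫ v in β n..α (n + 1), g v * Real.exp (-(σ * v)) := by
    rw [← intervalIntegral.integral_const_mul]
    refine intervalIntegral.integral_mono_on (H.le n) (hgc.intervalIntegrable _ _)
      ((continuous_const.mul (g_cont.mul (by fun_prop))).intervalIntegrable _ _) fun v hv => ?_
    have hv0 : 0 ≤ v := by linarith [hv.1, H.lt n, H.four_le n]
    calc g v * Real.exp (-v) ≤ g v * (Real.exp (-((1 - σ) * α n)) * Real.exp (-(σ * v))) :=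
          mul_le_mul_of_nonneg_left (hw v (by linarith [hv.1, H.lt n])) (g_pos hv0).le
      _ = _ := by ring
  have hd1 : |(∫ v in α n..β n, g v * Real.exp (-v)) - ∫ v in α n..β n, ρ n v * Real.exp (-v)| ≤
      Real.exp (-((1 - σ) * α n)) * ∫ v in α n..β n, |g v - ρ n v| * Real.exp (-(σ * v)) := by
    rw [← intervalIntegral.integral_sub (hgc.intervalIntegrable _ _) (hρc.intervalIntegrable _ _),
      ← intervalIntegral.integral_const_mul, ← Real.norm_eq_abs]
    refine (intervalIntegral.norm_integral_le_integral_norm (H.lt n).le).trans ?_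
    have hac : Continuous fun v => |g v - ρ n v| := (g_cont.sub (H.cont n)).abs
    refine intervalIntegral.integral_mono_on (H.lt n).le ((hgc.sub hρc).norm.intervalIntegrable _ _)
      ((continuous_const.mul (hac.mul (by fun_prop))).intervalIntegrable _ _) fun v hv => ?_
    rw [Real.norm_eq_abs, ← sub_mul, abs_mul, abs_of_pos (Real.exp_pos _)]
    calc |g v - ρ n v| * Real.exp (-v) ≤ |g v - ρ n v| * (Real.exp (-((1 - σ) * α n)) * Real.exp (-(σ * v))) :=
          mul_le_mul_of_nonneg_left (hw v hv.1) (abs_nonneg _)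
      _ = _ := by ring
  have hu4 : u ^ 2 ≤ Real.exp (-(2 * α n)) := by
    have : Real.exp (-(2 * α n)) = Real.exp (-α n) ^ 2 := by rw [← Real.exp_nat_mul]; congr 1; push_cast; ring
    rw [this]
    exact pow_le_pow_left₀ hu0.le hu1 2
  rw [dv, mul_add]
  rw [abs_le] at hb1 hd1 ⊢
  constructor <;> linarith [hb1.1, hb1.2, hd1.1, hd1.2]

lemma q1_cauchy (H : Cells α β ρ) {W : ℕ → ℝ} (hW : ∀ n, W n ∈ Ioc (α n) (β n)) {σ : ℝ}
    (hσ : 1 / 2 < σ) (hσ1 : σ < 1) :
    ∃ C : ℝ, 0 ≤ C ∧ ∀ L K : ℕ, |Real.log (q1 α W (L + K)) - Real.log (q1 α W L)| ≤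
      C * Real.exp (-((1 - σ) * α L)) := by
  set sk : ℕ → ℝ := fun n => dv α β ρ σ n with hsk
  have hsk0 : ∀ n, 0 ≤ sk n := fun n => dv_nonneg H n σ
  have hS : Summable sk := H.dev σ hσ
  have hT : 0 ≤ ∑' n, sk n := tsum_nonneg hsk0
  refine ⟨1 + 4 * Real.exp 2 + ∑' n, sk n, by positivity, fun L K => ?_⟩
  have key : |Real.log (q1 α W (L + K)) - Real.log (q1 α W L)| ≤
      (Real.exp (-α L) - Real.exp (-α (L + K))) + 2 * ∑ k ∈ Finset.range K, Real.exp (-(2 * α (L + k))) +
        Real.exp (-((1 - σ) * α L)) * ∑ k ∈ Finset.range K, sk (L + k) := by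
    induction K with
    | zero => simp
    | succ K ih =>
      have h1 := q1_step H hW hσ1 (L + K)
      rw [Finset.sum_range_succ, Finset.sum_range_succ]
      have h2 : Real.exp (-α (L + (K + 1))) ≤ Real.exp (-β (L + K)) :=
        Real.exp_le_exp.2 (neg_le_neg (H.le (L + K)))
      have h3 : Real.exp (-((1 - σ) * α (L + K))) * sk (L + K) ≤ Real.exp (-((1 - σ) * α L)) * sk (L + K) := by
        refine mul_le_mul_of_nonneg_right (Real.exp_le_exp.2 ?_) (hsk0 _)
        have := mul_le_mul_of_nonneg_left (H.alpha_mono.monotone (Nat.le_add_right L K)) (by linarith : 0 ≤ 1 - σ)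
        linarith
      have h4 : |Real.log (q1 α W (L + (K + 1))) - Real.log (q1 α W L)| ≤
          |Real.log (q1 α W (L + K + 1)) - Real.log (q1 α W (L + K))| +
          |Real.log (q1 α W (L + K)) - Real.log (q1 α W L)| := abs_sub_le _ _ _
      have h5 : (L + (K + 1)) = (L + K + 1) := by ring
      rw [h5] at h2 h4 ⊢
      have h6 : Real.exp (-((1 - σ) * α (L + K))) * sk (L + K) = Real.exp (-((1 - σ) * α (L + K))) *
        dv α β ρ σ (L + K) := rfl
      linarith
  refine key.trans ?_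
  have h0 : 0 ≤ α L := by linarith [H.four_le L]
  have h1 : Real.exp (-α L) ≤ Real.exp (-((1 - σ) * α L)) := Real.exp_le_exp.2 (by nlinarith)
  have h2 : ∑ k ∈ Finset.range K, Real.exp (-(2 * α (L + k))) ≤ 2 * Real.exp 2 * Real.exp (-α L) := by
    have h3 := sum_alpha H (p := 2) (by norm_num) L K
    norm_num at h3
    nlinarith [Real.exp_pos (-α (L + K)), Real.exp_pos 2]
  have h3 : ∑ k ∈ Finset.range K, sk (L + k) ≤ ∑' n, sk n := by
    have e : ∑ k ∈ Finset.range K, sk (L + k) = ∑ k ∈ (Finset.range K).map (addLeftEmbedding L), sk k := by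
      rw [Finset.sum_map]; rfl
    rw [e]
    exact hS.sum_le_tsum _ fun n _ => hsk0 n
  have h4 := mul_le_mul_of_nonneg_left h3 (Real.exp_pos (-((1 - σ) * α L))).le
  have h5 := mul_le_mul_of_nonneg_left h1 (Real.exp_pos 2).le
  have h6 : 0 ≤ Real.exp (-α (L + K)) := (Real.exp_pos _).le
  nlinarith

/-- the density -/
theorem q_lim (H : Cells α β ρ) {W : ℕ → ℝ} (hW : ∀ n, W n ∈ Ioc (α n) (β n)) :
    ∃ c : ℝ, 0 < c ∧ ∀ σ : ℝ, 1 / 2 < σ → σ < 1 → ∃ C : ℝ, 0 ≤ C ∧ ∀ K : ℕ,
      |q1 α W K - c| ≤ C * Real.exp (-((1 - σ) * α K)) := by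
  have hW0 : ∀ k, 0 < W k := fun k => by linarith [(hW k).1, H.four_le k]
  set l : ℕ → ℝ := fun K => Real.log (q1 α W K) with hl
  have hcau : CauchySeq l := by
    obtain ⟨C, hC, h⟩ := q1_cauchy H hW (σ := 3 / 4) (by norm_num) (by norm_num)
    refine cauchySeq_of_le_tendsto_0 (fun K => 2 * (C * Real.exp (-((1 - 3 / 4) * α K)))) ?_ ?_
    · intro n m N hn hm
      obtain ⟨a, rfl⟩ := Nat.exists_eq_add_of_le hn
      obtain ⟨b, rfl⟩ := Nat.exists_eq_add_of_le hm
      have h1 := h N a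
      have h2 := h N b
      rw [Real.dist_eq]
      calc |l (N + a) - l (N + b)| ≤ |l (N + a) - l N| + |l N - l (N + b)| := abs_sub_le _ _ _
        _ ≤ _ := by rw [abs_sub_comm (l N)]; simp only [hl]; linarith
    · have h1 : Tendsto (fun K => Real.exp (-((1 - 3 / 4) * α K))) atTop (𝓝 0) := by
        refine Real.tendsto_exp_comp_nhds_zero.2 (tendsto_neg_atTop_atBot.comp ?_)
        exact H.tendsto.const_mul_atTop (by norm_num)
      simpa using (h1.const_mul C).const_mul 2
  obtain ⟨ℓ, hℓ⟩ := cauchySeq_tendsto_of_complete hcau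
  refine ⟨Real.exp ℓ, Real.exp_pos _, fun σ hσ hσ1 => ?_⟩
  obtain ⟨C, hC, h⟩ := q1_cauchy H hW hσ hσ1
  refine ⟨Real.exp ℓ * (C * Real.exp C), by positivity, fun K => ?_⟩
  have h1 : |ℓ - l K| ≤ C * Real.exp (-((1 - σ) * α K)) := by
    have h2 : Tendsto (fun m => |l (K + m) - l K|) atTop (𝓝 |ℓ - l K|) := by
      have : Tendsto (fun m => l (K + m)) atTop (𝓝 ℓ) := by
        have := (tendsto_add_atTop_iff_nat K).2 hℓ
        simpa [add_comm] using this
      exact (this.sub_const _).abs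
    exact le_of_tendsto h2 (Eventually.of_forall fun m => h K m)
  have he : Real.exp (-((1 - σ) * α K)) ≤ 1 := Real.exp_le_one_iff.2 (by nlinarith [H.four_le K])
  have hx : |l K - ℓ| ≤ C := by
    rw [abs_sub_comm]; exact h1.trans (by nlinarith)
  have hq : q1 α W K = Real.exp ℓ * Real.exp (l K - ℓ) := by
    rw [← Real.exp_add]; simp only [hl]
    rw [show ℓ + (Real.log (q1 α W K) - ℓ) = Real.log (q1 α W K) by ring, Real.exp_log (q1_pos α hW0 K)]
  have hb : |Real.exp (l K - ℓ) - 1| ≤ |l K - ℓ| * Real.exp |l K - ℓ| := by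
    set x := l K - ℓ
    rcases le_or_gt 0 x with hx0 | hx0
    · rw [abs_of_nonneg hx0, abs_of_nonneg (by linarith [Real.one_le_exp hx0])]
      have h3 : Real.exp x - 1 = Real.exp x * (1 - Real.exp (-x)) := by
        rw [mul_sub, mul_one, ← Real.exp_add]; simp
      rw [h3, mul_comm x]
      exact mul_le_mul_of_nonneg_left (by linarith [Real.add_one_le_exp (-x)]) (Real.exp_pos _).le
    · rw [abs_of_neg hx0, abs_of_nonpos (by linarith [Real.exp_le_one_iff.2 hx0.le])]
      have h4 : 1 ≤ Real.exp (-x) := Real.one_le_exp (by linarith)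
      nlinarith [Real.add_one_le_exp x]
  calc |q1 α W K - Real.exp ℓ| = Real.exp ℓ * |Real.exp (l K - ℓ) - 1| := by
        rw [hq, ← abs_of_pos (Real.exp_pos ℓ), ← abs_mul, abs_of_pos (Real.exp_pos ℓ)]; congr 1; ring
    _ ≤ Real.exp ℓ * (C * Real.exp (-((1 - σ) * α K)) * Real.exp C) := by
        refine mul_le_mul_of_nonneg_left (hb.trans ?_) (Real.exp_pos _).le
        rw [abs_sub_comm] at h1
        exact mul_le_mul h1 (Real.exp_le_exp.2 hx) (Real.exp_pos _).le (by positivity)
    _ = _ := by ring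

end Pool.Agent.H41.BC
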