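import Pool.Agent.H41.BC.G

/-! # Project BC, stubs BC-SYS and BC-SKP: the cells (helper82) -/

set_option autoImplicit false

open MeasureTheory Filter Topology Set

namespace Pool.Agent.H41.BC

/-- `α 0` large, recursion with `cell_exists` -/
theorem exists_sys (h : ℝ → ℝ) (hlog : Tendsto (fun x => h x / Real.log x) atTop atTop)
    (hsq : ∀ᶠ x in atTop, h x ≤ √x) : ∃ α β, Sys h α β := by
  classical
  have h1 : ∀ᶠ b in atTop, 1 ≤ h (Real.exp b) / Real.log (Real.exp b) ∧ h (Real.exp b) ≤ √(Real.exp b) :=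
    Real.tendsto_exp_atTop.eventually ((hlog.eventually_ge_atTop 1).and hsq)
  obtain ⟨A0, hA0⟩ := eventually_atTop.1 h1
  set A : ℝ := max A0 4 with hA
  have hA4 : 4 ≤ A := le_max_right _ _
  have hsize : ∀ b, A ≤ b → b ≤ h (Real.exp b) ∧ h (Real.exp b) ≤ √(Real.exp b) := by
    intro b hb
    obtain ⟨h2, h3⟩ := hA0 b ((le_max_left _ _).trans hb)
    refine ⟨?_, h3⟩
    rw [Real.log_exp, one_le_div (by linarith)] at h2
    exact h2
  choose! B hB1 hB2 hB3 using fun (a : ℝ) (ha : 4 ≤ a) => cell_exists ha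
  let nx : ℝ → ℝ := fun b => if Cross b then Real.log (Real.exp b + h (Real.exp b)) else b
  have hnx : ∀ b, A ≤ b → b ≤ nx b := by
    intro b hb
    simp only [nx]
    split_ifs with hc
    · rw [Real.le_log_iff_exp_le]
      · linarith [(hsize b hb).1]
      · linarith [(hsize b hb).1, Real.exp_pos b]
    · exact le_rfl
  let α : ℕ → ℝ := fun n => Nat.rec A (fun _ a => nx (B a)) n
  have hα0 : α 0 = A := rfl
  have hαs : ∀ n, α (n + 1) = nx (B (α n)) := fun n => rfl
  have hαA : ∀ n, A ≤ α n := by
    intro n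
    induction n with
    | zero => exact le_rfl
    | succ n ih =>
      rw [hαs]
      have h2 : A ≤ B (α n) := ih.trans (hB1 _ (hA4.trans ih)).le
      exact h2.trans (hnx _ h2)
  have hβA : ∀ n, A ≤ B (α n) := fun n => (hαA n).trans (hB1 _ (hA4.trans (hαA n))).le
  refine ⟨α, fun n => B (α n), ?_, ?_, ?_, ?_, ?_⟩
  · rw [hα0]; exact hA4
  · exact fun n => hB1 _ (hA4.trans (hαA n))
  · exact fun n => hB3 _ (hA4.trans (hαA n))
  · exact fun n => hsize _ (hβA n)
  · intro n
    rw [hαs]
    simp only [nx]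
    split_ifs with hc
    · right
      refine ⟨Real.exp_log ?_, hc⟩
      linarith [(hsize _ (hβA n)).1, Real.exp_pos (B (α n)), hβA n]
    · left
      exact ⟨rfl, hc⟩

section
variable {h : ℝ → ℝ} {α β : ℕ → ℝ}

lemma sysA_le (H : Sys h α β) : ∀ n, 4 ≤ α n ∧ β n ≤ α (n + 1) := by
  intro n
  induction n with
  | zero =>
    refine ⟨H.start, ?_⟩
    rcases H.next 0 with h1 | h1
    · exact h1.1.ge
    · apply Real.exp_le_exp.1
      rw [h1.1]
      linarith [(H.size 0).1, H.lt 0, H.start]
  | succ n ih =>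
    have h4 : 4 ≤ α (n + 1) := by linarith [ih.1, ih.2, H.lt n]
    refine ⟨h4, ?_⟩
    rcases H.next (n + 1) with h1 | h1
    · exact h1.1.ge
    · apply Real.exp_le_exp.1
      rw [h1.1]
      linarith [(H.size (n + 1)).1, H.lt (n + 1)]

lemma sysA_monoβ (H : Sys h α β) : StrictMono β := by
  refine strictMono_nat_of_lt_succ fun n => ?_
  exact (sysA_le H n).2.trans_lt (H.lt (n + 1))

lemma sysA_monoα (H : Sys h α β) : StrictMono α := by
  refine strictMono_nat_of_lt_succ fun n => ?_
  exact (H.lt n).trans_le (sysA_le H n).2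

lemma cross_unique (H : Sys h α β) {n m : ℕ} (hnm : n < m) {j : ℕ}
    (h1 : ∫ v in β n..√(j : ℝ), g v ≤ 1) (h2 : β m < √(j : ℝ)) : False := by
  have h4n : 4 < β n := lt_of_le_of_lt (sysA_le H n).1 (H.lt n)
  have h3 : β n ≤ α (n + 1) := (sysA_le H n).2
  have h4 : β (n + 1) ≤ β m := (sysA_monoβ H).monotone hnm
  have e1 : ∫ v in β n..√(j : ℝ), g v = (∫ v in β n..α (n + 1), g v) +
      ((∫ v in α (n + 1)..β (n + 1), g v) + ((∫ v in β (n + 1)..β m, g v) + ∫ v in β m..√(j : ℝ), g v)) := by
    rw [intervalIntegral.integral_add_adjacent_intervals (g_int _ _) (g_int _ _),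
      intervalIntegral.integral_add_adjacent_intervals (g_int _ _) (g_int _ _),
      intervalIntegral.integral_add_adjacent_intervals (g_int _ _) (g_int _ _)]
  have l1 := len_le_mass (a := β n) (b := α (n + 1)) (by linarith) h3
  have l2 := len_le_mass (a := β (n + 1)) (b := β m) (by linarith [H.lt (n + 1)]) h4
  have l3 := len_le_mass (a := β m) (b := √(j : ℝ)) (by linarith [H.lt (n + 1)]) h2.le
  rw [H.mass (n + 1)] at e1
  linarith

lemma summable_exp_sqrt {c : ℝ} (hc : 0 < c) : Summable fun j : ℕ => Real.exp (-c * (√(j : ℝ) - 1)) := by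
  have h1 : (fun x : ℝ => Real.exp (-c * x)) =o[atTop] fun x : ℝ => x ^ (-4 : ℝ) :=
    isLittleO_exp_neg_mul_rpow_atTop hc (-4)
  have h2 : Tendsto (fun j : ℕ => √(j : ℝ)) atTop atTop :=
    Real.tendsto_sqrt_atTop.comp tendsto_natCast_atTop_atTop
  have h3 := h1.comp_tendsto h2
  have h4 : (fun j : ℕ => Real.exp (-c * (√(j : ℝ) - 1))) = fun j : ℕ => Real.exp c * Real.exp (-c * √(j : ℝ)) := by
    funext j
    rw [← Real.exp_add]
    congr 1
    ring
  rw [h4]
  apply Summable.mul_left
  refine summable_of_isBigO_nat (g := fun j : ℕ => (j : ℝ) ^ (-2 : ℝ)) ?_ ?_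
  · exact Real.summable_nat_rpow.2 (by norm_num)
  · refine h3.isBigO.congr' (Eventually.of_forall fun j => rfl) (Eventually.of_forall fun j => ?_)
    simp only [Function.comp]
    rw [Real.sqrt_eq_rpow, ← Real.rpow_mul (Nat.cast_nonneg j)]
    norm_num

/-- the cells of the system -/
theorem sys_cells (H : Sys h α β) : IsCells α β := by
  classical
  refine ⟨H.start, H.lt, fun n => (sysA_le H n).2, H.mass, fun σ hσ => ?_⟩
  set c : ℝ := σ - 1 / 2 with hc
  have hc0 : 0 < c := by rw [hc]; linarith
  set F : ℕ → ℝ := fun j => Real.exp (-c * (√(j : ℝ) - 1)) with hF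
  have hFs : Summable F := summable_exp_sqrt hc0
  set f : ℕ → ℝ := fun n => ∫ v in β n..α (n + 1), g v * Real.exp (-(σ * v)) with hf
  have hβ4 : ∀ n, 4 < β n := fun n => lt_of_le_of_lt (sysA_le H n).1 (H.lt n)
  have hf0 : ∀ n, 0 ≤ f n := by
    intro n
    refine intervalIntegral.integral_nonneg (sysA_le H n).2 fun v hv => ?_
    exact mul_nonneg (by linarith [one_le_g (v := v) (by linarith [hv.1, hβ4 n])]) (Real.exp_pos _).le
  have hf1 : ∀ n, ¬ Cross (β n) → f n = 0 := by
    intro n hn
    rcases H.next n with h1 | h1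
    · simp only [hf]
      rw [h1.1, intervalIntegral.integral_same]
    · exact absurd h1.2 hn
  have hf2 : ∀ n, Cross (β n) → f n ≤ Real.exp (-c * β n) := by
    intro n hn
    rcases H.next n with h1 | h1
    · exact absurd hn h1.2
    · have hle := (sysA_le H n).2
      calc f n ≤ ∫ v in β n..α (n + 1), Real.exp (-(σ * β n)) * Real.exp v := by
            refine intervalIntegral.integral_mono_on hle
              ((g_cont.mul (by fun_prop)).intervalIntegrable _ _)
              (Continuous.intervalIntegrable (by fun_prop) _ _) fun v hv => ?_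
            have hv0 : 0 ≤ v := by linarith [hv.1, hβ4 n]
            rw [mul_comm (g v)]
            refine mul_le_mul ?_ (g_le hv0) (by linarith [one_le_g hv0]) (Real.exp_pos _).le
            apply Real.exp_le_exp.2
            have : σ * β n ≤ σ * v := mul_le_mul_of_nonneg_left hv.1 (by linarith)
            linarith
        _ = Real.exp (-(σ * β n)) * (Real.exp (α (n + 1)) - Real.exp (β n)) := by
            rw [intervalIntegral.integral_const_mul, integral_exp]
        _ = Real.exp (-(σ * β n)) * h (Real.exp (β n)) := by rw [h1.1]; ring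
        _ ≤ Real.exp (-(σ * β n)) * √(Real.exp (β n)) :=
            mul_le_mul_of_nonneg_left (H.size n).2 (Real.exp_pos _).le
        _ = Real.exp (-c * β n) := by
            rw [← Real.exp_half, ← Real.exp_add]
            congr 1
            rw [hc]
            ring
  let S : Set ℕ := {n | Cross (β n)}
  have hS : ∀ n : S, ∃ j : ℕ, β n < √(j : ℝ) ∧ ∫ v in β n..√(j : ℝ), g v ≤ 1 := fun n => n.2
  choose J hJ1 hJ2 using hS
  have hJinj : Function.Injective J := by
    intro a b hab
    by_contra hne
    have hne' : (a : ℕ) ≠ b := fun h => hne (Subtype.ext h)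
    rcases lt_or_gt_of_ne hne' with hlt | hlt
    · exact cross_unique H hlt (hJ2 a) (by rw [hab]; exact hJ1 b)
    · exact cross_unique H hlt (hJ2 b) (by rw [← hab]; exact hJ1 a)
  have hsub : Summable fun n : S => f n := by
    refine Summable.of_nonneg_of_le (fun n => hf0 n) (fun n => ?_) (hFs.comp_injective hJinj)
    refine (hf2 n n.2).trans ?_
    simp only [Function.comp, hF]
    apply Real.exp_le_exp.2
    have hlen := len_le_mass (a := β n) (b := √(J n : ℝ)) (by linarith [hβ4 n]) (hJ1 n).le
    have := hJ2 n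
    nlinarith
  have hind : Summable (S.indicator f) := summable_subtype_iff_indicator.1 hsub
  have : S.indicator f = f := by
    funext n
    by_cases hn : n ∈ S
    · rw [indicator_of_mem hn]
    · rw [indicator_of_notMem hn, hf1 n hn]
  rwa [this] at hind

end

end Pool.Agent.H41.BC
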