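import Pool.Agent.H41.BC.G

/-! # Project BC: basic facts on the systems of cells -/

set_option autoImplicit false

open MeasureTheory Filter Topology Set

namespace Pool.Agent.H41.BC.SysB

theorem g_nonneg (v : ℝ) : 0 ≤ g v :=
  intervalIntegral.integral_nonneg (by norm_num) fun _ _ => (Real.exp_pos _).le

theorem g_int (a b : ℝ) : IntervalIntegrable g volume a b := g_cont.intervalIntegrable a b

theorem int_nonneg {a b : ℝ} (h : a ≤ b) : 0 ≤ ∫ v in a..b, g v :=
  intervalIntegral.integral_nonneg h fun _ _ => g_nonneg _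

theorem int_add (a b c : ℝ) : ∫ v in a..c, g v = (∫ v in a..b, g v) + ∫ v in b..c, g v :=
  (intervalIntegral.integral_add_adjacent_intervals (g_int a b) (g_int b c)).symm

theorem int_mono {a b c : ℝ} (h : b ≤ c) : ∫ v in a..b, g v ≤ ∫ v in a..c, g v := by
  rw [int_add a b c]
  linarith [int_nonneg h]

theorem int_le_exp {a b : ℝ} (ha : 0 ≤ a) (h : a ≤ b) : ∫ v in a..b, g v ≤ Real.exp b - Real.exp a := by
  have h1 : ∫ v in a..b, g v ≤ ∫ v in a..b, Real.exp v :=
    intervalIntegral.integral_mono_on h (g_int a b) (Real.continuous_exp.intervalIntegrable a b)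
      fun v hv => g_le (ha.trans hv.1)
  rwa [integral_exp] at h1

theorem le_int {a b : ℝ} (ha : 0 ≤ a) (h : a ≤ b) : b - a ≤ ∫ v in a..b, g v := by
  have h1 : ∫ v in a..b, (1 : ℝ) ≤ ∫ v in a..b, g v :=
    intervalIntegral.integral_mono_on h (continuous_const.intervalIntegrable a b) (g_int a b)
      fun v hv => one_le_g (ha.trans hv.1)
  simpa using h1

variable {h : ℝ → ℝ} {α β : ℕ → ℝ}

theorem four_succ (H : Sys h α β) (n : ℕ) : 4 ≤ α n ∧ β n ≤ α (n + 1) := by
  have key : ∀ n, 4 ≤ α n → β n ≤ α (n + 1) := by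
    intro n h4
    rcases H.next n with ⟨h1, _⟩ | ⟨h1, _⟩
    · exact h1.ge
    · rw [← Real.exp_le_exp, h1]
      linarith [(H.size n).1, H.lt n]
  have h4 : ∀ n, 4 ≤ α n := by
    intro n
    induction n with
    | zero => exact H.start
    | succ n ih => linarith [key n ih, H.lt n]
  exact ⟨h4 n, key n (h4 n)⟩

theorem four (H : Sys h α β) (n : ℕ) : 4 ≤ α n := (four_succ H n).1

theorem succ (H : Sys h α β) (n : ℕ) : β n ≤ α (n + 1) := (four_succ H n).2

theorem α_mono (H : Sys h α β) : StrictMono α :=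
  strictMono_nat_of_lt_succ fun n => (H.lt n).trans_le (succ H n)

theorem β_mono (H : Sys h α β) : StrictMono β :=
  strictMono_nat_of_lt_succ fun n => (succ H n).trans_lt (H.lt (n + 1))

/-- the mass up to the beginning of the `N`-th cell -/
theorem mass_α (H : Sys h α β) (N : ℕ) :
    ∫ v in α 0..α N, g v = N + ∑ n ∈ Finset.range N, ∫ v in β n..α (n + 1), g v := by
  induction N with
  | zero => simp
  | succ N ih =>
    rw [int_add (α 0) (α N) (α (N + 1)), ih, int_add (α N) (β N) (α (N + 1)), H.mass N,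
      Finset.sum_range_succ]
    push_cast
    ring

theorem skip_nonneg (H : Sys h α β) (N : ℕ) :
    0 ≤ ∑ n ∈ Finset.range N, ∫ v in β n..α (n + 1), g v :=
  Finset.sum_nonneg fun n _ => int_nonneg (succ H n)

theorem exists_gt (H : Sys h α β) (L : ℝ) : ∃ n, L < α n := by
  by_contra hcon
  push Not at hcon
  obtain ⟨N, hN⟩ := exists_nat_gt (∫ v in α 0..L, g v)
  have h1 := mass_α H N
  have h2 := skip_nonneg H N
  have h3 : ∫ v in α 0..α N, g v ≤ ∫ v in α 0..L, g v := int_mono (hcon N)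
  linarith

theorem cell (H : Sys h α β) (n : ℕ) :
    β n ≤ α n + 1 ∧ Real.exp (β n) - Real.exp (α n) ≤ 2 * β n :=
  cell_len (four H n) (H.lt n).le (H.mass n).le

theorem h_pos (H : Sys h α β) (n : ℕ) : 4 ≤ h (Real.exp (β n)) := by
  linarith [(H.size n).1, H.lt n, four H n]

/-- the interval which is skipped after the `n`-th cell -/
theorem gap (H : Sys h α β) (n : ℕ) :
    Real.exp (α (n + 1)) ≤ Real.exp (β n) + h (Real.exp (β n)) := by
  rcases H.next n with ⟨h1, _⟩ | ⟨h1, _⟩
  · rw [h1]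
    linarith [h_pos H n]
  · exact h1.le

theorem α_succ_le (H : Sys h α β) (n : ℕ) : α (n + 1) ≤ β n + 1 := by
  have h1 := gap H n
  have h2 := (H.size n).2
  have h3 : √(Real.exp (β n)) ≤ Real.exp (β n) := by
    rw [Real.sqrt_le_left (Real.exp_pos _).le]
    have h4 : 1 ≤ Real.exp (β n) := Real.one_le_exp (by linarith [H.lt n, four H n])
    nlinarith
  rw [← Real.exp_le_exp, Real.exp_add]
  have h5 : 2 ≤ Real.exp 1 := by linarith [Real.add_one_le_exp 1]
  have h6 := Real.exp_pos (β n)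
  nlinarith

/-- after a crossing a positive mass is skipped -/
theorem lt_of_cross (H : Sys h α β) {n : ℕ} (hc : Cross (β n)) : β n < α (n + 1) := by
  rcases H.next n with ⟨_, h1⟩ | ⟨h1, _⟩
  · exact absurd hc h1
  · rw [← Real.exp_lt_exp, h1]
    linarith [h_pos H n]

/-- `n ↦ ⌊β n ^ 2⌋` is injective on the crossings -/
theorem floor_lt (H : Sys h α β) {n n' : ℕ} (hn : n < n') (hc : Cross (β n)) :
    ⌊β n ^ 2⌋₊ < ⌊β n' ^ 2⌋₊ := by
  obtain ⟨j, hj1, hj2⟩ := hc
  have hβ0 : 0 < β n := by linarith [H.lt n, four H n]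
  have hβ0' : 0 < β n' := by linarith [H.lt n', four H n']
  have h1 : β (n + 1) ≤ β n' := (β_mono H).monotone hn
  -- `√j < β (n + 1)`
  have h2 : √(j : ℝ) < β (n + 1) := by
    by_contra hcon
    push Not at hcon
    have h3 := lt_of_cross H ⟨j, hj1, hj2⟩
    have h4 : ∫ v in β n..β (n + 1), g v ≤ ∫ v in β n..√(j : ℝ), g v := int_mono hcon
    rw [int_add (β n) (α (n + 1)) (β (n + 1)), H.mass (n + 1)] at h4
    have h5 := le_int hβ0.le h3.le
    linarith
  have h3 : ⌊β n ^ 2⌋₊ < j := by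
    rw [Nat.floor_lt (by positivity)]
    have := (Real.lt_sqrt hβ0.le).mp hj1
    exact this
  have h4 : j ≤ ⌊β n' ^ 2⌋₊ := by
    apply Nat.le_floor
    have h5 : √(j : ℝ) ≤ β n' := (h2.trans_le h1).le
    exact (Real.sqrt_le_left hβ0'.le).mp h5
  omega

end Pool.Agent.H41.BC.SysB
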